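import Mathlib

/-!
Closure properties of recursively enumerable predicates.
-/

namespace Pool.Agent.Lib.MP95a9c1.RE

open Nat.Partrec (Code)
open Encodable

variable {α β γ : Type} [Primcodable α] [Primcodable β] [Primcodable γ]

theorem prim_ex_lt {R : ℕ → β → Prop} (hf : PrimrecRel R) :
    PrimrecRel fun n y ↦ ∃ x < n, R x y :=
  (hf.exists_mem_list.comp (Primrec.list_range.comp Primrec.fst) Primrec.snd).of_eq (by simp)

theorem prim_all_lt {R : ℕ → β → Prop} (hf : PrimrecRel R) :
    PrimrecRel fun n y ↦ ∀ x < n, R x y :=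
  (hf.forall_mem_list.comp (Primrec.list_range.comp Primrec.fst) Primrec.snd).of_eq (by simp)

/-- normal form -/
theorem normal {p : α → Prop} (hp : REPred p) :
    ∃ V : ℕ × α → Bool, Primrec V ∧ ∀ a, p a ↔ ∃ w, V (w, a) = true := by
  obtain ⟨c, hc⟩ := Code.exists_code.1 hp
  refine ⟨fun q => (Code.evaln q.1 c (encode q.2)).isSome, ?_, ?_⟩
  · exact Primrec.option_isSome.comp (Code.primrec_evaln.comp
      ((Primrec.fst.pair (Primrec.const c)).pair (Primrec.encode.comp Primrec.snd)))
  · intro a
    have h1 : p a ↔ ∃ x, x ∈ Code.eval c (encode a) := by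
      rw [hc]
      simp
    rw [h1]
    constructor
    · rintro ⟨x, hx⟩
      obtain ⟨k, hk⟩ := Code.evaln_complete.1 hx
      exact ⟨k, by simp only [Option.mem_def] at hk; simp [hk]⟩
    · rintro ⟨w, hw⟩
      simp only [Option.isSome_iff_exists] at hw
      obtain ⟨x, hx⟩ := hw
      exact ⟨x, Code.evaln_sound hx⟩

theorem of_normal {p : α → Prop} (V : ℕ × α → Bool) (hV : Computable V)
    (h : ∀ a, p a ↔ ∃ w, V (w, a) = true) : REPred p := by
  have h1 : Partrec (fun a : α => Nat.rfind (fun w => Part.some (V (w, a)))) :=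
    Partrec.rfind ((hV.comp (Computable.snd.pair Computable.fst)).partrec.to₂)
  refine REPred.of_eq h1.dom_re ?_
  intro a
  rw [h]
  constructor
  · intro hd
    obtain ⟨n, hn⟩ := Part.dom_iff_mem.1 hd
    have := Nat.rfind_spec hn
    exact ⟨n, by simpa using this⟩
  · rintro ⟨w, hw⟩
    apply Nat.rfind_dom.2
    exact ⟨w, by simp [hw], fun _ => trivial⟩

theorem comp {p : β → Prop} (hp : REPred p) {f : α → β} (hf : Computable f) :
    REPred (fun a => p (f a)) := Partrec.comp hp hf

theorem of_comp {p : α → Prop} (hp : ComputablePred p) : REPred p := hp.to_re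

theorem of_prim {p : α → Prop} (hp : PrimrecPred p) : REPred p := hp.computablePred.to_re

theorem of_bool {p : α → Bool} (hp : Computable p) : REPred (fun a => p a = true) :=
  of_comp ⟨inferInstance, by simpa using hp⟩

theorem and {p q : α → Prop} (hp : REPred p) (hq : REPred q) : REPred (fun a => p a ∧ q a) := by
  obtain ⟨V, hV, h1⟩ := normal hp
  obtain ⟨W, hW, h2⟩ := normal hq
  apply of_normal (fun z : ℕ × α => V ((Nat.unpair z.1).1, z.2) && W ((Nat.unpair z.1).2, z.2))
  · exact (Primrec.and.comp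
      (hV.comp ((Primrec.fst.comp (Primrec.unpair.comp Primrec.fst)).pair Primrec.snd))
      (hW.comp ((Primrec.snd.comp (Primrec.unpair.comp Primrec.fst)).pair
        Primrec.snd))).to_comp
  · intro a
    rw [h1, h2]
    constructor
    · rintro ⟨⟨w, hw⟩, ⟨w', hw'⟩⟩
      exact ⟨Nat.pair w w', by simp [hw, hw']⟩
    · rintro ⟨w, hw⟩
      simp only [Bool.and_eq_true] at hw
      exact ⟨⟨_, hw.1⟩, ⟨_, hw.2⟩⟩

theorem or {p q : α → Prop} (hp : REPred p) (hq : REPred q) : REPred (fun a => p a ∨ q a) := by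
  obtain ⟨V, hV, h1⟩ := normal hp
  obtain ⟨W, hW, h2⟩ := normal hq
  apply of_normal (fun z : ℕ × α => V z || W z)
  · exact (Primrec.or.comp hV hW).to_comp
  · intro a
    rw [h1, h2]
    constructor
    · rintro (⟨w, hw⟩ | ⟨w, hw⟩)
      · exact ⟨w, by simp [hw]⟩
      · exact ⟨w, by simp [hw]⟩
    · rintro ⟨w, hw⟩
      simp only [Bool.or_eq_true] at hw
      rcases hw with hw | hw
      · exact Or.inl ⟨w, hw⟩
      · exact Or.inr ⟨w, hw⟩

theorem ex {p : α → β → Prop} (hp : REPred (fun q : α × β => p q.1 q.2)) :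
    REPred (fun a => ∃ b, p a b) := by
  obtain ⟨V, hV, h1⟩ := normal hp
  apply of_normal (fun z : ℕ × α =>
    ((decode (α := β) (Nat.unpair z.1).2).map (fun b => V ((Nat.unpair z.1).1, (z.2, b)))).getD
      false)
  · apply Primrec.to_comp
    apply Primrec.option_getD.comp _ (Primrec.const false)
    apply Primrec.option_map (Primrec.decode.comp (Primrec.snd.comp
      (Primrec.unpair.comp Primrec.fst)))
    exact (hV.comp ((Primrec.fst.comp (Primrec.unpair.comp (Primrec.fst.comp Primrec.fst))).pair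
      ((Primrec.snd.comp Primrec.fst).pair Primrec.snd))).to₂
  · intro a
    constructor
    · rintro ⟨b, hb⟩
      obtain ⟨w, hw⟩ := (h1 (a, b)).1 hb
      exact ⟨Nat.pair w (encode b), by simp [hw]⟩
    · rintro ⟨w, hw⟩
      rcases hd : decode (α := β) (Nat.unpair w).2 with _ | b
      · simp [hd] at hw
      · refine ⟨b, (h1 (a, b)).2 ⟨(Nat.unpair w).1, ?_⟩⟩
        simpa [hd] using hw

theorem ball_list {p : α → β → Prop} (hp : REPred (fun q : α × β => p q.1 q.2))
    {l : α → List β} (hl : Computable l) : REPred (fun a => ∀ b ∈ l a, p a b) := by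
  obtain ⟨V, hV, h1⟩ := normal hp
  have hP : PrimrecPred (fun z : ℕ × (α × List β) =>
      ∀ b ∈ z.2.2, ∃ w < z.1, V (w, (z.2.1, b)) = true) := by
    have e1 : PrimrecRel (fun (w : ℕ) (z : (ℕ × α) × β) => V (w, (z.1.2, z.2)) = true) := by
      apply PrimrecRel.comp (Primrec.eq (α := Bool)) _ (Primrec.const true)
      exact hV.comp (Primrec.fst.pair ((Primrec.snd.comp (Primrec.fst.comp Primrec.snd)).pair
        (Primrec.snd.comp Primrec.snd)))
    have e2 := prim_ex_lt e1
    have e3 : PrimrecRel (fun (b : β) (z : ℕ × α) => ∃ w < z.1, V (w, (z.2, b)) = true) := by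
      have := PrimrecRel.comp e2 (f := fun q : β × (ℕ × α) => q.2.1)
        (g := fun q : β × (ℕ × α) => ((q.2.1, q.2.2), q.1))
        (Primrec.fst.comp Primrec.snd)
        (((Primrec.fst.comp Primrec.snd).pair (Primrec.snd.comp Primrec.snd)).pair Primrec.fst)
      exact this
    have e4 := e3.forall_mem_list
    exact PrimrecRel.comp e4 (f := fun z : ℕ × (α × List β) => z.2.2)
      (g := fun z : ℕ × (α × List β) => (z.1, z.2.1))
      (Primrec.snd.comp Primrec.snd) (Primrec.fst.pair (Primrec.fst.comp Primrec.snd))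
  have hR : REPred (fun z : α × List β => ∀ b ∈ z.2, p z.1 b) := by
    have h2 : REPred (fun z : α × List β => ∃ W : ℕ, ∀ b ∈ z.2, ∃ w < W, V (w, (z.1, b)) = true) :=
      ex (p := fun (z : α × List β) (W : ℕ) => ∀ b ∈ z.2, ∃ w < W, V (w, (z.1, b)) = true)
        (comp (of_prim hP) (f := fun z : (α × List β) × ℕ => (z.2, z.1))
          (Computable.snd.pair Computable.fst))
    refine REPred.of_eq h2 ?_
    rintro ⟨a, l⟩
    constructor
    · rintro ⟨W, hW⟩ b hb
      obtain ⟨w, _, hw⟩ := hW b hb
      exact (h1 (a, b)).2 ⟨w, hw⟩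
    · intro h
      simp only at h
      induction l with
      | nil => exact ⟨0, by simp⟩
      | cons x l ih =>
        obtain ⟨W, hW⟩ := ih (fun b hb => h b (List.mem_cons_of_mem _ hb))
        obtain ⟨w, hw⟩ := (h1 (a, x)).1 (h x (List.mem_cons_self))
        refine ⟨max W (w + 1), ?_⟩
        intro b hb
        rcases List.mem_cons.1 hb with rfl | hb
        · exact ⟨w, by simp, hw⟩
        · obtain ⟨w', h3, h4⟩ := hW b hb
          exact ⟨w', lt_of_lt_of_le h3 (le_max_left _ _), h4⟩
  exact comp hR (f := fun a => (a, l a)) (Computable.id.pair hl)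

theorem ball_lt {p : α → ℕ → Prop} (hp : REPred (fun q : α × ℕ => p q.1 q.2))
    {f : α → ℕ} (hf : Computable f) : REPred (fun a => ∀ i < f a, p a i) := by
  have := ball_list hp (l := fun a => List.range (f a)) (Primrec.list_range.to_comp.comp hf)
  refine REPred.of_eq this ?_
  intro a
  simp

/-- a total function with recursively enumerable graph is computable -/
theorem computable_of_graph {f : α → β} (hf : REPred (fun q : α × β => f q.1 = q.2)) :
    Computable f := by
  obtain ⟨V, hV, h1⟩ := normal hf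
  have hV' : Primrec (fun z : α × ℕ =>
    ((decode (α := β) (Nat.unpair z.2).2).bind (fun b =>
      if V ((Nat.unpair z.2).1, (z.1, b)) = true then some b else none))) := by
    apply Primrec.option_bind (Primrec.decode.comp (Primrec.snd.comp
      (Primrec.unpair.comp Primrec.snd)))
    apply Primrec.ite
    · apply PrimrecRel.comp (Primrec.eq (α := Bool)) _ (Primrec.const true)
      exact hV.comp ((Primrec.fst.comp (Primrec.unpair.comp (Primrec.snd.comp Primrec.fst))).pair
        ((Primrec.fst.comp Primrec.fst).pair Primrec.snd))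
    · exact Primrec.option_some.comp Primrec.snd
    · exact Primrec.const none
  have h2 : Partrec (fun a : α => Nat.rfindOpt (fun w =>
    ((decode (α := β) (Nat.unpair w).2).bind (fun b =>
      if V ((Nat.unpair w).1, (a, b)) = true then some b else none)))) :=
    Partrec.rfindOpt hV'.to_comp.to₂
  refine h2.of_eq_tot ?_
  intro a
  obtain ⟨w, hw⟩ := (h1 (a, f a)).1 rfl
  have hdom : (Nat.rfindOpt (fun w =>
    ((decode (α := β) (Nat.unpair w).2).bind (fun b =>
      if V ((Nat.unpair w).1, (a, b)) = true then some b else none)))).Dom := by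
    rw [Nat.rfindOpt_dom]
    exact ⟨Nat.pair w (encode (f a)), f a, by simp [hw]⟩
  obtain ⟨b, hb⟩ := Part.dom_iff_mem.1 hdom
  obtain ⟨n, hn⟩ := Nat.rfindOpt_spec hb
  simp only [Option.mem_def, Option.bind_eq_some_iff] at hn
  obtain ⟨b', _, hb'⟩ := hn
  split_ifs at hb' with h3
  · have : f a = b' := (h1 (a, b')).2 ⟨_, h3⟩
    rw [Option.some.injEq] at hb'
    rw [this, hb']
    exact hb

end Pool.Agent.Lib.MP95a9c1.RE
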