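import Pool.Agent.Lib.MP_95a9c1_lc.Defs
import Pool.Agent.Lib.MP_95a9c1_lc.RE

/-!
Oracle computability through recursively enumerable relations on finite strings.
-/

namespace Pool.Agent.Lib.MP95a9c1

open Encodable

namespace Bridge

theorem strOf_prefix (X : Set ℕ) {m n : ℕ} (h : m ≤ n) : strOf X m <+: strOf X n := by
  unfold strOf
  apply List.IsPrefix.map
  obtain ⟨k, rfl⟩ := Nat.exists_eq_add_of_le h
  rw [List.range_add]
  exact List.prefix_append _ _

theorem strOf_succ (X : Set ℕ) (n : ℕ) :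
    strOf X (n + 1) = strOf X n ++ [@decide (n ∈ X) (Classical.propDecidable _)] := by
  unfold strOf
  rw [List.range_succ, List.map_append]
  simp

theorem strOf_getElem? (X : Set ℕ) (n x : ℕ) (b : Bool) :
    (strOf X n)[x]? = some b ↔ x < n ∧ b = @decide (x ∈ X) (Classical.propDecidable _) := by
  unfold strOf
  rw [List.getElem?_map]
  by_cases h : x < n
  · rw [List.getElem?_range h]
    simp [h, eq_comm]
  · rw [List.getElem?_eq_none (by simpa using Nat.le_of_not_lt h)]
    simp [h]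

/-- the property shown by induction -/
def Good (X : Set ℕ) (g : ℕ →. ℕ) : Prop :=
  ∃ W : List Bool → ℕ → ℕ → Prop, REPred (fun q : List Bool × ℕ × ℕ => W q.1 q.2.1 q.2.2) ∧
    (∀ s t x y, s <+: t → W s x y → W t x y) ∧
    ∀ x y, y ∈ g x ↔ ∃ n, W (strOf X n) x y

theorem up {X : Set ℕ} {W : List Bool → ℕ → ℕ → Prop}
    (h : ∀ s t x y, s <+: t → W s x y → W t x y) {m n : ℕ} (hmn : m ≤ n) {x y : ℕ}
    (hW : W (strOf X m) x y) : W (strOf X n) x y :=
  h _ _ _ _ (strOf_prefix X hmn) hW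

theorem good_prim (X : Set ℕ) {f : ℕ → ℕ} (hf : Primrec f) :
    Good X (fun n => Part.some (f n)) := by
  refine ⟨fun _ x y => y = f x, ?_, ?_, ?_⟩
  · apply RE.of_prim
    exact PrimrecRel.comp (Primrec.eq (α := ℕ)) (Primrec.snd.comp Primrec.snd)
      (hf.comp (Primrec.fst.comp Primrec.snd))
  · intro s t x y _ h
    exact h
  · intro x y
    simp

theorem good_oracle (X : Set ℕ) : Good X (chi X) := by
  refine ⟨fun s x y => (s[x]? = some true ∧ y = 1) ∨ (s[x]? = some false ∧ y = 0), ?_, ?_, ?_⟩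
  · apply RE.of_prim
    have h1 : Primrec (fun q : List Bool × ℕ × ℕ => q.1[q.2.1]?) :=
      Primrec.list_getElem?.comp Primrec.fst (Primrec.fst.comp Primrec.snd)
    have h2 : Primrec (fun q : List Bool × ℕ × ℕ => q.2.2) := Primrec.snd.comp Primrec.snd
    exact PrimrecPred.or
      (PrimrecPred.and (PrimrecRel.comp (Primrec.eq (α := Option Bool)) h1
        (Primrec.const (some true))) (PrimrecRel.comp (Primrec.eq (α := ℕ)) h2 (Primrec.const 1)))
      (PrimrecPred.and (PrimrecRel.comp (Primrec.eq (α := Option Bool)) h1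
        (Primrec.const (some false))) (PrimrecRel.comp (Primrec.eq (α := ℕ)) h2 (Primrec.const 0)))
  · intro s t x y hst h
    obtain ⟨r, rfl⟩ := hst
    have key : ∀ b, s[x]? = some b → (s ++ r)[x]? = some b := by
      intro b hb
      have hx : x < s.length := by
        by_contra hc
        rw [List.getElem?_eq_none (Nat.le_of_not_lt hc)] at hb
        cases hb
      rw [List.getElem?_append_left hx, hb]
    rcases h with ⟨h, hy⟩ | ⟨h, hy⟩
    · exact Or.inl ⟨key _ h, hy⟩
    · exact Or.inr ⟨key _ h, hy⟩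
  · intro x y
    simp only [strOf_getElem?, chi, Part.mem_some_iff]
    constructor
    · intro h
      refine ⟨x + 1, ?_⟩
      by_cases hx : x ∈ X
      · left
        simp_all
      · right
        simp_all
    · rintro ⟨n, ⟨⟨_, h⟩, hy⟩ | ⟨⟨_, h⟩, hy⟩⟩
      · have : x ∈ X := by simpa using h.symm
        simp [this, hy]
      · have : x ∉ X := by simpa using h.symm
        simp [this, hy]

theorem good_pair {X : Set ℕ} {f h : ℕ →. ℕ} (hf : Good X f) (hh : Good X h) :
    Good X (fun n => (Nat.pair <$> f n <*> h n)) := by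
  obtain ⟨F, hF1, hF2, hF3⟩ := hf
  obtain ⟨H, hH1, hH2, hH3⟩ := hh
  refine ⟨fun s x y => F s x y.unpair.1 ∧ H s x y.unpair.2, ?_, ?_, ?_⟩
  · apply RE.and
    · exact RE.comp hF1 (f := fun q : List Bool × ℕ × ℕ => (q.1, q.2.1, q.2.2.unpair.1))
        (Primrec.fst.pair ((Primrec.fst.comp Primrec.snd).pair
          (Primrec.fst.comp (Primrec.unpair.comp (Primrec.snd.comp Primrec.snd))))).to_comp
    · exact RE.comp hH1 (f := fun q : List Bool × ℕ × ℕ => (q.1, q.2.1, q.2.2.unpair.2))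
        (Primrec.fst.pair ((Primrec.fst.comp Primrec.snd).pair
          (Primrec.snd.comp (Primrec.unpair.comp (Primrec.snd.comp Primrec.snd))))).to_comp
  · rintro s t x y hst ⟨h1, h2⟩
    exact ⟨hF2 _ _ _ _ hst h1, hH2 _ _ _ _ hst h2⟩
  · intro x y
    have : y ∈ (Nat.pair <$> f x <*> h x) ↔ y.unpair.1 ∈ f x ∧ y.unpair.2 ∈ h x := by
      simp only [Seq.seq, Part.map_eq_map, Part.bind_map, Part.mem_bind_iff, Part.mem_map_iff]
      constructor
      · rintro ⟨a, ha, b, hb, rfl⟩
        simp [ha, hb]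
      · rintro ⟨h1, h2⟩
        exact ⟨_, h1, _, h2, by simp⟩
    rw [this, hF3, hH3]
    constructor
    · rintro ⟨⟨m, hm⟩, ⟨n, hn⟩⟩
      exact ⟨max m n, up hF2 (le_max_left _ _) hm, up hH2 (le_max_right _ _) hn⟩
    · rintro ⟨n, h1, h2⟩
      exact ⟨⟨n, h1⟩, ⟨n, h2⟩⟩

theorem good_comp {X : Set ℕ} {f h : ℕ →. ℕ} (hf : Good X f) (hh : Good X h) :
    Good X (fun n => h n >>= f) := by
  obtain ⟨F, hF1, hF2, hF3⟩ := hf
  obtain ⟨H, hH1, hH2, hH3⟩ := hh
  refine ⟨fun s x y => ∃ z, H s x z ∧ F s z y, ?_, ?_, ?_⟩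
  · refine RE.ex (α := List Bool × ℕ × ℕ) (β := ℕ)
      (p := fun q z => H q.1 q.2.1 z ∧ F q.1 z q.2.2) ?_
    apply RE.and
    · exact RE.comp hH1 (f := fun q : (List Bool × ℕ × ℕ) × ℕ => (q.1.1, q.1.2.1, q.2))
        ((Primrec.fst.comp Primrec.fst).pair
          ((Primrec.fst.comp (Primrec.snd.comp Primrec.fst)).pair Primrec.snd)).to_comp
    · exact RE.comp hF1 (f := fun q : (List Bool × ℕ × ℕ) × ℕ => (q.1.1, q.2, q.1.2.2))
        ((Primrec.fst.comp Primrec.fst).pair
          (Primrec.snd.pair (Primrec.snd.comp (Primrec.snd.comp Primrec.fst)))).to_comp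
  · rintro s t x y hst ⟨z, h1, h2⟩
    exact ⟨z, hH2 _ _ _ _ hst h1, hF2 _ _ _ _ hst h2⟩
  · intro x y
    have : y ∈ (h x >>= f) ↔ ∃ z, z ∈ h x ∧ y ∈ f z := by
      simp [Part.bind_eq_bind, Part.mem_bind_iff]
    rw [this]
    constructor
    · rintro ⟨z, h1, h2⟩
      obtain ⟨m, hm⟩ := (hH3 _ _).1 h1
      obtain ⟨n, hn⟩ := (hF3 _ _).1 h2
      exact ⟨max m n, z, up hH2 (le_max_left _ _) hm, up hF2 (le_max_right _ _) hn⟩
    · rintro ⟨n, z, h1, h2⟩
      exact ⟨z, (hH3 _ _).2 ⟨n, h1⟩, (hF3 _ _).2 ⟨n, h2⟩⟩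

theorem bound {P : ℕ → ℕ → Prop} (hP : ∀ i m n, m ≤ n → P i m → P i n) (N : ℕ)
    (h : ∀ i < N, ∃ n, P i n) : ∃ n, ∀ i < N, P i n := by
  induction N with
  | zero => exact ⟨0, fun i hi => absurd hi (Nat.not_lt_zero _)⟩
  | succ N ih =>
    obtain ⟨n, hn⟩ := ih (fun i hi => h i (Nat.lt_succ_of_lt hi))
    obtain ⟨m, hm⟩ := h N (Nat.lt_succ_self _)
    refine ⟨max n m, fun i hi => ?_⟩
    rcases Nat.lt_succ_iff_lt_or_eq.1 hi with h1 | rfl
    · exact hP _ _ _ (le_max_left _ _) (hn i h1)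
    · exact hP _ _ _ (le_max_right _ _) hm

theorem prec_mem (f h : ℕ →. ℕ) (a : ℕ) (n y : ℕ) :
    y ∈ (Nat.rec (f a) (fun y IH => do
      let i ← IH
      h (Nat.pair a (Nat.pair y i))) n : Part ℕ) ↔
    ∃ l : List ℕ, l.getD 0 0 ∈ f a ∧
      (∀ i < n, l.getD (i + 1) 0 ∈ h (Nat.pair a (Nat.pair i (l.getD i 0)))) ∧
      y = l.getD n 0 := by
  induction n generalizing y with
  | zero =>
    constructor
    · intro hy
      exact ⟨[y], by simpa using hy, fun i hi => absurd hi (Nat.not_lt_zero _), by simp⟩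
    · rintro ⟨l, h1, _, rfl⟩
      exact h1
  | succ n ih =>
    have e : (Nat.rec (f a) (fun y IH => do
      let i ← IH
      h (Nat.pair a (Nat.pair y i))) (n + 1) : Part ℕ) =
        (Nat.rec (f a) (fun y IH => do
          let i ← IH
          h (Nat.pair a (Nat.pair y i))) n : Part ℕ) >>= fun i => h (Nat.pair a (Nat.pair n i)) :=
      rfl
    rw [e, Part.bind_eq_bind, Part.mem_bind_iff]
    constructor
    · rintro ⟨z, hz, hy⟩
      obtain ⟨l, h1, h2, h3⟩ := (ih z).1 hz
      refine ⟨(List.range (n + 1)).map (fun i => l.getD i 0) ++ [y], ?_, ?_, ?_⟩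
      · rw [List.getD_append _ _ _ _ (by simp)]
        rw [List.getD_eq_getElem _ _ (by simp)]
        simpa using h1
      · intro i hi
        have e1 : ((List.range (n + 1)).map (fun i => l.getD i 0) ++ [y]).getD i 0 =
            l.getD i 0 := by
          rw [List.getD_append _ _ _ _ (by simpa using hi)]
          rw [List.getD_eq_getElem _ _ (by simpa using hi)]
          simp
        rw [e1]
        rcases Nat.lt_succ_iff_lt_or_eq.1 hi with h4 | rfl
        · have e2 : ((List.range (n + 1)).map (fun i => l.getD i 0) ++ [y]).getD (i + 1) 0 =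
            l.getD (i + 1) 0 := by
            rw [List.getD_append _ _ _ _ (by simpa using h4)]
            rw [List.getD_eq_getElem _ _ (by simpa using h4)]
            simp
          rw [e2]
          exact h2 i h4
        · have e2 : ((List.range (i + 1)).map (fun i => l.getD i 0) ++ [y]).getD (i + 1) 0 =
            y := by
            rw [List.getD_append_right _ _ _ _ (by simp)]
            simp
          rw [e2, ← h3]
          exact hy
      · rw [List.getD_append_right _ _ _ _ (by simp)]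
        simp
    · rintro ⟨l, h1, h2, rfl⟩
      refine ⟨l.getD n 0, (ih _).2 ⟨l, h1, fun i hi => h2 i (Nat.lt_succ_of_lt hi), rfl⟩, ?_⟩
      exact h2 n (Nat.lt_succ_self _)

theorem good_prec {X : Set ℕ} {f h : ℕ →. ℕ} (hf : Good X f) (hh : Good X h) :
    Good X (fun p =>
        let (a, n) := Nat.unpair p
        n.rec (f a) fun y IH => do
          let i ← IH
          h (Nat.pair a (Nat.pair y i))) := by
  obtain ⟨F, hF1, hF2, hF3⟩ := hf
  obtain ⟨H, hH1, hH2, hH3⟩ := hh
  refine ⟨fun s x y => ∃ l : List ℕ, F s x.unpair.1 (l.getD 0 0) ∧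
      (∀ i < x.unpair.2, H s (Nat.pair x.unpair.1 (Nat.pair i (l.getD i 0))) (l.getD (i + 1) 0)) ∧
      y = l.getD x.unpair.2 0, ?_, ?_, ?_⟩
  · refine RE.ex (α := List Bool × ℕ × ℕ) (β := List ℕ)
      (p := fun q l => F q.1 q.2.1.unpair.1 (l.getD 0 0) ∧
      (∀ i < q.2.1.unpair.2, H q.1 (Nat.pair q.2.1.unpair.1 (Nat.pair i (l.getD i 0)))
        (l.getD (i + 1) 0)) ∧ q.2.2 = l.getD q.2.1.unpair.2 0) ?_
    have u1 : Primrec (fun q : (List Bool × ℕ × ℕ) × List ℕ => q.1.2.1.unpair.1) :=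
      Primrec.fst.comp (Primrec.unpair.comp (Primrec.fst.comp (Primrec.snd.comp Primrec.fst)))
    have u2 : Primrec (fun q : (List Bool × ℕ × ℕ) × List ℕ => q.1.2.1.unpair.2) :=
      Primrec.snd.comp (Primrec.unpair.comp (Primrec.fst.comp (Primrec.snd.comp Primrec.fst)))
    have g0 : Primrec₂ (fun (l : List ℕ) (i : ℕ) => l.getD i 0) := Primrec.list_getD 0
    apply RE.and
    · exact RE.comp hF1 (f := fun q : (List Bool × ℕ × ℕ) × List ℕ =>
          (q.1.1, q.1.2.1.unpair.1, q.2.getD 0 0))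
        ((Primrec.fst.comp Primrec.fst).pair
          (u1.pair (g0.comp Primrec.snd (Primrec.const 0)))).to_comp
    · apply RE.and
      · refine RE.ball_lt (α := (List Bool × ℕ × ℕ) × List ℕ)
          (p := fun q i => H q.1.1 (Nat.pair q.1.2.1.unpair.1 (Nat.pair i (q.2.getD i 0)))
            (q.2.getD (i + 1) 0)) ?_ u2.to_comp
        exact RE.comp hH1 (f := fun r : ((List Bool × ℕ × ℕ) × List ℕ) × ℕ =>
            (r.1.1.1, Nat.pair r.1.1.2.1.unpair.1 (Nat.pair r.2 (r.1.2.getD r.2 0)),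
              r.1.2.getD (r.2 + 1) 0))
          ((Primrec.fst.comp (Primrec.fst.comp Primrec.fst)).pair
            ((Primrec₂.natPair.comp (u1.comp Primrec.fst)
              (Primrec₂.natPair.comp Primrec.snd
                (g0.comp (Primrec.snd.comp Primrec.fst) Primrec.snd))).pair
            (g0.comp (Primrec.snd.comp Primrec.fst) (Primrec.succ.comp Primrec.snd)))).to_comp
      · apply RE.of_prim
        exact PrimrecRel.comp (Primrec.eq (α := ℕ))
          (Primrec.snd.comp (Primrec.snd.comp Primrec.fst)) (g0.comp Primrec.snd u2)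
  · rintro s t x y hst ⟨l, h1, h2, h3⟩
    exact ⟨l, hF2 _ _ _ _ hst h1, fun i hi => hH2 _ _ _ _ hst (h2 i hi), h3⟩
  · intro x y
    have := prec_mem f h x.unpair.1 x.unpair.2 y
    refine this.trans ?_
    constructor
    · rintro ⟨l, h1, h2, h3⟩
      obtain ⟨m, hm⟩ := (hF3 _ _).1 h1
      obtain ⟨n, hn⟩ := bound (P := fun i n => H (strOf X n)
        (Nat.pair x.unpair.1 (Nat.pair i (l.getD i 0))) (l.getD (i + 1) 0))
        (fun i m n hmn hP => up hH2 hmn hP) x.unpair.2 (fun i hi => (hH3 _ _).1 (h2 i hi))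
      exact ⟨max m n, l, up hF2 (le_max_left _ _) hm,
        fun i hi => up hH2 (le_max_right _ _) (hn i hi), h3⟩
    · rintro ⟨n, l, h1, h2, h3⟩
      exact ⟨l, (hF3 _ _).2 ⟨n, h1⟩, fun i hi => (hH3 _ _).2 ⟨n, h2 i hi⟩, h3⟩

theorem good_rfind {X : Set ℕ} {f : ℕ →. ℕ} (hf : Good X f) :
    Good X (fun a => Nat.rfind fun n => (fun m => m = 0) <$> f (Nat.pair a n)) := by
  obtain ⟨F, hF1, hF2, hF3⟩ := hf
  refine ⟨fun s x y => F s (Nat.pair x y) 0 ∧ ∀ i < y, ∃ k, F s (Nat.pair x i) (k + 1), ?_, ?_, ?_⟩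
  · apply RE.and
    · exact RE.comp hF1 (f := fun q : List Bool × ℕ × ℕ => (q.1, Nat.pair q.2.1 q.2.2, 0))
        (Primrec.fst.pair ((Primrec₂.natPair.comp (Primrec.fst.comp Primrec.snd)
          (Primrec.snd.comp Primrec.snd)).pair (Primrec.const 0))).to_comp
    · refine RE.ball_lt (α := List Bool × ℕ × ℕ)
        (p := fun q i => ∃ k, F q.1 (Nat.pair q.2.1 i) (k + 1)) ?_
        (Primrec.snd.comp Primrec.snd).to_comp
      refine RE.ex (α := (List Bool × ℕ × ℕ) × ℕ) (β := ℕ)
        (p := fun q k => F q.1.1 (Nat.pair q.1.2.1 q.2) (k + 1)) ?_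
      exact RE.comp hF1 (f := fun r : ((List Bool × ℕ × ℕ) × ℕ) × ℕ =>
          (r.1.1.1, Nat.pair r.1.1.2.1 r.1.2, r.2 + 1))
        ((Primrec.fst.comp (Primrec.fst.comp Primrec.fst)).pair
          ((Primrec₂.natPair.comp
            (Primrec.fst.comp (Primrec.snd.comp (Primrec.fst.comp Primrec.fst)))
            (Primrec.snd.comp Primrec.fst)).pair (Primrec.succ.comp Primrec.snd))).to_comp
  · rintro s t x y hst ⟨h1, h2⟩
    refine ⟨hF2 _ _ _ _ hst h1, fun i hi => ?_⟩
    obtain ⟨k, hk⟩ := h2 i hi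
    exact ⟨k, hF2 _ _ _ _ hst hk⟩
  · intro x y
    rw [Nat.mem_rfind]
    have e1 : true ∈ ((fun m => decide (m = 0)) <$> f (Nat.pair x y) : Part Bool) ↔
        0 ∈ f (Nat.pair x y) := by
      simp [Part.map_eq_map, Part.mem_map_iff]
    have e2 : ∀ i, false ∈ ((fun m => decide (m = 0)) <$> f (Nat.pair x i) : Part Bool) ↔
        ∃ k, k + 1 ∈ f (Nat.pair x i) := by
      intro i
      simp only [Part.map_eq_map, Part.mem_map_iff, decide_eq_false_iff_not]
      constructor
      · rintro ⟨a, ha, hne⟩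
        obtain ⟨k, rfl⟩ := Nat.exists_eq_succ_of_ne_zero hne
        exact ⟨k, ha⟩
      · rintro ⟨k, hk⟩
        exact ⟨k + 1, hk, by simp⟩
    constructor
    · rintro ⟨h1, h2⟩
      obtain ⟨m, hm⟩ := (hF3 _ _).1 (e1.1 h1)
      obtain ⟨n, hn⟩ := bound (P := fun i n => ∃ k, F (strOf X n) (Nat.pair x i) (k + 1))
        (fun i m n hmn hP => by
          obtain ⟨k, hk⟩ := hP
          exact ⟨k, up hF2 hmn hk⟩) y (fun i hi => by
          obtain ⟨k, hk⟩ := (e2 i).1 (h2 hi)
          obtain ⟨n, hn⟩ := (hF3 _ _).1 hk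
          exact ⟨n, k, hn⟩)
      refine ⟨max m n, up hF2 (le_max_left _ _) hm, fun i hi => ?_⟩
      obtain ⟨k, hk⟩ := hn i hi
      exact ⟨k, up hF2 (le_max_right _ _) hk⟩
    · rintro ⟨n, h1, h2⟩
      refine ⟨e1.2 ((hF3 _ _).2 ⟨n, h1⟩), fun {i} hi => (e2 i).2 ?_⟩
      obtain ⟨k, hk⟩ := h2 i hi
      exact ⟨k, (hF3 _ _).2 ⟨n, hk⟩⟩

theorem good_of_recursiveIn {X : Set ℕ} {g : ℕ →. ℕ} (hg : Nat.RecursiveIn {chi X} g) :
    Good X g := by
  induction hg with
  | zero => exact good_prim X (Primrec.const 0)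
  | succ => exact good_prim X Primrec.succ
  | left => exact good_prim X (Primrec.fst.comp Primrec.unpair)
  | right => exact good_prim X (Primrec.snd.comp Primrec.unpair)
  | oracle g hg =>
    rw [Set.mem_singleton_iff.1 hg]
    exact good_oracle X
  | pair _ _ ih1 ih2 => exact good_pair ih1 ih2
  | comp _ _ ih1 ih2 => exact good_comp ih1 ih2
  | prec _ _ ih1 ih2 => exact good_prec ih1 ih2
  | rfind _ ih => exact good_rfind ih

end Bridge

/-- the use principle -/
theorem use_principle (X : Set ℕ) (f : ℕ → ℕ) (hf : FunLe f X) :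
    ∃ W : List Bool × ℕ × ℕ → Prop, REPred W ∧
      ∀ x y, f x = y ↔ ∃ n, W (strOf X n, x, y) := by
  obtain ⟨W, h1, _, h3⟩ := Bridge.good_of_recursiveIn (RecursiveIn.iff_nat.1 hf)
  refine ⟨fun q => W q.1 q.2.1 q.2.2, h1, fun x y => ?_⟩
  rw [← h3]
  simp [eq_comm]

namespace Bridge

/-- one step of the computation of the characteristic strings, on codes -/
def stepFn (p : ℕ) : ℕ :=
  encode (((decode (α := List Bool) p.unpair.1).getD []) ++ [p.unpair.2 == 1])

theorem stepFn_prim : Primrec stepFn := by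
  unfold stepFn
  apply Primrec.encode.comp
  apply Primrec.list_append.comp
  · exact Primrec.option_getD.comp (Primrec.decode.comp (Primrec.fst.comp Primrec.unpair))
      (Primrec.const [])
  · have h1 : Primrec (fun p : ℕ => (p.unpair.2 == 1)) :=
      Primrec.beq.comp (Primrec.snd.comp Primrec.unpair) (Primrec.const 1)
    exact Primrec.list_cons.comp h1 (Primrec.const [])

theorem strOf_recursiveIn (X : Set ℕ) :
    Nat.RecursiveIn {chi X} (fun n => Part.some (encode (strOf X n))) := by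
  have hz : Nat.RecursiveIn {chi X} (fun _ => Part.some (encode (strOf X 0))) :=
    RecursiveIn.iff_nat.1 (Primrec.const (encode (strOf X 0))).to_comp.partrec.recursiveIn
  have hst : Nat.RecursiveIn {chi X} (fun p => Part.some (stepFn p)) :=
    RecursiveIn.iff_nat.1 stepFn_prim.to_comp.partrec.recursiveIn
  have ho : Nat.RecursiveIn {chi X} (chi X) := .oracle _ rfl
  have hy : Nat.RecursiveIn {chi X} (fun p => Part.some p.unpair.2.unpair.1) :=
    RecursiveIn.iff_nat.1 (Primrec.fst.comp (Primrec.unpair.comp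
      (Primrec.snd.comp Primrec.unpair))).to_comp.partrec.recursiveIn
  have hi : Nat.RecursiveIn {chi X} (fun p => Part.some p.unpair.2.unpair.2) :=
    RecursiveIn.iff_nat.1 (Primrec.snd.comp (Primrec.unpair.comp
      (Primrec.snd.comp Primrec.unpair))).to_comp.partrec.recursiveIn
  obtain ⟨c, hc1, hc2⟩ : ∃ c : ℕ → ℕ, (∀ y, chi X y = Part.some (c y)) ∧
      ∀ y, (c y == 1) = @decide (y ∈ X) (Classical.propDecidable _) := by
    refine ⟨fun y => @ite ℕ (y ∈ X) (Classical.propDecidable _) 1 0, fun y => rfl, fun y => ?_⟩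
    by_cases hy : y ∈ X
    · simp [hy]
    · simp [hy]
  have hoy : Nat.RecursiveIn {chi X} (fun p => Part.some (c p.unpair.2.unpair.1)) :=
    (Nat.RecursiveIn.comp ho hy).of_eq (fun p => (Part.bind_some _ _).trans (hc1 _))
  have hpr : Nat.RecursiveIn {chi X} (fun p => Part.some (Nat.pair p.unpair.2.unpair.2
      (c p.unpair.2.unpair.1))) :=
    (Nat.RecursiveIn.pair hi hoy).of_eq (fun p => by
      simp [Seq.seq])
  have hc : Nat.RecursiveIn {chi X} (fun p => Part.some (stepFn (Nat.pair p.unpair.2.unpair.2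
      (c p.unpair.2.unpair.1)))) :=
    (Nat.RecursiveIn.comp hst hpr).of_eq (fun p => Part.bind_some _ _)
  have hp := Nat.RecursiveIn.prec hz hc
  have h0 : Nat.RecursiveIn {chi X} (fun n => Part.some (Nat.pair 0 n)) :=
    RecursiveIn.iff_nat.1 (Primrec₂.natPair.comp (Primrec.const 0)
      Primrec.id).to_comp.partrec.recursiveIn
  refine (Nat.RecursiveIn.comp hp h0).of_eq ?_
  intro n
  simp only [Part.bind_eq_bind, Part.bind_some, Nat.unpair_pair]
  induction n with
  | zero => rfl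
  | succ n ih =>
    simp only [ih]
    simp only [Part.bind_some]
    congr 1
    unfold stepFn
    rw [strOf_succ]
    simp only [Nat.unpair_pair, encodek, Option.getD_some, hc2]

end Bridge

/-- a function with a relatively recursively enumerable graph is computable in the oracle -/
theorem funLe_of_re (X : Set ℕ) (f : ℕ → ℕ) (W : List Bool × ℕ × ℕ → Prop) (hW : REPred W)
    (h : ∀ x y, f x = y ↔ ∃ n, W (strOf X n, x, y)) : FunLe f X := by
  obtain ⟨V, hV, hVW⟩ := RE.normal hW
  -- the test, on q = pair (pair x v) s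
  set T : ℕ → ℕ := fun q =>
    if V (q.unpair.1.unpair.2.unpair.1, (decode (α := List Bool) q.unpair.2).getD [],
      q.unpair.1.unpair.1, q.unpair.1.unpair.2.unpair.2.unpair.2) = true then 0 else 1 with hT
  have hTp : Primrec T := by
    have p1 : Primrec (fun q : ℕ => q.unpair.1) := Primrec.fst.comp Primrec.unpair
    have p2 : Primrec (fun q : ℕ => q.unpair.2) := Primrec.snd.comp Primrec.unpair
    have q1 : Primrec (fun q : ℕ => q.unpair.1.unpair.1) := p1.comp p1
    have q2 : Primrec (fun q : ℕ => q.unpair.1.unpair.2) := p2.comp p1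
    apply Primrec.ite
    · apply PrimrecRel.comp (Primrec.eq (α := Bool)) _ (Primrec.const true)
      apply hV.comp
      exact (p1.comp q2).pair ((Primrec.option_getD.comp (Primrec.decode.comp p2)
        (Primrec.const [])).pair (q1.pair (p2.comp (p2.comp q2))))
    · exact Primrec.const 0
    · exact Primrec.const 1
  have hTr : Nat.RecursiveIn {chi X} (fun p => Part.some (T p)) :=
    RecursiveIn.iff_nat.1 hTp.to_comp.partrec.recursiveIn
  have hid : Nat.RecursiveIn {chi X} (fun p => Part.some p) :=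
    RecursiveIn.iff_nat.1 (Primrec.id (α := ℕ)).to_comp.partrec.recursiveIn
  have hn : Nat.RecursiveIn {chi X} (fun p => Part.some p.unpair.2.unpair.2.unpair.1) :=
    RecursiveIn.iff_nat.1 (Primrec.fst.comp (Primrec.unpair.comp (Primrec.snd.comp
      (Primrec.unpair.comp (Primrec.snd.comp Primrec.unpair))))).to_comp.partrec.recursiveIn
  have hg := Nat.RecursiveIn.comp hTr (Nat.RecursiveIn.pair hid
    (Nat.RecursiveIn.comp (Bridge.strOf_recursiveIn X) hn))
  have hr := Nat.RecursiveIn.rfind hg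
  have hout : Nat.RecursiveIn {chi X} (fun v => Part.some v.unpair.2.unpair.2) :=
    RecursiveIn.iff_nat.1 (Primrec.snd.comp (Primrec.unpair.comp (Primrec.snd.comp
      Primrec.unpair))).to_comp.partrec.recursiveIn
  have hfin := Nat.RecursiveIn.comp hout hr
  refine RecursiveIn.iff_nat.2 (hfin.of_eq_tot ?_)
  intro x
  -- simplify
  have key : ∀ v : ℕ, ((Nat.pair <$> (Part.some (Nat.pair x v)) <*>
      ((Part.some (Nat.pair x v).unpair.2.unpair.2.unpair.1 : Part ℕ) >>=
        fun n => Part.some (encode (strOf X n)))) >>= fun p => Part.some (T p)) =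
      Part.some (if V (v.unpair.1, strOf X v.unpair.2.unpair.1, x, v.unpair.2.unpair.2) = true
        then 0 else 1) := by
    intro v
    simp only [Part.bind_eq_bind, Part.bind_some, Seq.seq, Part.map_eq_map, Part.map_some, hT,
      Nat.unpair_pair, encodek, Option.getD_some]
  simp only [key]
  simp only [Part.bind_eq_bind, Part.mem_bind_iff, Part.map_eq_map, Part.map_some, Part.mem_some_iff]
  obtain ⟨n, hn⟩ := (h x (f x)).1 rfl
  obtain ⟨w, hw⟩ := (hVW _).1 hn
  have hdom : (Nat.rfind (fun v => Part.some (decide ((if V (v.unpair.1,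
      strOf X v.unpair.2.unpair.1, x, v.unpair.2.unpair.2) = true then 0 else 1) = 0)))).Dom := by
    apply Nat.rfind_dom.2
    refine ⟨Nat.pair w (Nat.pair n (f x)), ?_, fun _ => trivial⟩
    simp [hw]
  obtain ⟨v, hv⟩ := Part.dom_iff_mem.1 hdom
  refine ⟨v, hv, ?_⟩
  have hs := Nat.rfind_spec hv
  have hs' : V (v.unpair.1, strOf X v.unpair.2.unpair.1, x, v.unpair.2.unpair.2) = true := by
    by_contra hc
    simp [hc] at hs
  exact (h x _).2 ⟨_, (hVW _).2 ⟨_, hs'⟩⟩

end Pool.Agent.Lib.MP95a9c1
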