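import Mathlib

/-!
Definitions for degrees of categoricity and degrees of decidable categoricity.

Structures have universe `ℕ` and live in a computable language whose symbols are numbers.
Formulas are first-order formulas with variables `v_0, v_1, ...` in unnested form: the atomic
formulas are `v_i = v_j`, `R_k(v_{i_1}, ..., v_{i_n})` and `F_k(v_{i_1}, ..., v_{i_n}) = v_w`.
-/

namespace Pool.Agent.Lib.MP95a9c1

/-- A computable language: `fn k = some n` says that `k` is a function symbol of arity `n`
(a constant if `n = 0`), `fn k = none` that there is no function symbol `k`; likewise `rel`. -/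
structure CLang where
  fn : ℕ → Option ℕ
  rel : ℕ → Option ℕ
  fn_comp : Computable fn
  rel_comp : Computable rel

/-- A structure with universe `ℕ`: interpretations of the function and relation symbols.
Only the values at symbols of the language and lists of the right length matter. -/
structure Str where
  F : ℕ → List ℕ → ℕ
  R : ℕ → List ℕ → Prop

/-- First-order formulas (unnested). -/
inductive Fm
  | eq (i j : ℕ)
  | rel (k : ℕ) (vs : List ℕ)
  | fn (k : ℕ) (vs : List ℕ) (w : ℕ)
  | neg (φ : Fm)
  | and (φ ψ : Fm)
  | ex (i : ℕ) (φ : Fm)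

/-- Goedel numbers. -/
def Fm.code : Fm → ℕ
  | .eq i j => 6 * Nat.pair i j
  | .rel k vs => 6 * Nat.pair k (Encodable.encode vs) + 1
  | .fn k vs w => 6 * Nat.pair k (Nat.pair w (Encodable.encode vs)) + 2
  | .neg φ => 6 * φ.code + 3
  | .and φ ψ => 6 * Nat.pair φ.code ψ.code + 4
  | .ex i φ => 6 * Nat.pair i φ.code + 5

/-- Truth of a formula in a structure under an assignment of the variables. An atomic formula
whose symbol is not in the language, or is applied to the wrong number of variables, is false. -/
def Sat (L : CLang) (S : Str) : Fm → (ℕ → ℕ) → Prop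
  | .eq i j, v => v i = v j
  | .rel k vs, v => L.rel k = some vs.length ∧ S.R k (vs.map v)
  | .fn k vs w, v => L.fn k = some vs.length ∧ S.F k (vs.map v) = v w
  | .neg φ, v => ¬ Sat L S φ v
  | .and φ ψ, v => Sat L S φ v ∧ Sat L S ψ v
  | .ex i φ, v => ∃ a, Sat L S φ (Function.update v i a)

/-- `f` is an isomorphism from `A` to `B`. -/
def IsIso (L : CLang) (A B : Str) (f : ℕ → ℕ) : Prop :=
  Function.Bijective f ∧
  (∀ k l, L.fn k = some (List.length l) → f (A.F k l) = B.F k (l.map f)) ∧
  (∀ k l, L.rel k = some (List.length l) → (A.R k l ↔ B.R k (l.map f)))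

/-- `S` is a computable structure: its atomic diagram is computable. -/
def CompStr (L : CLang) (S : Str) : Prop :=
  (∃ f : ℕ × List ℕ → ℕ, Computable f ∧
    ∀ k l, L.fn k = some (List.length l) → f (k, l) = S.F k l) ∧
  (∃ r : ℕ × List ℕ → Bool, Computable r ∧
    ∀ k l, L.rel k = some (List.length l) → (r (k, l) = true ↔ S.R k l))

/-- `S` is a decidable structure: its complete diagram is computable. -/
def DecStr (L : CLang) (S : Str) : Prop :=
  ∃ T : ℕ × List ℕ → Bool, Computable T ∧
    ∀ (φ : Fm) (l : List ℕ), T (φ.code, l) = true ↔ Sat L S φ (fun i => l.getD i 0)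

open Classical in
/-- The characteristic function of a set, as a partial function. -/
noncomputable def chi (X : Set ℕ) : ℕ →. ℕ := fun n => Part.some (if n ∈ X then 1 else 0)

/-- The function `f` is computable from the oracle `X`. -/
def FunLe (f : ℕ → ℕ) (X : Set ℕ) : Prop := TuringReducible (fun n => Part.some (f n)) (chi X)

/-- `X`-computable categoricity. -/
def CatIn (L : CLang) (S : Str) (X : Set ℕ) : Prop :=
  ∀ A : Str, CompStr L A → (∃ f, IsIso L A S f) → ∃ f, IsIso L A S f ∧ FunLe f X

/-- Decidable `X`-categoricity. -/
def DecCatIn (L : CLang) (S : Str) (X : Set ℕ) : Prop :=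
  ∀ A : Str, DecStr L A → (∃ f, IsIso L A S f) → ∃ f, IsIso L A S f ∧ FunLe f X

/-- The Turing degree of `D` is a degree of categoricity. -/
def DegCat (D : Set ℕ) : Prop :=
  ∃ (L : CLang) (S : Str), CompStr L S ∧ CatIn L S D ∧
    ∀ X : Set ℕ, CatIn L S X → TuringReducible (chi D) (chi X)

/-- The Turing degree of `D` is a degree of decidable categoricity. -/
def DegDecCat (D : Set ℕ) : Prop :=
  ∃ (L : CLang) (S : Str), DecStr L S ∧ DecCatIn L S D ∧
    ∀ X : Set ℕ, DecCatIn L S X → TuringReducible (chi D) (chi X)

open Classical in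
/-- The characteristic string of `X` of length `n`. -/
noncomputable def strOf (X : Set ℕ) (n : ℕ) : List Bool :=
  (List.range n).map (fun i => decide (i ∈ X))

/-- The assignment given by a tuple placed at the variables `v_M, v_{M+1}, ...`; all other
variables get the first entry. -/
def asg (M : ℕ) (x : List ℕ) : ℕ → ℕ := fun i => x.getD (i - M) (x.getD 0 0)

end Pool.Agent.Lib.MP95a9c1
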