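import Mathlib
import Pool.Agent.Lib.MP_95a9c1_lc.Defs

/-!
Goedel numbers: every number is the code of exactly one formula; truth at the level of codes.
-/

namespace Pool.Agent.Lib.MP95a9c1

theorem code_inj : Function.Injective Fm.code := by
  intro φ
  induction φ with
  | eq i j =>
    intro ψ h
    cases ψ with
    | eq i' j' =>
      simp only [Fm.code] at h
      have h1 : Nat.pair i j = Nat.pair i' j' := by omega
      rw [Nat.pair_eq_pair] at h1
      rw [h1.1, h1.2]
    | rel k vs => simp only [Fm.code] at h; omega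
    | fn k vs w => simp only [Fm.code] at h; omega
    | neg φ => simp only [Fm.code] at h; omega
    | and φ ψ => simp only [Fm.code] at h; omega
    | ex i φ => simp only [Fm.code] at h; omega
  | rel k vs =>
    intro ψ h
    cases ψ with
    | eq i' j' => simp only [Fm.code] at h; omega
    | rel k' vs' =>
      simp only [Fm.code] at h
      have h1 : Nat.pair k (Encodable.encode vs) = Nat.pair k' (Encodable.encode vs') := by omega
      rw [Nat.pair_eq_pair] at h1
      rw [h1.1, Encodable.encode_injective h1.2]
    | fn k vs w => simp only [Fm.code] at h; omega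
    | neg φ => simp only [Fm.code] at h; omega
    | and φ ψ => simp only [Fm.code] at h; omega
    | ex i φ => simp only [Fm.code] at h; omega
  | fn k vs w =>
    intro ψ h
    cases ψ with
    | eq i' j' => simp only [Fm.code] at h; omega
    | rel k vs => simp only [Fm.code] at h; omega
    | fn k' vs' w' =>
      simp only [Fm.code] at h
      have h1 : Nat.pair k (Nat.pair w (Encodable.encode vs)) =
        Nat.pair k' (Nat.pair w' (Encodable.encode vs')) := by omega
      rw [Nat.pair_eq_pair, Nat.pair_eq_pair] at h1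
      rw [h1.1, h1.2.1, Encodable.encode_injective h1.2.2]
    | neg φ => simp only [Fm.code] at h; omega
    | and φ ψ => simp only [Fm.code] at h; omega
    | ex i φ => simp only [Fm.code] at h; omega
  | neg φ ih =>
    intro ψ h
    cases ψ with
    | eq i' j' => simp only [Fm.code] at h; omega
    | rel k vs => simp only [Fm.code] at h; omega
    | fn k vs w => simp only [Fm.code] at h; omega
    | neg φ' =>
      simp only [Fm.code] at h
      rw [ih (show φ.code = φ'.code by omega)]
    | and φ ψ => simp only [Fm.code] at h; omega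
    | ex i φ => simp only [Fm.code] at h; omega
  | and φ ψ ih1 ih2 =>
    intro χ h
    cases χ with
    | eq i' j' => simp only [Fm.code] at h; omega
    | rel k vs => simp only [Fm.code] at h; omega
    | fn k vs w => simp only [Fm.code] at h; omega
    | neg φ => simp only [Fm.code] at h; omega
    | and φ' ψ' =>
      simp only [Fm.code] at h
      have h1 : Nat.pair φ.code ψ.code = Nat.pair φ'.code ψ'.code := by omega
      rw [Nat.pair_eq_pair] at h1
      rw [ih1 h1.1, ih2 h1.2]
    | ex i φ => simp only [Fm.code] at h; omega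
  | ex i φ ih =>
    intro χ h
    cases χ with
    | eq i' j' => simp only [Fm.code] at h; omega
    | rel k vs => simp only [Fm.code] at h; omega
    | fn k vs w => simp only [Fm.code] at h; omega
    | neg φ => simp only [Fm.code] at h; omega
    | and φ' ψ' => simp only [Fm.code] at h; omega
    | ex i' φ' =>
      simp only [Fm.code] at h
      have h1 : Nat.pair i φ.code = Nat.pair i' φ'.code := by omega
      rw [Nat.pair_eq_pair] at h1
      rw [h1.1, ih h1.2]

theorem code_surj : Function.Surjective Fm.code := by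
  intro m
  induction m using Nat.strong_induction_on with
  | _ m ih =>
    obtain ⟨a, r, hr, hm⟩ : ∃ a r, r < 6 ∧ m = 6 * a + r :=
      ⟨m / 6, m % 6, Nat.mod_lt _ (by norm_num), by omega⟩
    have h1 := Nat.pair_unpair a
    have ha1 := Nat.unpair_left_le a
    have ha2 := Nat.unpair_right_le a
    rcases (by omega : r = 0 ∨ r = 1 ∨ r = 2 ∨ r = 3 ∨ r = 4 ∨ r = 5) with
      h | h | h | h | h | h
    · exact ⟨.eq (Nat.unpair a).1 (Nat.unpair a).2, by simp only [Fm.code, h1]; omega⟩
    · refine ⟨.rel (Nat.unpair a).1 (Denumerable.ofNat (List ℕ) (Nat.unpair a).2), ?_⟩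
      simp only [Fm.code, Denumerable.encode_ofNat, h1]
      omega
    · refine ⟨.fn (Nat.unpair a).1 (Denumerable.ofNat (List ℕ) (Nat.unpair (Nat.unpair a).2).2)
        (Nat.unpair (Nat.unpair a).2).1, ?_⟩
      simp only [Fm.code, Denumerable.encode_ofNat, Nat.pair_unpair]
      omega
    · obtain ⟨φ, hφ⟩ := ih a (by omega)
      exact ⟨.neg φ, by simp only [Fm.code, hφ]; omega⟩
    · obtain ⟨φ, hφ⟩ := ih (Nat.unpair a).1 (by omega)
      obtain ⟨ψ, hψ⟩ := ih (Nat.unpair a).2 (by omega)
      exact ⟨.and φ ψ, by simp only [Fm.code, hφ, hψ, h1]; omega⟩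
    · obtain ⟨φ, hφ⟩ := ih (Nat.unpair a).2 (by omega)
      exact ⟨.ex (Nat.unpair a).1 φ, by simp only [Fm.code, hφ, h1]; omega⟩

/-- the formula with a given code -/
noncomputable def ofCode (m : ℕ) : Fm := (code_surj m).choose

theorem code_ofCode (m : ℕ) : (ofCode m).code = m := (code_surj m).choose_spec

theorem ofCode_code (φ : Fm) : ofCode φ.code = φ := code_inj (code_ofCode _)

/-- truth at the level of codes -/
def Tr (L : CLang) (S : Str) (m : ℕ) (v : ℕ → ℕ) : Prop := Sat L S (ofCode m) v

variable {L : CLang} {S : Str}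

theorem Tr_code (φ : Fm) (v : ℕ → ℕ) : Tr L S φ.code v ↔ Sat L S φ v := by
  unfold Tr; rw [ofCode_code]

/-- codes -/
def cEq (i j : ℕ) : ℕ := 6 * Nat.pair i j
def cNeg (m : ℕ) : ℕ := 6 * m + 3
def cAnd (a b : ℕ) : ℕ := 6 * Nat.pair a b + 4
def cEx (i a : ℕ) : ℕ := 6 * Nat.pair i a + 5

theorem Tr_eq (i j : ℕ) (v : ℕ → ℕ) : Tr L S (cEq i j) v ↔ v i = v j := by
  have : cEq i j = (Fm.eq i j).code := rfl
  rw [this, Tr_code]; rfl

theorem Tr_neg (m : ℕ) (v : ℕ → ℕ) : Tr L S (cNeg m) v ↔ ¬ Tr L S m v := by
  have : cNeg m = (Fm.neg (ofCode m)).code := by simp only [Fm.code, code_ofCode, cNeg]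
  rw [this, Tr_code]; rfl

theorem Tr_and (a b : ℕ) (v : ℕ → ℕ) : Tr L S (cAnd a b) v ↔ Tr L S a v ∧ Tr L S b v := by
  have : cAnd a b = (Fm.and (ofCode a) (ofCode b)).code := by
    simp only [Fm.code, code_ofCode, cAnd]
  rw [this, Tr_code]; rfl

theorem Tr_ex (i a : ℕ) (v : ℕ → ℕ) :
    Tr L S (cEx i a) v ↔ ∃ x, Tr L S a (Function.update v i x) := by
  have : cEx i a = (Fm.ex i (ofCode a)).code := by
    simp only [Fm.code, code_ofCode, cEx]
  rw [this, Tr_code]; rfl

theorem mem_le_encode {x : ℕ} {l : List ℕ} (h : x ∈ l) : x ≤ Encodable.encode l := by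
  induction l with
  | nil => exact absurd h List.not_mem_nil
  | cons a l ih =>
    rw [Encodable.encode_list_cons]
    have h1 := Nat.left_le_pair (Encodable.encode a) (Encodable.encode l)
    have h2 := Nat.right_le_pair (Encodable.encode a) (Encodable.encode l)
    simp only [Encodable.encode_nat] at h1 h2 ⊢
    rcases List.mem_cons.1 h with rfl | h
    · omega
    · have := ih h
      omega

theorem Sat_congr (φ : Fm) : ∀ (v v' : ℕ → ℕ), (∀ i ≤ φ.code, v i = v' i) →
    (Sat L S φ v ↔ Sat L S φ v') := by
  induction φ with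
  | eq i j =>
    intro v v' h
    simp only [Fm.code] at h
    have h1 := Nat.left_le_pair i j
    have h2 := Nat.right_le_pair i j
    simp only [Sat]
    rw [h i (by omega), h j (by omega)]
  | rel k vs =>
    intro v v' h
    simp only [Fm.code] at h
    have h2 := Nat.right_le_pair k (Encodable.encode vs)
    simp only [Sat]
    have : vs.map v = vs.map v' := by
      apply List.map_congr_left
      intro x hx
      have := mem_le_encode hx
      exact h x (by omega)
    rw [this]
  | fn k vs w =>
    intro v v' h
    simp only [Fm.code] at h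
    have h2 := Nat.right_le_pair k (Nat.pair w (Encodable.encode vs))
    have h3 := Nat.right_le_pair w (Encodable.encode vs)
    have h4 := Nat.left_le_pair w (Encodable.encode vs)
    simp only [Sat]
    have : vs.map v = vs.map v' := by
      apply List.map_congr_left
      intro x hx
      have := mem_le_encode hx
      exact h x (by omega)
    rw [this, h w (by omega)]
  | neg φ ih =>
    intro v v' h
    simp only [Fm.code] at h
    simp only [Sat]
    rw [ih v v' (fun i hi => h i (by omega))]
  | and φ ψ ih1 ih2 =>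
    intro v v' h
    simp only [Fm.code] at h
    have h1 := Nat.left_le_pair φ.code ψ.code
    have h2 := Nat.right_le_pair φ.code ψ.code
    simp only [Sat]
    rw [ih1 v v' (fun i hi => h i (by omega)), ih2 v v' (fun i hi => h i (by omega))]
  | ex i φ ih =>
    intro v v' h
    simp only [Fm.code] at h
    have h2 := Nat.right_le_pair i φ.code
    simp only [Sat]
    apply exists_congr
    intro a
    apply ih
    intro j hj
    by_cases hji : j = i
    · subst hji; simp
    · rw [Function.update_of_ne hji, Function.update_of_ne hji]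
      exact h j (by omega)

theorem Tr_congr (m : ℕ) (v v' : ℕ → ℕ) (h : ∀ i ≤ m, v i = v' i) :
    Tr L S m v ↔ Tr L S m v' :=
  Sat_congr _ _ _ (by rw [code_ofCode]; exact h)

theorem Sat_iso {A B : Str} {f : ℕ → ℕ} (hf : IsIso L A B f) (φ : Fm) :
    ∀ v : ℕ → ℕ, Sat L A φ v ↔ Sat L B φ (f ∘ v) := by
  obtain ⟨hb, hF, hR⟩ := hf
  induction φ with
  | eq i j =>
    intro v
    simp only [Sat, Function.comp]
    exact hb.1.eq_iff.symm
  | rel k vs =>
    intro v
    simp only [Sat]
    constructor
    · rintro ⟨h1, h2⟩
      refine ⟨h1, ?_⟩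
      have := (hR k (vs.map v) (by simpa using h1)).1 h2
      simpa [List.map_map] using this
    · rintro ⟨h1, h2⟩
      refine ⟨h1, ?_⟩
      apply (hR k (vs.map v) (by simpa using h1)).2
      simpa [List.map_map] using h2
  | fn k vs w =>
    intro v
    simp only [Sat]
    constructor
    · rintro ⟨h1, h2⟩
      refine ⟨h1, ?_⟩
      have := hF k (vs.map v) (by simpa using h1)
      rw [h2, List.map_map] at this
      exact this.symm
    · rintro ⟨h1, h2⟩
      refine ⟨h1, ?_⟩
      have := hF k (vs.map v) (by simpa using h1)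
      rw [List.map_map, h2] at this
      exact hb.1 this
  | neg φ ih =>
    intro v
    simp only [Sat]
    rw [ih]
  | and φ ψ ih1 ih2 =>
    intro v
    simp only [Sat]
    rw [ih1, ih2]
  | ex i φ ih =>
    intro v
    simp only [Sat]
    constructor
    · rintro ⟨a, ha⟩
      refine ⟨f a, ?_⟩
      rw [ih, Function.comp_update] at ha
      exact ha
    · rintro ⟨b, hb'⟩
      obtain ⟨a, rfl⟩ := hb.2 b
      refine ⟨a, ?_⟩
      rw [ih, Function.comp_update]
      exact hb'

theorem Tr_iso {A B : Str} {f : ℕ → ℕ} (hf : IsIso L A B f) (m : ℕ) (v : ℕ → ℕ) :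
    Tr L A m v ↔ Tr L B m (f ∘ v) := Sat_iso hf _ v

/-- a bijection that preserves truth is an isomorphism -/
theorem iso_of_Tr {A B : Str} {f : ℕ → ℕ} (hb : Function.Bijective f)
    (h : ∀ m v, Tr L A m v ↔ Tr L B m (f ∘ v)) : IsIso L A B f := by
  refine ⟨hb, ?_, ?_⟩
  · intro k l hl
    have h1 := h (Fm.fn k (List.range l.length) l.length).code
      (fun i => if i < l.length then l.getD i 0 else A.F k l)
    rw [Tr_code, Tr_code] at h1
    simp only [Sat, List.length_range] at h1
    have h2 : (List.range l.length).map (fun i => if i < l.length then l.getD i 0 else A.F k l)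
        = l := by
      apply List.ext_getElem
      · simp
      · intro i hi hi'
        simp only [List.getElem_map, List.getElem_range]
        rw [if_pos hi', List.getD_eq_getElem _ _ hi']
    have h3 : (List.range l.length).map
        (f ∘ fun i => if i < l.length then l.getD i 0 else A.F k l) = l.map f := by
      rw [← List.map_map, h2]
    rw [h2, h3] at h1
    have h4 := h1.1 ⟨hl, by simp⟩
    have h5 := h4.2
    simp only [Function.comp, lt_self_iff_false, if_false] at h5
    exact h5.symm
  · intro k l hl
    have h1 := h (Fm.rel k (List.range l.length)).code (fun i => l.getD i 0)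
    rw [Tr_code, Tr_code] at h1
    simp only [Sat, List.length_range] at h1
    have h2 : (List.range l.length).map (fun i => l.getD i 0) = l := by
      apply List.ext_getElem
      · simp
      · intro i hi hi'
        simp only [List.getElem_map, List.getElem_range]
        rw [List.getD_eq_getElem _ _ hi']
    have h3 : (List.range l.length).map (f ∘ fun i => l.getD i 0) = l.map f := by
      rw [← List.map_map, h2]
    rw [h2, h3] at h1
    constructor
    · intro h; exact (h1.1 ⟨hl, h⟩).2
    · intro h; exact (h1.2 ⟨hl, h⟩).2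

/-- the pulled back structure -/
noncomputable def pull (s : Equiv.Perm ℕ) (S : Str) : Str where
  F k l := s.symm (S.F k (l.map s))
  R k l := S.R k (l.map s)

theorem pull_iso (s : Equiv.Perm ℕ) (S : Str) : IsIso L (pull s S) S s := by
  refine ⟨s.bijective, ?_, ?_⟩
  · intro k l _
    simp [pull]
  · intro k l _
    rfl

theorem IsIso.symm {A B : Str} {f g : ℕ → ℕ} (hf : IsIso L A B f) (hg : ∀ x, g (f x) = x) :
    IsIso L B A g := by
  have hfg : ∀ x, f (g x) = x := by
    intro x
    obtain ⟨y, rfl⟩ := hf.1.2 x
    rw [hg]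
  refine iso_of_Tr ⟨fun x y h => by rw [← hfg x, ← hfg y, h], fun x => ⟨f x, hg x⟩⟩ ?_
  intro m v
  rw [Tr_iso hf m (g ∘ v)]
  have : f ∘ (g ∘ v) = v := by funext i; simp [hfg]
  rw [this]

theorem IsIso.trans {A B C : Str} {f g : ℕ → ℕ} (hf : IsIso L A B f) (hg : IsIso L B C g) :
    IsIso L A C (g ∘ f) := by
  refine iso_of_Tr (hg.1.comp hf.1) ?_
  intro m v
  rw [Tr_iso hf, Tr_iso hg]
  rfl

/-! ### Iterated connectives -/

/-- iterated existential quantifier -/
def exL (vs : List ℕ) (m : ℕ) : ℕ := vs.foldr cEx m

/-- iterated conjunction -/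
def andL (ms : List ℕ) : ℕ := ms.foldr cAnd (cEq 0 0)

theorem Tr_andL (ms : List ℕ) (v : ℕ → ℕ) : Tr L S (andL ms) v ↔ ∀ m ∈ ms, Tr L S m v := by
  induction ms with
  | nil => simp [andL, Tr_eq]
  | cons a ms ih =>
    have : andL (a :: ms) = cAnd a (andL ms) := rfl
    rw [this, Tr_and, ih]
    simp

theorem Tr_exL (vs : List ℕ) (m : ℕ) (v : ℕ → ℕ) :
    Tr L S (exL vs m) v ↔ ∃ v' : ℕ → ℕ, (∀ i, i ∉ vs → v' i = v i) ∧ Tr L S m v' := by
  induction vs generalizing v with
  | nil =>
    constructor
    · intro h; exact ⟨v, fun _ _ => rfl, h⟩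
    · rintro ⟨v', h1, h2⟩
      have : v' = v := funext fun i => h1 i (by simp)
      rw [← this]; exact h2
  | cons a vs ih =>
    have : exL (a :: vs) m = cEx a (exL vs m) := rfl
    rw [this, Tr_ex]
    constructor
    · rintro ⟨x, hx⟩
      obtain ⟨v', h1, h2⟩ := (ih _).1 hx
      refine ⟨v', ?_, h2⟩
      intro i hi
      rw [List.mem_cons, not_or] at hi
      rw [h1 i hi.2, Function.update_of_ne hi.1]
    · rintro ⟨v', h1, h2⟩
      refine ⟨v' a, (ih _).2 ⟨v', ?_, h2⟩⟩
      intro i hi
      by_cases hia : i = a
      · subst hia; simp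
      · rw [Function.update_of_ne hia]
        exact h1 i (by simp [hia, hi])

/-- the facts recorded by a list of truth values: the formula with code `m` is true or false
according to the `m`-th entry -/
def facts (com : List Bool) : List ℕ :=
  (List.range com.length).map (fun m => if com.getD m false = true then m else cNeg m)

theorem Tr_facts (com : List Bool) (v : ℕ → ℕ) :
    (∀ m ∈ facts com, Tr L S m v) ↔
      ∀ m < com.length, (Tr L S m v ↔ com.getD m false = true) := by
  unfold facts
  simp only [List.mem_map, List.mem_range, forall_exists_index, and_imp,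
    forall_apply_eq_imp_iff₂]
  apply forall_congr'
  intro m
  apply forall_congr'
  intro _
  by_cases h : com.getD m false = true
  · rw [if_pos h]
    exact ⟨fun h' => ⟨fun _ => h, fun _ => h'⟩, fun h' => h'.2 h⟩
  · rw [if_neg h, Tr_neg]
    exact ⟨fun h' => ⟨fun h'' => absurd h'' h', fun h'' => absurd h'' h⟩,
      fun h' h'' => h (h'.1 h'')⟩

/-- pairwise distinctness of the variables below `M` -/
def distL (M : ℕ) : List ℕ :=
  (List.range M).flatMap (fun b => (List.range b).map (fun b' => cNeg (cEq b' b)))

theorem Tr_distL (M : ℕ) (v : ℕ → ℕ) :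
    (∀ m ∈ distL M, Tr L S m v) ↔ ∀ b < M, ∀ b' < b, v b' ≠ v b := by
  unfold distL
  simp only [List.mem_flatMap, List.mem_map, List.mem_range, forall_exists_index, and_imp]
  constructor
  · intro h b hb b' hb'
    have := h (cNeg (cEq b' b)) b hb b' hb' rfl
    rw [Tr_neg, Tr_eq] at this
    exact this
  · rintro h m b hb b' hb' rfl
    rw [Tr_neg, Tr_eq]
    exact h b hb b' hb'

/-- equations between the variables `v_{c_l}` and `v_{M+l}` -/
def eqsL (c : List ℕ) (M : ℕ) : List ℕ :=
  (List.range c.length).map (fun l => cEq (c.getD l 0) (M + l))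

theorem Tr_eqsL (c : List ℕ) (M : ℕ) (v : ℕ → ℕ) :
    (∀ m ∈ eqsL c M, Tr L S m v) ↔ ∀ l < c.length, v (c.getD l 0) = v (M + l) := by
  unfold eqsL
  simp only [List.mem_map, List.mem_range, forall_exists_index, and_imp,
    forall_apply_eq_imp_iff₂, Tr_eq]

/-- the formula saying that the tuple at `v_M, v_{M+1}, ...` is `e ∘ c` for some injective `e`
that satisfies the recorded facts -/
def gcode (com : List Bool) (c : List ℕ) (M : ℕ) : ℕ :=
  exL (List.range M) (andL (facts com ++ (distL M ++ eqsL c M)))

/-- semantic counterpart of `gcode` -/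
def GG (L : CLang) (S : Str) (com : List Bool) (M : ℕ) (c : List ℕ) (x : List ℕ) : Prop :=
  ∃ e : ℕ → ℕ, (∀ m < com.length, (Tr L S m e ↔ com.getD m false = true)) ∧
    (∀ b < M, ∀ b' < b, e b' ≠ e b) ∧ ∀ l < c.length, e (c.getD l 0) = x.getD l 0

theorem asg_ge (M : ℕ) (x : List ℕ) (l : ℕ) (hl : l < x.length) :
    asg M x (M + l) = x.getD l 0 := by
  unfold asg
  rw [Nat.add_sub_cancel_left]
  rw [List.getD_eq_getElem _ _ hl, List.getD_eq_getElem _ _ hl]

theorem Tr_gcode_gen (com : List Bool) (c : List ℕ) (M : ℕ) (hcom : com.length ≤ M)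
    (hc : ∀ b ∈ c, b < M) (v : ℕ → ℕ) (x : List ℕ) (hv : ∀ l < c.length, v (M + l) = x.getD l 0) :
    Tr L S (gcode com c M) v ↔ GG L S com M c x := by
  unfold gcode GG
  rw [Tr_exL]
  simp only [Tr_andL, List.mem_append, or_imp, forall_and, Tr_facts, Tr_distL, Tr_eqsL]
  constructor
  · rintro ⟨v', h1, h2, h3, h4⟩
    refine ⟨v', h2, h3, ?_⟩
    intro l hl
    rw [h4 l hl, h1 (M + l) (by simp), hv l hl]
  · rintro ⟨e, h2, h3, h4⟩
    refine ⟨fun i => if i < M then e i else v i, ?_, ?_, ?_, ?_⟩
    · intro i hi
      rw [List.mem_range] at hi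
      simp only [if_neg hi]
    · intro m hm
      rw [← h2 m hm]
      apply Tr_congr
      intro i hi
      simp only [if_pos (show i < M by omega)]
    · intro b hb b' hb'
      simp only [if_pos hb, if_pos (show b' < M by omega)]
      exact h3 b hb b' hb'
    · intro l hl
      have h5 : c.getD l 0 < M := by
        rw [List.getD_eq_getElem _ _ hl]
        exact hc _ (List.getElem_mem hl)
      simp only [if_pos h5, if_neg (show ¬ (M + l < M) by omega)]
      rw [h4 l hl, hv l hl]

theorem Tr_gcode (com : List Bool) (c : List ℕ) (M : ℕ) (hcom : com.length ≤ M)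
    (hc : ∀ b ∈ c, b < M) (x : List ℕ) (hx : x.length = c.length) :
    Tr L S (gcode com c M) (asg M x) ↔ GG L S com M c x :=
  Tr_gcode_gen com c M hcom hc _ x (fun l hl => asg_ge M x l (by omega))

/-- the formula saying that some injective `e` agrees with the assignment on `P`, satisfies the
facts `com`, but `e ∘ c` does not satisfy `gcode com' c M` -/
def chicode (com com' : List Bool) (c : List ℕ) (M : ℕ) (P : List ℕ) : ℕ :=
  exL ((List.range M).filter (fun b => decide (¬ b ∈ P)))
    (andL (facts com ++ (distL M ++ [exL ((List.range c.length).map (fun l => M + l))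
      (andL (eqsL c M ++ [cNeg (gcode com' c M)]))])))

theorem Tr_chicode (com com' : List Bool) (c : List ℕ) (M : ℕ) (P : List ℕ)
    (hcom : com.length ≤ M) (hcom' : com'.length ≤ M) (hc : ∀ b ∈ c, b < M) (s : ℕ → ℕ) :
    Tr L S (chicode com com' c M P) s ↔
      ∃ e : ℕ → ℕ, (∀ b ∈ P, b < M → e b = s b) ∧
        (∀ m < com.length, (Tr L S m e ↔ com.getD m false = true)) ∧
        (∀ b < M, ∀ b' < b, e b' ≠ e b) ∧
        ¬ GG L S com' M c (c.map e) := by
  unfold chicode
  rw [Tr_exL]
  simp only [Tr_andL, List.mem_append, or_imp, forall_and, Tr_facts, Tr_distL, Tr_eqsL,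
    List.mem_singleton, forall_eq, Tr_exL, Tr_neg]
  constructor
  · rintro ⟨v, h1, h2, h3, v', h4, h5, h6⟩
    refine ⟨v, ?_, h2, h3, ?_⟩
    · intro b hb hbM
      apply h1
      simp [hb]
    · intro hG
      apply h6
      rw [Tr_gcode_gen com' c M hcom' hc v' (c.map v)]
      · exact hG
      · intro l hl
        rw [← h5 l hl]
        have h7 : c.getD l 0 < M := by
          rw [List.getD_eq_getElem _ _ hl]
          exact hc _ (List.getElem_mem hl)
        rw [h4 (c.getD l 0)]
        · rw [List.getD_eq_getElem _ _ hl, List.getD_eq_getElem _ _ (by simpa using hl)]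
          simp
        · simp only [List.mem_map, List.mem_range, not_exists, not_and]
          intro x _ hx
          omega
  · rintro ⟨e, h1, h2, h3, h4⟩
    refine ⟨fun i => if i < M then e i else s i, ?_, ?_, ?_,
      fun i => if i < M then e i else (c.map e).getD (i - M) (s i), ?_, ?_, ?_⟩
    · intro i hi
      simp only [List.mem_filter, List.mem_range, decide_eq_true_eq, not_and, not_not] at hi
      by_cases hiM : i < M
      · simp only [if_pos hiM]
        exact h1 i (hi hiM) hiM
      · simp only [if_neg hiM]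
    · intro m hm
      rw [← h2 m hm]
      apply Tr_congr
      intro i hi
      simp only [if_pos (show i < M by omega)]
    · intro b hb b' hb'
      simp only [if_pos hb, if_pos (show b' < M by omega)]
      exact h3 b hb b' hb'
    · intro i hi
      simp only [List.mem_map, List.mem_range, not_exists, not_and] at hi
      by_cases hiM : i < M
      · simp only [if_pos hiM]
      · simp only [if_neg hiM]
        have : ¬ (i - M < c.length) := fun h => hi (i - M) h (by omega)
        rw [List.getD_eq_default _ _ (by simpa using this)]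
    · intro l hl
      have h7 : c.getD l 0 < M := by
        rw [List.getD_eq_getElem _ _ hl]
        exact hc _ (List.getElem_mem hl)
      simp only [if_pos h7, if_neg (show ¬ (M + l < M) by omega), Nat.add_sub_cancel_left]
      rw [List.getD_eq_getElem _ _ hl, List.getD_eq_getElem _ _ (by simpa using hl)]
      simp
    · rw [Tr_gcode_gen com' c M hcom' hc _ (c.map e)]
      · exact h4
      · intro l hl
        simp only [if_neg (show ¬ (M + l < M) by omega), Nat.add_sub_cancel_left]
        rw [List.getD_eq_getElem _ _ (by simpa using hl),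
          List.getD_eq_getElem _ _ (by simpa using hl)]

/-- substitution of variables for variables -/
theorem exists_rename (m : ℕ) (ρ : ℕ → ℕ) :
    ∃ m' : ℕ, ∀ (L : CLang) (S : Str) (v : ℕ → ℕ), Tr L S m' v ↔ Tr L S m (v ∘ ρ) := by
  obtain ⟨N, hN1, hN2⟩ : ∃ N, m < N ∧ ∀ i ≤ m, ρ i < N := by
    refine ⟨m + 1 + ∑ i ∈ Finset.range (m + 1), ρ i, by omega, ?_⟩
    intro i hi
    have := Finset.single_le_sum (f := ρ) (s := Finset.range (m + 1)) (fun _ _ => Nat.zero_le _)
      (Finset.mem_range.2 (by omega : i < m + 1))
    omega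
  refine ⟨exL ((List.range (m + 1)).map (fun i => N + i))
    (andL ((List.range (m + 1)).map (fun i => cEq (N + i) (ρ i)) ++
      [exL (List.range (m + 1))
        (andL ((List.range (m + 1)).map (fun i => cEq i (N + i)) ++ [m]))])), ?_⟩
  intro L S v
  rw [Tr_exL]
  simp only [Tr_andL, List.mem_append, or_imp, forall_and, List.mem_singleton, forall_eq,
    Tr_exL, List.mem_map, List.mem_range, forall_exists_index, and_imp,
    forall_apply_eq_imp_iff₂, Tr_eq, not_exists, not_and]
  constructor
  · rintro ⟨v', h1, h2, v'', h3, h4, h5⟩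
    rw [← Tr_congr m v'' (v ∘ ρ)]
    · exact h5
    · intro i hi
      have h6 := hN2 i hi
      rw [h4 i (by omega), h3 (N + i) (by omega), h2 i (by omega)]
      exact h1 (ρ i) (fun x _ hx => by omega)
  · intro h
    refine ⟨fun i => if N ≤ i ∧ i ≤ N + m then v (ρ (i - N)) else v i, ?_, ?_,
      fun i => if i ≤ m then v (ρ i) else
        if N ≤ i ∧ i ≤ N + m then v (ρ (i - N)) else v i, ?_, ?_, ?_⟩
    · intro i hi
      simp only
      rw [if_neg]
      rintro ⟨h1, h2⟩
      exact hi (i - N) (by omega) (by omega)
    · intro i hi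
      have h6 := hN2 i (by omega)
      simp only
      rw [if_pos ⟨by omega, by omega⟩, if_neg (by omega), Nat.add_sub_cancel_left]
    · intro i hi
      simp only
      rw [if_neg (by omega)]
    · intro i hi
      simp only
      rw [if_pos (by omega), if_neg (by omega), if_pos ⟨by omega, by omega⟩,
        Nat.add_sub_cancel_left]
    · rw [Tr_congr m _ (v ∘ ρ)]
      · exact h
      · intro i hi
        simp only [Function.comp, if_pos hi]

/-- the map `i ↦ y_i` from the initial segment `[0, K)` of `S` to `A` is elementary -/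
def ElemMap (L : CLang) (S A : Str) (K : ℕ) (y : List ℕ) : Prop :=
  ∀ (m : ℕ) (ρ : ℕ → ℕ), (∀ i, ρ i < K) →
    (Tr L S m ρ ↔ Tr L A m (fun i => y.getD (ρ i) 0))

end Pool.Agent.Lib.MP95a9c1
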