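import Mathlib
import Pool.Agent.Lib.MP_95a9c1_lc.Syntax
import Pool.Agent.Lib.MP_95a9c1_lc.RE
import Pool.Agent.Lib.MP_95a9c1_lc.Bridge

/-!
The relative back-and-forth construction.
-/

set_option autoImplicit false

namespace Pool.Agent.Lib.MP95a9c1

variable {L : CLang}

theorem asg_map (h : ℕ → ℕ) (M : ℕ) (x : List ℕ) (hx : 0 < x.length) :
    h ∘ asg M x = asg M (x.map h) := by
  funext i
  have h0 : (x.map h).getD 0 0 = h (x.getD 0 0) := by
    rw [List.getD_eq_getElem _ _ hx, List.getD_eq_getElem _ _ (by simpa using hx)]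
    simp
  simp only [asg, Function.comp]
  rw [h0]
  by_cases hi : i - M < x.length
  · rw [List.getD_eq_getElem _ _ hi, List.getD_eq_getElem _ _ (by simpa using hi)]
    simp
  · rw [List.getD_eq_default x (x.getD 0 0) (show x.length ≤ i - M by omega),
      List.getD_eq_default _ _ (show (x.map h).length ≤ i - M by simp; omega)]

theorem ElemMap.map {S A B : Str} {h : ℕ → ℕ} (hh : IsIso L A B h) {K : ℕ} {y : List ℕ}
    (hy : y.length = K) (he : ElemMap L S A K y) : ElemMap L S B K (y.map h) := by
  intro m ρ hρ
  rw [he m ρ hρ, Tr_iso hh]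
  have : h ∘ (fun i => y.getD (ρ i) 0) = fun i => (y.map h).getD (ρ i) 0 := by
    funext i
    have hi : ρ i < y.length := by rw [hy]; exact hρ i
    simp only [Function.comp]
    rw [List.getD_eq_getElem _ _ hi, List.getD_eq_getElem _ _ (by simpa using hi)]
    simp
  rw [this]

/-- the formula saying that some tuple satisfying `g` has given entries -/
theorem exists_real_code (g M K : ℕ) (hK : 0 < K) (c : List ℕ) (hc : ∀ b ∈ c, b < K) :
    ∃ m' : ℕ, ∀ (L : CLang) (S : Str) (v : ℕ → ℕ), Tr L S m' v ↔ ∃ x : List ℕ, x.length = K ∧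
      Tr L S g (asg M x) ∧ ∀ i < c.length, x.getD (c.getD i 0) 0 = v i := by
  obtain ⟨gr, hgr⟩ := exists_rename g (fun i => c.length + (if i - M < K then i - M else 0))
  have hci : ∀ i < c.length, c.getD i 0 < K := by
    intro i hi
    rw [List.getD_eq_getElem _ _ hi]
    exact hc _ (List.getElem_mem hi)
  refine ⟨exL ((List.range K).map (fun j => c.length + j))
    (andL ([gr] ++ (List.range c.length).map (fun i => cEq (c.length + c.getD i 0) i))), ?_⟩
  intro L S v
  rw [Tr_exL]
  simp only [Tr_andL, List.mem_append, or_imp, forall_and, List.mem_singleton, forall_eq,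
    List.mem_map, List.mem_range, forall_exists_index, and_imp,
    forall_apply_eq_imp_iff₂, Tr_eq, not_exists, not_and, hgr]
  constructor
  · rintro ⟨v', h1, h2, h3⟩
    refine ⟨(List.range K).map (fun j => v' (c.length + j)), by simp, ?_, ?_⟩
    · have : asg M ((List.range K).map (fun j => v' (c.length + j))) =
          v' ∘ (fun i => c.length + (if i - M < K then i - M else 0)) := by
        funext i
        have h0 : ((List.range K).map (fun j => v' (c.length + j))).getD 0 0 =
            v' (c.length + 0) := by
          rw [List.getD_eq_getElem _ _ (by simpa using hK)]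
          simp
        simp only [asg, Function.comp]
        rw [h0]
        by_cases hi : i - M < K
        · rw [if_pos hi, List.getD_eq_getElem _ _ (by simpa using hi)]
          simp
        · rw [if_neg hi, List.getD_eq_default _ _ (by simp; omega)]
      rw [this]
      exact h2
    · intro i hi
      have h5 := hci i hi
      rw [List.getD_eq_getElem _ _ (by simpa using h5)]
      simp only [List.getElem_map, List.getElem_range]
      rw [h3 i hi]
      exact h1 i (fun x _ hx => by omega)
  · rintro ⟨x, h1, h2, h3⟩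
    refine ⟨fun i => if c.length ≤ i ∧ i < c.length + K then x.getD (i - c.length) 0 else v i,
      ?_, ?_, ?_⟩
    · intro i hi
      simp only
      rw [if_neg]
      rintro ⟨h4, h5⟩
      exact hi (i - c.length) (by omega) (by omega)
    · have : (fun i => if c.length ≤ i ∧ i < c.length + K then x.getD (i - c.length) 0 else v i) ∘
          (fun i => c.length + (if i - M < K then i - M else 0)) = asg M x := by
        funext i
        simp only [asg, Function.comp]
        by_cases hi : i - M < K
        · rw [if_pos hi, if_pos ⟨by omega, by omega⟩, Nat.add_sub_cancel_left]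
          rw [List.getD_eq_getElem _ _ (by omega), List.getD_eq_getElem _ _ (by omega)]
        · rw [if_neg hi, if_pos ⟨by omega, by omega⟩, Nat.add_sub_cancel_left,
            List.getD_eq_default _ (x.getD 0 0) (by omega)]
      rw [this]
      exact h2
    · intro i hi
      have h5 := hci i hi
      simp only
      rw [if_pos ⟨by omega, by omega⟩, if_neg (by omega), Nat.add_sub_cancel_left]
      exact h3 i hi

theorem realize {S : Str} {g M K : ℕ} (hK : 0 < K) (hg : Tr L S g (asg M (List.range K)))
    (c : List ℕ) (hc : ∀ b ∈ c, b < K) (ρ ρ' : ℕ → ℕ) (hρ : ∀ i < c.length, ρ i = c.getD i 0)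
    (hsame : ∀ m, Tr L S m ρ ↔ Tr L S m ρ') :
    ∃ x : List ℕ, x.length = K ∧ Tr L S g (asg M x) ∧
      ∀ i < c.length, x.getD (c.getD i 0) 0 = ρ' i := by
  obtain ⟨m', hm'⟩ := exists_real_code g M K hK c hc
  rw [← hm' L S ρ', ← hsame, hm' L S ρ]
  refine ⟨List.range K, by simp, hg, ?_⟩
  intro i hi
  have h5 : c.getD i 0 < K := by
    rw [List.getD_eq_getElem _ _ hi]
    exact hc _ (List.getElem_mem hi)
  rw [hρ i hi, List.getD_eq_getElem _ _ (by simpa using h5)]
  simp

/-- the data of the isolating formulas -/
structure Iso (L : CLang) (S : Str) (k0 : ℕ) (E : ℕ → ℕ → ℕ → ℕ → Prop) : Prop where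
  sound1 : ∀ n K g M, E n K g M → k0 ≤ K ∧ Tr L S g (asg M (List.range K))
  sound2 : ∀ n K g M, E n K g M → ∀ x : List ℕ, x.length = K →
      (∀ l < k0, x.getD l 0 = l) → Tr L S g (asg M x) → ElemMap L S S K x
  complete : ∀ K, k0 ≤ K → ∃ n g M, E n K g M

theorem ext_S {S : Str} {k0 : ℕ} (hk0 : 1 ≤ k0) {E : ℕ → ℕ → ℕ → ℕ → Prop} (hE : Iso L S k0 E)
    {K : ℕ} {z : List ℕ} (hz : z.length = K) (hK : k0 ≤ K) (hzl : ∀ l < k0, z.getD l 0 = l)
    (hel : ElemMap L S S K z) (w K0 : ℕ) :
    ∃ (e : List ℕ) (n g M : ℕ), w ∈ z ++ e ∧ K0 < (z ++ e).length ∧ E n (z ++ e).length g M ∧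
      Tr L S g (asg M (z ++ e)) := by
  -- step 1
  obtain ⟨K1, hK1⟩ := Finset.exists_nat_subset_range (z.toFinset ∪ {w, K})
  have hz1 : ∀ b ∈ z, b < K1 := fun b hb => Finset.mem_range.1 (hK1 (by simp [hb]))
  have hw1 : w < K1 := Finset.mem_range.1 (hK1 (by simp))
  have hKK1 : K < K1 := Finset.mem_range.1 (hK1 (by simp))
  obtain ⟨n1, g1, M1, hE1⟩ := hE.complete K1 (by omega)
  obtain ⟨x', hx'l, hx'g, hx'v⟩ := realize (L := L) (by omega) (hE.sound1 _ _ _ _ hE1).2 z hz1
    (fun i => z.getD (if i < K then i else 0) 0) (fun i => if i < K then i else 0) (by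
      intro i hi
      rw [if_pos (by omega)]) (by
      intro m
      exact (hel m (fun i => if i < K then i else 0) (by
        intro i; split_ifs <;> omega)).symm)
  have hx'l0 : ∀ l < k0, x'.getD l 0 = l := by
    intro l hl
    have h1 := hx'v l (by omega)
    rw [hzl l hl, if_pos (by omega)] at h1
    exact h1
  have he1 : ElemMap L S S K1 x' := hE.sound2 _ _ _ _ hE1 x' hx'l hx'l0 hx'g
  -- step 2
  set x := x'.getD w 0 with hx
  obtain ⟨K2, hK2⟩ := Finset.exists_nat_subset_range ({x, K, K0} : Finset ℕ)
  have hxK2 : x < K2 := Finset.mem_range.1 (hK2 (by simp))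
  have hKK2 : K < K2 := Finset.mem_range.1 (hK2 (by simp))
  have hK0K2 : K0 < K2 := Finset.mem_range.1 (hK2 (by simp))
  obtain ⟨n2, g2, M2, hE2⟩ := hE.complete K2 (by omega)
  have hcl : (List.range K ++ [x]).length = K + 1 := by simp
  have hρ'lt : ∀ i, (if i < K then z.getD i 0 else w) < K1 := by
    intro i
    split_ifs with h
    · rw [List.getD_eq_getElem _ _ (by omega)]
      exact hz1 _ (List.getElem_mem _)
    · exact hw1
  obtain ⟨z2, hz2l, hz2g, hz2v⟩ := realize (L := L) (by omega) (hE.sound1 _ _ _ _ hE2).2
    (List.range K ++ [x]) (by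
      intro b hb
      rw [List.mem_append, List.mem_range, List.mem_singleton] at hb
      rcases hb with hb | hb <;> omega)
    (fun i => x'.getD (if i < K then z.getD i 0 else w) 0)
    (fun i => if i < K then z.getD i 0 else w) (by
      intro i hi
      rw [hcl] at hi
      by_cases hiK : i < K
      · rw [if_pos hiK, hx'v i (by omega), if_pos hiK,
          List.getD_append _ _ _ _ (by simpa using hiK), List.getD_eq_getElem _ _ (by simpa using hiK)]
        simp
      · have : i = K := by omega
        subst this
        rw [if_neg hiK, List.getD_append_right _ _ _ _ (by simp)]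
        simp [hx]) (by
      intro m
      exact (he1 m (fun i => if i < K then z.getD i 0 else w) hρ'lt).symm)
  have htake : z2.take K = z := by
    apply List.ext_getElem
    · simp; omega
    · intro i hi hi'
      have h1 := hz2v i (by rw [hcl]; omega)
      rw [List.getD_append _ _ _ _ (by simp; omega), if_pos (by omega),
        List.getD_eq_getElem (List.range K) _ (by simp; omega), List.getElem_range,
        List.getD_eq_getElem _ _ (by omega), List.getD_eq_getElem _ _ hi'] at h1
      rw [List.getElem_take]
      exact h1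
  have hsplit : z ++ z2.drop K = z2 := by
    conv_lhs => rw [← htake]
    rw [List.take_append_drop]
  have hw2 := hz2v K (by rw [hcl]; omega)
  rw [List.getD_append_right _ _ _ _ (by simp), if_neg (by omega)] at hw2
  simp only [List.length_range, Nat.sub_self, List.getD_cons_zero] at hw2
  refine ⟨z2.drop K, n2, g2, M2, ?_, ?_, ?_, ?_⟩
  · rw [hsplit, ← hw2, List.getD_eq_getElem _ _ (by omega)]
    exact List.getElem_mem _
  · rw [hsplit]; omega
  · rw [hsplit, hz2l]; exact hE2
  · rw [hsplit]; exact hz2g

/-- the invariant of the construction -/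
structure Good (L : CLang) (S A : Str) (k0 : ℕ) (a : ℕ → ℕ) (s : ℕ) (y : List ℕ) : Prop where
  hk : k0 ≤ y.length
  ha : ∀ l < k0, y.getD l 0 = a l
  he : ElemMap L S A y.length y
  hs : s ≤ y.length
  hm : ∀ b < s, b ∈ y

/-- every admissible extension is good -/
theorem Good.ext_good {S A : Str} {k0 : ℕ} {E : ℕ → ℕ → ℕ → ℕ → Prop}
    (hE : Iso L S k0 E) {h a : ℕ → ℕ} (hh : IsIso L A S h) (ha : ∀ l, h (a l) = l) {s : ℕ}
    {y : List ℕ} (hy : Good L S A k0 a s y) {e : List ℕ} {n g M : ℕ} (hs : s ∈ y ++ e)
    (hl : s < (y ++ e).length)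
    (hEe : E n (y ++ e).length g M) (hg : Tr L A g (asg M (y ++ e))) :
    Good L S A k0 a (s + 1) (y ++ e) := by
  have hinv : ∀ x, a (h x) = x := by
    intro x
    apply hh.1.1
    rw [ha]
  have hk : k0 ≤ (y ++ e).length := by have := hy.hk; rw [List.length_append]; omega
  have ha' : ∀ l < k0, (y ++ e).getD l 0 = a l := by
    intro l hl
    rw [List.getD_append _ _ _ _ (lt_of_lt_of_le hl hy.hk)]
    exact hy.ha l hl
  refine ⟨hk, ha', ?_, hl, ?_⟩
  · have h1 : Tr L S g (asg M ((y ++ e).map h)) := by
      rw [← asg_map h M _ (by omega), ← Tr_iso hh]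
      exact hg
    have h2 := hE.sound2 _ _ _ _ hEe ((y ++ e).map h) (by simp) (by
      intro l hl
      have hlt : l < (y ++ e).length := lt_of_lt_of_le hl hk
      have := ha' l hl
      rw [List.getD_eq_getElem _ _ hlt] at this
      rw [List.getD_eq_getElem _ _ (by simpa using hlt), List.getElem_map, this]
      exact ha l) h1
    have h3 := ElemMap.map (hh.symm hinv) (by simp) h2
    rw [List.map_map] at h3
    have h4 : a ∘ h = id := funext hinv
    rw [h4, List.map_id] at h3
    exact h3
  · intro b hb
    rcases Nat.lt_succ_iff_lt_or_eq.1 hb with hb | rfl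
    · exact List.mem_append_left _ (hy.hm b hb)
    · exact hs

theorem Good.exists_ext {S A : Str} {k0 : ℕ} (hk0 : 1 ≤ k0) {E : ℕ → ℕ → ℕ → ℕ → Prop}
    (hE : Iso L S k0 E) {h a : ℕ → ℕ} (hh : IsIso L A S h) (ha : ∀ l, h (a l) = l) {s : ℕ}
    {y : List ℕ} (hy : Good L S A k0 a s y) :
    ∃ (e : List ℕ) (n g M : ℕ), s ∈ y ++ e ∧ s < (y ++ e).length ∧ E n (y ++ e).length g M ∧
      Tr L A g (asg M (y ++ e)) := by
  have hinv : ∀ x, a (h x) = x := by
    intro x
    apply hh.1.1
    rw [ha]
  have h4 : a ∘ h = id := funext hinv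
  have hmm : ∀ l : List ℕ, (l.map h).map a = l := by
    intro l; rw [List.map_map, h4, List.map_id]
  have h1 : ElemMap L S S y.length (y.map h) := ElemMap.map hh rfl hy.he
  obtain ⟨e, n, g, M, h5, h6, h7, h8⟩ := ext_S hk0 hE (z := y.map h) (by simp) hy.hk (by
    intro l hl
    have hlt : l < y.length := lt_of_lt_of_le hl hy.hk
    have := hy.ha l hl
    rw [List.getD_eq_getElem _ _ hlt] at this
    rw [List.getD_eq_getElem _ _ (by simpa using hlt), List.getElem_map, this]
    exact ha l) h1 (h s) s
  have hmap : (y.map h ++ e).map a = y ++ e.map a := by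
    rw [List.map_append, hmm]
  have hlen : (y.map h ++ e).length = (y ++ e.map a).length := by simp
  refine ⟨e.map a, n, g, M, ?_, ?_, ?_, ?_⟩
  · rw [← hmap, List.mem_map]
    exact ⟨h s, h5, hinv s⟩
  · rw [← hlen]; exact h6
  · rw [← hlen]; exact h7
  · rw [← hmap, ← asg_map a M _ (by rw [hlen]; have := hy.hk; simp; omega),
      ← Tr_iso (hh.symm hinv)]
    exact h8

/-! ### The computation -/

/-- the data coded by a witness: extension, formula, offset, witness of enumeration -/
def wit (u : ℕ) : List ℕ × ℕ × ℕ × ℕ :=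
  Denumerable.ofNat (List ℕ × ℕ × ℕ × ℕ) u.unpair.2

theorem wit_pair (n : ℕ) (p : List ℕ × ℕ × ℕ × ℕ) : wit (Nat.pair n (Encodable.encode p)) = p := by
  unfold wit
  rw [Nat.unpair_pair]
  exact Denumerable.ofNat_encode p

theorem prim_wit : Primrec wit :=
  (Primrec.ofNat _).comp (Primrec.snd.comp Primrec.unpair)

section comp

variable (V : ℕ × (List Bool × ℕ × ℕ × ℕ) → Bool) (T : ℕ × List ℕ → Bool)

/-- the candidate for the extended tuple -/
def cand (q : (List Bool × ℕ × List ℕ) × ℕ) : List ℕ := q.1.2.2 ++ (wit q.2).1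

/-- the oracle string used by a witness -/
def ostr (q : (List Bool × ℕ × List ℕ) × ℕ) : List Bool :=
  (List.range q.2.unpair.1).map (fun i => q.1.1.getD i false)

/-- the check -/
def chk (q : (List Bool × ℕ × List ℕ) × ℕ) : Bool :=
  (decide (List.idxOf q.1.2.1 (cand q) < (cand q).length) && decide (q.1.2.1 < (cand q).length)) &&
    (V ((wit q.2).2.2.2, (ostr q, (cand q).length, (wit q.2).2.1, (wit q.2).2.2.1)) &&
      T ((wit q.2).2.1, (List.range ((wit q.2).2.1 + 1)).map (asg (wit q.2).2.2.1 (cand q))))

theorem prim_cand : Primrec cand :=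
  Primrec.list_append.comp (Primrec.snd.comp (Primrec.snd.comp Primrec.fst))
    (Primrec.fst.comp (prim_wit.comp Primrec.snd))

theorem prim_ostr : Primrec ostr := by
  apply Primrec.list_map (Primrec.list_range.comp (Primrec.fst.comp (Primrec.unpair.comp
    Primrec.snd)))
  exact ((Primrec.list_getD false).comp (Primrec.fst.comp (Primrec.fst.comp Primrec.fst))
    Primrec.snd).to₂

theorem prim_asg : Primrec (fun q : (ℕ × List ℕ) × ℕ => asg q.1.1 q.1.2 q.2) := by
  have h1 : Primrec (fun q : (ℕ × List ℕ) × ℕ =>
      ((q.1.2)[q.2 - q.1.1]?).getD (q.1.2.getD 0 0)) := by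
    apply Primrec.option_getD.comp
    · exact Primrec.list_getElem?.comp (Primrec.snd.comp Primrec.fst)
        (Primrec.nat_sub.comp Primrec.snd (Primrec.fst.comp Primrec.fst))
    · exact (Primrec.list_getD 0).comp (Primrec.snd.comp Primrec.fst) (Primrec.const 0)
  refine h1.of_eq ?_
  intro q
  unfold asg
  exact List.getD_eq_getElem?_getD.symm

theorem comp_chk (hV : Primrec V) (hT : Computable T) : Computable (chk V T) := by
  have hlen : Primrec (fun q => (cand q).length) := Primrec.list_length.comp prim_cand
  have hs : Primrec (fun q : (List Bool × ℕ × List ℕ) × ℕ => q.1.2.1) :=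
    Primrec.fst.comp (Primrec.snd.comp Primrec.fst)
  have hw : Primrec (fun q : (List Bool × ℕ × List ℕ) × ℕ => wit q.2) :=
    prim_wit.comp Primrec.snd
  have hg : Primrec (fun q : (List Bool × ℕ × List ℕ) × ℕ => (wit q.2).2.1) :=
    Primrec.fst.comp (Primrec.snd.comp hw)
  have hM : Primrec (fun q : (List Bool × ℕ × List ℕ) × ℕ => (wit q.2).2.2.1) :=
    Primrec.fst.comp (Primrec.snd.comp (Primrec.snd.comp hw))
  have hww : Primrec (fun q : (List Bool × ℕ × List ℕ) × ℕ => (wit q.2).2.2.2) :=
    Primrec.snd.comp (Primrec.snd.comp (Primrec.snd.comp hw))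
  have h1 : Primrec (fun q : (List Bool × ℕ × List ℕ) × ℕ =>
      decide (List.idxOf q.1.2.1 (cand q) < (cand q).length)) :=
    (Primrec.nat_lt.comp (Primrec.list_idxOf.comp hs prim_cand) hlen).decide
  have h2 : Primrec (fun q : (List Bool × ℕ × List ℕ) × ℕ =>
      decide (q.1.2.1 < (cand q).length)) :=
    (Primrec.nat_lt.comp hs hlen).decide
  have h3 : Primrec (fun q : (List Bool × ℕ × List ℕ) × ℕ =>
      V ((wit q.2).2.2.2, (ostr q, (cand q).length, (wit q.2).2.1, (wit q.2).2.2.1))) :=
    hV.comp (hww.pair (prim_ostr.pair (hlen.pair (hg.pair hM))))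
  have h4 : Computable (fun q : (List Bool × ℕ × List ℕ) × ℕ =>
      T ((wit q.2).2.1, (List.range ((wit q.2).2.1 + 1)).map
        (asg (wit q.2).2.2.1 (cand q)))) := by
    apply hT.comp
    apply Primrec.to_comp
    apply hg.pair
    apply Primrec.list_map (Primrec.list_range.comp (Primrec.succ.comp hg))
    exact (prim_asg.comp (((hM.comp Primrec.fst).pair (prim_cand.comp Primrec.fst)).pair
      Primrec.snd)).to₂
  exact Primrec.and.to_comp.comp (Primrec.and.comp h1 h2).to_comp
    (Primrec.and.to_comp.comp h3.to_comp h4)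

/-- bounded search for the least witness -/
def srch (q : (List Bool × ℕ × List ℕ) × ℕ) : Option (List ℕ) :=
  Nat.rec (motive := fun _ => Option (List ℕ)) none
    (fun u r => Option.casesOn (motive := fun _ => Option (List ℕ)) r
      (bif chk V T (q.1, u) then some (cand (q.1, u)) else none) (fun z => some z)) q.2

theorem comp_srch (hV : Primrec V) (hT : Computable T) : Computable (srch V T) := by
  have hu : Computable (fun a : ((List Bool × ℕ × List ℕ) × ℕ) × (ℕ × Option (List ℕ)) =>
      (a.1.1, a.2.1)) :=
    (Computable.fst.comp Computable.fst).pair (Computable.fst.comp Computable.snd)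
  have hc : Computable (fun a : ((List Bool × ℕ × List ℕ) × ℕ) × (ℕ × Option (List ℕ)) =>
      bif chk V T (a.1.1, a.2.1) then some (cand (a.1.1, a.2.1)) else none) :=
    Computable.cond (c := fun a : ((List Bool × ℕ × List ℕ) × ℕ) × (ℕ × Option (List ℕ)) =>
        chk V T (a.1.1, a.2.1))
      (f := fun a => some (cand (a.1.1, a.2.1))) (g := fun _ => none)
      ((comp_chk V T hV hT).comp hu)
      (Computable.option_some.comp (prim_cand.to_comp.comp hu)) (Computable.const none)
  have hk := Computable.option_casesOn
    (o := fun a : ((List Bool × ℕ × List ℕ) × ℕ) × (ℕ × Option (List ℕ)) => a.2.2)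
    (f := fun a => bif chk V T (a.1.1, a.2.1) then some (cand (a.1.1, a.2.1)) else none)
    (g := fun _ z => some z)
    (Computable.snd.comp Computable.snd) hc (Computable.option_some.comp Computable.snd).to₂
  exact Computable.nat_rec (f := fun q : (List Bool × ℕ × List ℕ) × ℕ => q.2)
    (g := fun _ => (none : Option (List ℕ)))
    (h := fun (q : (List Bool × ℕ × List ℕ) × ℕ) (p : ℕ × Option (List ℕ)) =>
      Option.casesOn (motive := fun _ => Option (List ℕ)) p.2
      (bif chk V T (q.1, p.1) then some (cand (q.1, p.1)) else none) (fun z => some z))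
    Computable.snd (Computable.const none) hk

theorem srch_zero (a : List Bool × ℕ × List ℕ) : srch V T (a, 0) = none := rfl

theorem srch_succ (a : List Bool × ℕ × List ℕ) (u : ℕ) : srch V T (a, u + 1) =
    Option.casesOn (motive := fun _ => Option (List ℕ)) (srch V T (a, u))
      (bif chk V T (a, u) then some (cand (a, u)) else none) (fun z => some z) := rfl

theorem srch_eq_none (a : List Bool × ℕ × List ℕ) (k : ℕ)
    (h : ∀ u < k, chk V T (a, u) = false) : srch V T (a, k) = none := by
  induction k with
  | zero => rfl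
  | succ k ih =>
    rw [srch_succ, ih (fun u hu => h u (by omega))]
    simp only
    rw [h k (by omega)]
    rfl

theorem srch_spec (a : List Bool × ℕ × List ℕ) (k : ℕ) (z : List ℕ) :
    srch V T (a, k) = some z ↔ ∃ u < k, chk V T (a, u) = true ∧
      (∀ u' < u, chk V T (a, u') = false) ∧ z = cand (a, u) := by
  induction k with
  | zero => simp [srch_zero]
  | succ k ih =>
    by_cases h : ∃ u < k, chk V T (a, u) = true
    · -- least one
      have hex : ∃ u, chk V T (a, u) = true := ⟨h.choose, h.choose_spec.2⟩
      classical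
      obtain ⟨hlt, htrue, hmin⟩ : Nat.find hex < k ∧ chk V T (a, Nat.find hex) = true ∧
          ∀ u' < Nat.find hex, chk V T (a, u') = false :=
        ⟨lt_of_le_of_lt (Nat.find_min' hex h.choose_spec.2) h.choose_spec.1, Nat.find_spec hex,
          fun u' hu' => by simpa using Nat.find_min hex hu'⟩
      have h2 : srch V T (a, k) = some (cand (a, Nat.find hex)) := by
        have : ∀ j, Nat.find hex < j → srch V T (a, j) = some (cand (a, Nat.find hex)) := by
          intro j hj
          induction j with
          | zero => omega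
          | succ j ihj =>
            rw [srch_succ]
            rcases Nat.lt_succ_iff_lt_or_eq.1 hj with hj | hj
            · rw [ihj hj]
            · rw [← hj, srch_eq_none V T a _ hmin]
              simp only
              rw [htrue]
              rfl
        exact this k hlt
      rw [srch_succ, h2]
      simp only [Option.some.injEq]
      constructor
      · rintro rfl
        exact ⟨_, by omega, htrue, hmin, rfl⟩
      · rintro ⟨u, hu, h3, h4, rfl⟩
        have : u = Nat.find hex := by
          apply le_antisymm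
          · by_contra hcon
            push Not at hcon
            have := h4 _ hcon
            rw [htrue] at this
            exact absurd this (by simp)
          · exact Nat.find_min' hex h3
        rw [this]
    · push Not at h
      have h' : ∀ u < k, chk V T (a, u) = false := fun u hu => by simpa using h u hu
      rw [srch_succ, srch_eq_none V T a k h']
      simp only
      by_cases hk : chk V T (a, k) = true
      · rw [hk, cond_true, Option.some.injEq]
        constructor
        · rintro rfl
          exact ⟨k, by omega, hk, h', rfl⟩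
        · rintro ⟨u, hu, h3, h4, rfl⟩
          have : u = k := by
            by_contra hne
            exact absurd (h' u (by omega)) (by rw [h3]; simp)
          rw [this]
      · have hk' : chk V T (a, k) = false := by simpa using hk
        rw [hk', cond_false]
        constructor
        · intro h; exact absurd h (by simp)
        · rintro ⟨u, hu, h3, h4, rfl⟩
          exfalso
          rcases Nat.lt_succ_iff_lt_or_eq.1 hu with hu | hu
          · exact absurd (h' u hu) (by rw [h3]; simp)
          · rw [hu] at h3; exact hk h3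

/-- the construction -/
def iter (y0 : List ℕ) (q : List Bool × ℕ) : Option (List ℕ) :=
  Nat.rec (motive := fun _ => Option (List ℕ)) (some y0)
    (fun s r => r.bind (fun y => srch V T ((q.1, s, y), q.1.length))) q.2

theorem comp_iter (hV : Primrec V) (hT : Computable T) (y0 : List ℕ) :
    Computable (iter V T y0) := by
  have hσ : Computable (fun p : ((List Bool × ℕ) × (ℕ × Option (List ℕ))) × List ℕ => p.1.1.1) :=
    Computable.fst.comp (Computable.fst.comp Computable.fst)
  have hin : Computable (fun p : ((List Bool × ℕ) × (ℕ × Option (List ℕ))) × List ℕ =>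
      ((p.1.1.1, p.1.2.1, p.2), p.1.1.1.length)) :=
    (hσ.pair ((Computable.fst.comp (Computable.snd.comp Computable.fst)).pair
      Computable.snd)).pair (Primrec.list_length.to_comp.comp hσ)
  have hk := Computable.option_bind
    (f := fun a : (List Bool × ℕ) × (ℕ × Option (List ℕ)) => a.2.2)
    (g := fun a y => srch V T ((a.1.1, a.2.1, y), a.1.1.length))
    (Computable.snd.comp Computable.snd) ((comp_srch V T hV hT).comp hin).to₂
  exact Computable.nat_rec (f := fun q : List Bool × ℕ => q.2)
    (g := fun _ => (some y0 : Option (List ℕ)))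
    (h := fun (q : List Bool × ℕ) (p : ℕ × Option (List ℕ)) =>
      p.2.bind (fun y => srch V T ((q.1, p.1, y), q.1.length)))
    Computable.snd (Computable.const (some y0)) hk

theorem iter_zero (y0 : List ℕ) (σ : List Bool) : iter V T y0 (σ, 0) = some y0 := rfl

theorem iter_succ (y0 : List ℕ) (σ : List Bool) (s : ℕ) : iter V T y0 (σ, s + 1) =
    (iter V T y0 (σ, s)).bind (fun y => srch V T ((σ, s, y), σ.length)) := rfl

end comp

theorem strOf_length (B : Set ℕ) (N : ℕ) : (strOf B N).length = N := by simp [strOf]

open Classical in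
theorem strOf_getD (B : Set ℕ) {N i : ℕ} (hi : i < N) :
    (strOf B N).getD i false = decide (i ∈ B) := by
  rw [List.getD_eq_getElem _ _ (by rw [strOf_length]; exact hi)]
  simp [strOf]

theorem ostr_strOf (B : Set ℕ) (N s : ℕ) (y : List ℕ) (u : ℕ) (hu : u < N) :
    ostr ((strOf B N, s, y), u) = strOf B u.unpair.1 := by
  have hn : u.unpair.1 ≤ u := Nat.unpair_left_le u
  unfold ostr
  show _ = (List.range u.unpair.1).map _
  apply List.map_congr_left
  intro i hi
  have hi' : i < u.unpair.1 := List.mem_range.1 hi
  exact strOf_getD B (by omega)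

theorem asg_list (M g : ℕ) (z : List ℕ) (i : ℕ) (hi : i ≤ g) :
    ((List.range (g + 1)).map (asg M z)).getD i 0 = asg M z i := by
  rw [List.getD_eq_getElem _ _ (by simp; omega)]
  simp

theorem chk_iff {A : Str} {B : Set ℕ}
    {V : ℕ × (List Bool × ℕ × ℕ × ℕ) → Bool} {T : ℕ × List ℕ → Bool}
    (hT : ∀ (m : ℕ) (l : List ℕ), T (m, l) = true ↔ Tr L A m (fun i => l.getD i 0))
    (N s : ℕ) (y : List ℕ) (u : ℕ) (hu : u < N) :
    chk V T ((strOf B N, s, y), u) = true ↔
      s ∈ y ++ (wit u).1 ∧ s < (y ++ (wit u).1).length ∧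
      V ((wit u).2.2.2, (strOf B u.unpair.1, (y ++ (wit u).1).length, (wit u).2.1,
        (wit u).2.2.1)) = true ∧
      Tr L A (wit u).2.1 (asg (wit u).2.2.1 (y ++ (wit u).1)) := by
  unfold chk
  rw [ostr_strOf B N s y u hu, Bool.and_eq_true, Bool.and_eq_true, Bool.and_eq_true,
    decide_eq_true_eq, decide_eq_true_eq, hT, List.idxOf_lt_length_iff]
  have h1 : cand ((strOf B N, s, y), u) = y ++ (wit u).1 := rfl
  rw [h1]
  have h2 : Tr L A (wit u).2.1 (fun i => ((List.range ((wit u).2.1 + 1)).map
      (asg (wit u).2.2.1 (y ++ (wit u).1))).getD i 0) ↔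
      Tr L A (wit u).2.1 (asg (wit u).2.2.1 (y ++ (wit u).1)) :=
    Tr_congr _ _ _ (fun i hi => asg_list _ _ _ i hi)
  rw [h2]
  tauto

theorem back_forth (L : CLang) (S A : Str) (B : Set ℕ) (k0 : ℕ) (hk0 : 1 ≤ k0)
    (E : List Bool × ℕ × ℕ × ℕ → Prop) (hE : REPred E)
    (sound1 : ∀ n K g M, E (strOf B n, K, g, M) → k0 ≤ K ∧ Tr L S g (asg M (List.range K)))
    (sound2 : ∀ n K g M, E (strOf B n, K, g, M) → ∀ x : List ℕ, x.length = K →
      (∀ l < k0, x.getD l 0 = l) → Tr L S g (asg M x) → ElemMap L S S K x)
    (complete : ∀ K, k0 ≤ K → ∃ n g M, E (strOf B n, K, g, M))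
    (hA : DecStr L A) (hiso : ∃ h, IsIso L A S h) :
    ∃ f, IsIso L A S f ∧ FunLe f B := by
  classical
  obtain ⟨V, hV, hVE⟩ := RE.normal hE
  obtain ⟨T, hTc, hT0⟩ := hA
  have hT : ∀ (m : ℕ) (l : List ℕ), T (m, l) = true ↔ Tr L A m (fun i => l.getD i 0) := by
    intro m l
    have := hT0 (ofCode m) l
    rw [code_ofCode] at this
    exact this
  obtain ⟨h, hh⟩ := hiso
  obtain ⟨a, ha⟩ : ∃ a : ℕ → ℕ, ∀ l, h (a l) = l :=
    ⟨Function.surjInv hh.1.2, Function.surjInv_eq hh.1.2⟩
  have hinv : ∀ x, a (h x) = x := by
    intro x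
    apply hh.1.1
    rw [ha]
  have hI : Iso L S k0 (fun n K g M => E (strOf B n, K, g, M)) := ⟨sound1, sound2, complete⟩
  set y0 : List ℕ := (List.range k0).map a with hy0
  have hgood0 : Good L S A k0 a 0 y0 := by
    refine ⟨by simp [hy0], ?_, ?_, Nat.zero_le _, fun b hb => absurd hb (Nat.not_lt_zero b)⟩
    · intro l hl
      rw [hy0, List.getD_eq_getElem _ _ (by simpa using hl)]
      simp
    · have h1 : ElemMap L S S k0 (List.range k0) := by
        intro m ρ hρ
        have : (fun i => (List.range k0).getD (ρ i) 0) = ρ := by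
          funext i
          rw [List.getD_eq_getElem _ _ (by simpa using hρ i)]
          simp
        rw [this]
      have h2 := ElemMap.map (hh.symm hinv) (by simp) h1
      have h3 : y0.length = k0 := by simp [hy0]
      rw [h3]
      exact h2
  -- soundness
  have hsound : ∀ N s y, iter V T y0 (strOf B N, s) = some y → Good L S A k0 a s y := by
    intro N s
    induction s with
    | zero =>
      intro y hy
      rw [iter_zero, Option.some.injEq] at hy
      rw [← hy]; exact hgood0
    | succ s ih =>
      intro y hy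
      rw [iter_succ, Option.bind_eq_some_iff] at hy
      obtain ⟨y', hy', hs⟩ := hy
      rw [strOf_length, srch_spec] at hs
      obtain ⟨u, hu, hc, -, rfl⟩ := hs
      rw [chk_iff (B := B) hT N s y' u hu] at hc
      obtain ⟨h1, h2, h3, h4⟩ := hc
      exact Good.ext_good hI hh ha (ih y' hy') h1 h2 ((hVE _).2 ⟨_, h3⟩) h4
  -- the check does not depend on the length of the oracle string
  have hchk : ∀ N N' s y u, u < N → u < N' →
      chk V T ((strOf B N, s, y), u) = chk V T ((strOf B N', s, y), u) := by
    intro N N' s y u h1 h2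
    rw [Bool.eq_iff_iff, chk_iff (B := B) hT N s y u h1,
      chk_iff (B := B) hT N' s y u h2]
  -- monotonicity
  have hmono : ∀ N N', N ≤ N' → ∀ s y, iter V T y0 (strOf B N, s) = some y →
      iter V T y0 (strOf B N', s) = some y := by
    intro N N' hNN s
    induction s with
    | zero => intro y hy; exact hy
    | succ s ih =>
      intro y hy
      rw [iter_succ, Option.bind_eq_some_iff] at hy ⊢
      obtain ⟨y', hy', hs⟩ := hy
      refine ⟨y', ih y' hy', ?_⟩
      rw [strOf_length, srch_spec] at hs ⊢
      obtain ⟨u, hu, hc, hmin, rfl⟩ := hs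
      refine ⟨u, by omega, ?_, ?_, rfl⟩
      · rw [← hchk N N' s y' u hu (by omega)]; exact hc
      · intro u' hu'
        rw [← hchk N N' s y' u' (by omega) (by omega)]
        exact hmin u' hu'
  -- existence
  have hexist : ∀ s, ∃ N y, iter V T y0 (strOf B N, s) = some y := by
    intro s
    induction s with
    | zero => exact ⟨0, y0, rfl⟩
    | succ s ih =>
      obtain ⟨N, y, hy⟩ := ih
      obtain ⟨e, n, g, M, h1, h2, h3, h4⟩ := (hsound N s y hy).exists_ext hk0 hI hh ha
      obtain ⟨w, hw⟩ := (hVE _).1 h3
      set u0 := Nat.pair n (Encodable.encode ((e, g, M, w) : List ℕ × ℕ × ℕ × ℕ)) with hu0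
      set N' := max N (u0 + 1) with hN'
      have hu0N : u0 < N' := lt_of_lt_of_le (Nat.lt_succ_self _) (le_max_right _ _)
      have hy' := hmono N N' (le_max_left _ _) s y hy
      have hc : chk V T ((strOf B N', s, y), u0) = true := by
        rw [chk_iff (B := B) hT N' s y u0 hu0N, hu0, wit_pair, Nat.unpair_pair]
        exact ⟨h1, h2, hw, h4⟩
      have hex : ∃ u, chk V T ((strOf B N', s, y), u) = true := ⟨u0, hc⟩
      refine ⟨N', cand ((strOf B N', s, y), Nat.find hex), ?_⟩
      rw [iter_succ, hy', Option.bind_some, strOf_length, srch_spec]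
      exact ⟨Nat.find hex, lt_of_le_of_lt (Nat.find_min' hex hc) hu0N, Nat.find_spec hex,
        fun u' hu' => by simpa using Nat.find_min hex hu', rfl⟩
  have huniq : ∀ N N' s y y', iter V T y0 (strOf B N, s) = some y →
      iter V T y0 (strOf B N', s) = some y' → y = y' := by
    intro N N' s y y' h1 h2
    have h3 := hmono N (max N N') (le_max_left _ _) s y h1
    have h4 := hmono N' (max N N') (le_max_right _ _) s y' h2
    rw [h3, Option.some.injEq] at h4
    exact h4
  choose NN Y hY using hexist
  have hYgood : ∀ s, Good L S A k0 a s (Y s) := fun s => hsound _ _ _ (hY s)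
  have hYsucc : ∀ s, Y s <+: Y (s + 1) := by
    intro s
    have h1 := hY (s + 1)
    rw [iter_succ, Option.bind_eq_some_iff] at h1
    obtain ⟨y', hy', hs⟩ := h1
    have h2 := huniq _ _ s _ _ hy' (hY s)
    subst h2
    rw [srch_spec] at hs
    obtain ⟨u, -, -, -, h3⟩ := hs
    exact ⟨(wit u).1, h3.symm⟩
  have hYmono : ∀ s t, s ≤ t → Y s <+: Y t := by
    intro s t hst
    induction hst with
    | refl => exact List.prefix_rfl
    | step _ ih => exact ih.trans (hYsucc _)
  have hidx : ∀ s t x, s ≤ t → x ∈ Y s → List.idxOf x (Y t) = List.idxOf x (Y s) := by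
    intro s t x hst hx
    obtain ⟨e, he⟩ := hYmono s t hst
    rw [← he, List.idxOf_append_of_mem hx]
  -- distinct entries
  have hnodup : ∀ s, (Y s).Nodup := by
    intro s
    rw [List.nodup_iff_getElem?_ne_getElem?]
    intro i j hij hj heq
    have hi : i < (Y s).length := by omega
    have h1 := (hYgood s).he (cEq 0 1) (fun k => if k = 0 then i else j) (by
      intro k; split_ifs <;> assumption)
    rw [Tr_eq, Tr_eq] at h1
    simp only [if_true, one_ne_zero, if_false] at h1
    have h2 : i = j := by
      apply h1.2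
      rw [List.getElem?_eq_getElem hi, List.getElem?_eq_getElem hj, Option.some.injEq] at heq
      rw [List.getD_eq_getElem _ _ hi, List.getD_eq_getElem _ _ hj, heq]
    omega
  have hmem : ∀ x s, x < s → x ∈ Y s := fun x s hx => (hYgood s).hm x hx
  let f : ℕ → ℕ := fun x => List.idxOf x (Y (x + 1))
  have hf : ∀ x s, x < s → f x = List.idxOf x (Y s) :=
    fun x s hx => (hidx (x + 1) s x hx (hmem x (x + 1) (Nat.lt_succ_self x))).symm
  have hflt : ∀ x s, x < s → f x < (Y s).length := by
    intro x s hx
    rw [hf x s hx]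
    exact List.idxOf_lt_length_of_mem (hmem x s hx)
  have hfget : ∀ x s, x < s → (Y s).getD (f x) 0 = x := by
    intro x s hx
    have h1 := hflt x s hx
    rw [List.getD_eq_getElem _ _ h1]
    have h2 : (Y s)[f x] = (Y s)[List.idxOf x (Y s)]'(by rw [← hf x s hx]; exact h1) := by
      congr 1
      exact hf x s hx
    rw [h2, List.getElem_idxOf]
  have hbij : Function.Bijective f := by
    constructor
    · intro x x' hxx
      have h1 := hfget x (max x x' + 1) (by omega)
      have h2 := hfget x' (max x x' + 1) (by omega)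
      rw [← h1, hxx, h2]
    · intro b
      have hlen : b < (Y (b + 1)).length := lt_of_lt_of_le (Nat.lt_succ_self b) (hYgood (b + 1)).hs
      set x := (Y (b + 1))[b] with hx
      refine ⟨x, ?_⟩
      set t := max (b + 1) (x + 1) with ht
      have hbt : b < (Y t).length := by
        have := (hYgood t).hs
        omega
      have hxt : (Y t)[b] = x := by
        obtain ⟨e, he⟩ := hYmono (b + 1) t (le_max_left _ _)
        have : (Y t)[b]? = some x := by
          rw [← he, List.getElem?_append_left hlen, List.getElem?_eq_getElem hlen]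
        rw [List.getElem?_eq_getElem hbt, Option.some.injEq] at this
        exact this
      rw [hf x t (by omega), ← hxt]
      exact List.Nodup.idxOf_getElem (hnodup t) b hbt
  refine ⟨f, iso_of_Tr hbij ?_, ?_⟩
  · intro m v
    -- a stage after which all relevant elements are present
    obtain ⟨s, hs⟩ : ∃ s, ∀ i ≤ m, v i < s := by
      obtain ⟨s, hs⟩ := Finset.exists_nat_subset_range ((Finset.range (m + 1)).image v)
      exact ⟨s, fun i hi => Finset.mem_range.1 (hs (Finset.mem_image_of_mem v
        (Finset.mem_range.2 (by omega))))⟩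
    have hpos : 0 < (Y s).length := by have := (hYgood s).hk; omega
    have h1 := (hYgood s).he m (fun i => if i ≤ m then f (v i) else 0) (by
      intro i
      split_ifs with hi
      · exact hflt _ _ (hs i hi)
      · exact hpos)
    rw [Tr_congr m (fun i => if i ≤ m then f (v i) else 0) (f ∘ v) (by
      intro i hi
      simp only [if_pos hi, Function.comp])] at h1
    rw [h1]
    apply Tr_congr
    intro i hi
    simp only [if_pos hi]
    exact (hfget _ _ (hs i hi)).symm
  · apply funLe_of_re B f (fun q => (iter V T y0 (q.1, q.2.1 + 1)).map (List.idxOf q.2.1) =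
      some q.2.2)
    · have h1 : Computable (fun q : List Bool × ℕ × ℕ =>
          (iter V T y0 (q.1, q.2.1 + 1)).map (List.idxOf q.2.1)) := by
        apply Computable.option_map
        · exact (comp_iter V T hV hTc y0).comp (Computable.fst.pair
            (Computable.succ.comp (Computable.fst.comp Computable.snd)))
        · exact (Primrec.list_idxOf.to_comp.comp
            (Computable.fst.comp (Computable.snd.comp Computable.fst)) Computable.snd).to₂
      have h2 : Computable (fun q : List Bool × ℕ × ℕ =>
          decide ((iter V T y0 (q.1, q.2.1 + 1)).map (List.idxOf q.2.1) = some q.2.2)) :=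
        (Primrec.eq (α := Option ℕ)).decide.to_comp.comp h1
          (Computable.option_some.comp (Computable.snd.comp Computable.snd))
      have h3 := RE.of_bool h2
      refine REPred.of_eq h3 ?_
      intro q
      simp
    · intro x y
      constructor
      · intro hxy
        refine ⟨NN (x + 1), ?_⟩
        show (iter V T y0 (strOf B (NN (x + 1)), x + 1)).map (List.idxOf x) = some y
        rw [hY (x + 1), Option.map_some, ← hxy]
      · rintro ⟨n, hn⟩
        rw [Option.map_eq_some_iff] at hn
        obtain ⟨z, hz, hzy⟩ := hn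
        have h1 := huniq _ _ _ _ _ hz (hY (x + 1))
        rw [h1] at hzy
        exact hzy

end Pool.Agent.Lib.MP95a9c1
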