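import Mathlib

/-!
Primitive recursive functions: closure lemmas set up for `fun_prop`.
-/

namespace Pool.Agent.Lib.MP95a9c1.P

open Encodable

variable {α β γ δ : Type} [Primcodable α] [Primcodable β] [Primcodable γ] [Primcodable δ]

attribute [fun_prop] Primrec

@[fun_prop] theorem id' : Primrec (fun x : α => x) := Primrec.id
@[fun_prop] theorem const (c : β) : Primrec (fun _ : α => c) := Primrec.const c
@[fun_prop] theorem comp {f : β → γ} {g : α → β} (hf : Primrec f) (hg : Primrec g) :
    Primrec (fun x => f (g x)) := hf.comp hg
@[fun_prop] theorem pair {f : α → β} {g : α → γ} (hf : Primrec f) (hg : Primrec g) :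
    Primrec (fun x => (f x, g x)) := hf.pair hg
@[fun_prop] theorem fst {f : α → β × γ} (hf : Primrec f) : Primrec (fun x => (f x).1) :=
  Primrec.fst.comp hf
@[fun_prop] theorem snd {f : α → β × γ} (hf : Primrec f) : Primrec (fun x => (f x).2) :=
  Primrec.snd.comp hf

/-! ### Numbers -/

@[fun_prop] theorem add {f g : α → ℕ} (hf : Primrec f) (hg : Primrec g) :
    Primrec (fun x => f x + g x) := Primrec.nat_add.comp hf hg
@[fun_prop] theorem mul {f g : α → ℕ} (hf : Primrec f) (hg : Primrec g) :
    Primrec (fun x => f x * g x) := Primrec.nat_mul.comp hf hg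
@[fun_prop] theorem sub {f g : α → ℕ} (hf : Primrec f) (hg : Primrec g) :
    Primrec (fun x => f x - g x) := Primrec.nat_sub.comp hf hg
@[fun_prop] theorem div {f g : α → ℕ} (hf : Primrec f) (hg : Primrec g) :
    Primrec (fun x => f x / g x) := Primrec.nat_div.comp hf hg
@[fun_prop] theorem mod {f g : α → ℕ} (hf : Primrec f) (hg : Primrec g) :
    Primrec (fun x => f x % g x) := Primrec.nat_mod.comp hf hg
@[fun_prop] theorem npair {f g : α → ℕ} (hf : Primrec f) (hg : Primrec g) :
    Primrec (fun x => Nat.pair (f x) (g x)) := Primrec₂.natPair.comp hf hg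
@[fun_prop] theorem unpair {f : α → ℕ} (hf : Primrec f) :
    Primrec (fun x => Nat.unpair (f x)) := Primrec.unpair.comp hf

/-! ### Booleans -/

@[fun_prop] theorem dlt {f g : α → ℕ} (hf : Primrec f) (hg : Primrec g) :
    Primrec (fun x => decide (f x < g x)) := (Primrec.nat_lt.comp hf hg).decide
@[fun_prop] theorem dle {f g : α → ℕ} (hf : Primrec f) (hg : Primrec g) :
    Primrec (fun x => decide (f x ≤ g x)) := (Primrec.nat_le.comp hf hg).decide
@[fun_prop] theorem deq [DecidableEq β] {f g : α → β} (hf : Primrec f) (hg : Primrec g) :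
    Primrec (fun x => decide (f x = g x)) := (Primrec.eq.comp hf hg).decide
@[fun_prop] theorem band {f g : α → Bool} (hf : Primrec f) (hg : Primrec g) :
    Primrec (fun x => f x && g x) := Primrec.and.comp hf hg
@[fun_prop] theorem bor {f g : α → Bool} (hf : Primrec f) (hg : Primrec g) :
    Primrec (fun x => f x || g x) := Primrec.or.comp hf hg
@[fun_prop] theorem bnot {f : α → Bool} (hf : Primrec f) :
    Primrec (fun x => !(f x)) := Primrec.not.comp hf
theorem cond {c : α → Bool} {f g : α → β} (hc : Primrec c) (hf : Primrec f)
    (hg : Primrec g) : Primrec (fun x => bif c x then f x else g x) := Primrec.cond hc hf hg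
@[fun_prop] theorem ite_bool {c : α → Bool} {f g : α → β} (hc : Primrec c) (hf : Primrec f)
    (hg : Primrec g) : Primrec (fun x => if c x = true then f x else g x) := by
  have := Primrec.cond hc hf hg
  refine this.of_eq ?_
  intro x
  cases c x <;> simp

@[fun_prop] theorem dnot {c : α → Prop} [DecidablePred c]
    (hc : Primrec (fun x => decide (c x))) : Primrec (fun x => decide (¬ c x)) :=
  (Primrec.not.comp hc).of_eq (fun x => by simp)
@[fun_prop] theorem dand {c d : α → Prop} [DecidablePred c] [DecidablePred d]
    (hc : Primrec (fun x => decide (c x))) (hd : Primrec (fun x => decide (d x))) :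
    Primrec (fun x => decide (c x ∧ d x)) :=
  (Primrec.and.comp hc hd).of_eq (fun x => by simp)
@[fun_prop] theorem dor {c d : α → Prop} [DecidablePred c] [DecidablePred d]
    (hc : Primrec (fun x => decide (c x))) (hd : Primrec (fun x => decide (d x))) :
    Primrec (fun x => decide (c x ∨ d x)) :=
  (Primrec.or.comp hc hd).of_eq (fun x => by simp)
@[fun_prop] theorem dimp {c d : α → Prop} [DecidablePred c] [DecidablePred d]
    (hc : Primrec (fun x => decide (c x))) (hd : Primrec (fun x => decide (d x))) :
    Primrec (fun x => decide (c x → d x)) :=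
  (Primrec.or.comp (Primrec.not.comp hc) hd).of_eq (fun x => by
    by_cases h : c x <;> by_cases h' : d x <;> simp [h, h'])
@[fun_prop] theorem dtrue {c : α → Bool} (hc : Primrec c) :
    Primrec (fun x => decide (c x = true)) := hc.of_eq (fun x => by simp)

/-! ### Options -/

@[fun_prop] theorem some {f : α → β} (hf : Primrec f) : Primrec (fun x => some (f x)) :=
  Primrec.option_some.comp hf
@[fun_prop] theorem isSome {f : α → Option β} (hf : Primrec f) :
    Primrec (fun x => (f x).isSome) := Primrec.option_isSome.comp hf
@[fun_prop] theorem ogetD {f : α → Option β} {g : α → β} (hf : Primrec f) (hg : Primrec g) :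
    Primrec (fun x => (f x).getD (g x)) := Primrec.option_getD.comp hf hg

/-! ### Lists -/

@[fun_prop] theorem cons {f : α → β} {g : α → List β} (hf : Primrec f) (hg : Primrec g) :
    Primrec (fun x => f x :: g x) := Primrec.list_cons.comp hf hg
@[fun_prop] theorem append {f g : α → List β} (hf : Primrec f) (hg : Primrec g) :
    Primrec (fun x => f x ++ g x) := Primrec.list_append.comp hf hg
@[fun_prop] theorem length {f : α → List β} (hf : Primrec f) :
    Primrec (fun x => (f x).length) := Primrec.list_length.comp hf
@[fun_prop] theorem reverse {f : α → List β} (hf : Primrec f) :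
    Primrec (fun x => (f x).reverse) := Primrec.list_reverse.comp hf
@[fun_prop] theorem range {f : α → ℕ} (hf : Primrec f) :
    Primrec (fun x => List.range (f x)) := Primrec.list_range.comp hf
@[fun_prop] theorem take {f : α → ℕ} {g : α → List β} (hf : Primrec f) (hg : Primrec g) :
    Primrec (fun x => (g x).take (f x)) := Primrec.list_take.comp hf hg
theorem lgetD {f : α → List β} {g : α → ℕ} (d : β) (hf : Primrec f)
    (hg : Primrec g) : Primrec (fun x => (f x).getD (g x) d) :=
  (Primrec.list_getD d).comp hf hg
@[fun_prop] theorem lgetD' {f : α → List β} {g : α → ℕ} {d : α → β} (hf : Primrec f)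
    (hg : Primrec g) (hd : Primrec d) : Primrec (fun x => (f x).getD (g x) (d x)) := by
  have : Primrec (fun x => ((f x)[g x]?).getD (d x)) :=
    Primrec.option_getD.comp (Primrec.list_getElem?.comp hf hg) hd
  refine this.of_eq ?_
  intro x
  simp
@[fun_prop] theorem lookup [DecidableEq β] {f : α → β} {g : α → List (β × γ)} (hf : Primrec f)
    (hg : Primrec g) : Primrec (fun x => (g x).lookup (f x)) := Primrec.listLookup.comp hf hg

@[fun_prop] theorem map {f : α → List β} {g : α → β → γ} (hf : Primrec f)
    (hg : Primrec (fun z : α × β => g z.1 z.2)) : Primrec (fun x => (f x).map (g x)) :=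
  Primrec.list_map hf hg.to₂

@[fun_prop] theorem filterB {f : α → List β} {g : α → β → Bool} (hf : Primrec f)
    (hg : Primrec (fun z : α × β => g z.1 z.2)) : Primrec (fun x => (f x).filter (g x)) := by
  have h1 : Primrec (fun x => (f x).filterMap
      (fun b => bif g x b then Option.some b else none)) := by
    apply Primrec.listFilterMap hf
    apply Primrec₂.mk
    exact Primrec.cond hg (Primrec.option_some.comp Primrec.snd) (Primrec.const none)
  refine h1.of_eq ?_
  intro x
  induction f x with
  | nil => simp
  | cons a l ih =>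
    rw [List.filterMap_cons]
    by_cases h : g x a = true
    · simp [h, ih]
    · simp only [Bool.not_eq_true] at h
      simp [h, ih]

@[fun_prop] theorem foldr {f : α → List β} {g : α → β → γ → γ} {c : α → γ} (hf : Primrec f)
    (hg : Primrec (fun z : α × β × γ => g z.1 z.2.1 z.2.2)) (hc : Primrec c) :
    Primrec (fun x => (f x).foldr (g x) (c x)) :=
  Primrec.list_foldr hf hc hg.to₂

@[fun_prop] theorem flatMap {f : α → List β} {g : α → β → List γ} (hf : Primrec f)
    (hg : Primrec (fun z : α × β => g z.1 z.2)) : Primrec (fun x => (f x).flatMap (g x)) :=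
  Primrec.list_flatMap hf hg.to₂

@[fun_prop] theorem all {f : α → List β} {g : α → β → Bool} (hf : Primrec f)
    (hg : Primrec (fun z : α × β => g z.1 z.2)) : Primrec (fun x => (f x).all (g x)) := by
  have h1 : Primrec (fun x => (f x).foldr (fun b acc => g x b && acc) true) := by
    apply foldr hf _ (const true)
    exact Primrec.and.comp (hg.comp (Primrec.fst.pair (Primrec.fst.comp Primrec.snd)))
      (Primrec.snd.comp Primrec.snd)
  refine h1.of_eq ?_
  intro x
  induction f x with
  | nil => rfl
  | cons a l ih => simp [ih]

@[fun_prop] theorem any {f : α → List β} {g : α → β → Bool} (hf : Primrec f)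
    (hg : Primrec (fun z : α × β => g z.1 z.2)) : Primrec (fun x => (f x).any (g x)) := by
  have h1 : Primrec (fun x => (f x).foldr (fun b acc => g x b || acc) false) := by
    apply foldr hf _ (const false)
    exact Primrec.or.comp (hg.comp (Primrec.fst.pair (Primrec.fst.comp Primrec.snd)))
      (Primrec.snd.comp Primrec.snd)
  refine h1.of_eq ?_
  intro x
  induction f x with
  | nil => rfl
  | cons a l ih => simp [ih]

@[fun_prop] theorem sum {f : α → List ℕ} (hf : Primrec f) : Primrec (fun x => (f x).sum) := by
  have h1 : Primrec (fun x => (f x).foldr (fun b acc => b + acc) 0) := by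
    apply foldr hf _ (const 0)
    fun_prop
  refine h1.of_eq ?_
  intro x
  induction f x with
  | nil => rfl
  | cons a l ih => simp [ih]

@[fun_prop] theorem dmem [DecidableEq β] {f : α → β} {g : α → List β} (hf : Primrec f)
    (hg : Primrec g) : Primrec (fun x => decide (f x ∈ g x)) := by
  have h1 : Primrec (fun x => (g x).any (fun b => decide (b = f x))) := by
    apply any hg
    exact (Primrec.eq.comp Primrec.snd (hf.comp Primrec.fst)).decide
  refine h1.of_eq ?_
  intro x
  rw [Bool.eq_iff_iff]
  simp

/-! ### Coding -/

@[fun_prop] theorem encode' {f : α → β} (hf : Primrec f) : Primrec (fun x => encode (f x)) :=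
  Primrec.encode.comp hf
@[fun_prop] theorem decode' {f : α → ℕ} (hf : Primrec f) :
    Primrec (fun x => decode (α := β) (f x)) := Primrec.decode.comp hf

@[fun_prop] theorem evaln {f : α → ℕ} {g : α → ℕ} {h : α → ℕ} (hf : Primrec f) (hg : Primrec g)
    (hh : Primrec h) :
    Primrec (fun x => Nat.Partrec.Code.evaln (f x) (Denumerable.ofNat Nat.Partrec.Code (g x))
      (h x)) :=
  Nat.Partrec.Code.primrec_evaln.comp
    ((hf.pair ((Primrec.ofNat Nat.Partrec.Code).comp hg)).pair hh)

end Pool.Agent.Lib.MP95a9c1.P
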