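import Mathlib
import Pool.Agent.Lib.MP_95a9c1_lc.Syntax
import Pool.Agent.Lib.MP_95a9c1_lc.PrimLib

/-!
The construction of `A`, `B` and of the copies: definitions and primitive recursiveness.
-/

namespace Pool.Agent.Lib.MP95a9c1

open Encodable Denumerable
open Nat.Partrec (Code)

@[fun_prop] theorem P_cEq {α : Type} [Primcodable α] {f g : α → ℕ} (hf : Primrec f) (hg : Primrec g) : Primrec (fun x => cEq (f x) (g x)) := by
  unfold cEq; fun_prop
@[fun_prop] theorem P_cNeg {α : Type} [Primcodable α] {f : α → ℕ} (hf : Primrec f) : Primrec (fun x => cNeg (f x)) := by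
  unfold cNeg; fun_prop
@[fun_prop] theorem P_cAnd {α : Type} [Primcodable α] {f g : α → ℕ} (hf : Primrec f) (hg : Primrec g) : Primrec (fun x => cAnd (f x) (g x)) := by
  unfold cAnd; fun_prop
@[fun_prop] theorem P_cEx {α : Type} [Primcodable α] {f g : α → ℕ} (hf : Primrec f) (hg : Primrec g) : Primrec (fun x => cEx (f x) (g x)) := by
  unfold cEx; fun_prop
@[fun_prop] theorem P_andL {α : Type} [Primcodable α] {f : α → List ℕ} (hf : Primrec f) : Primrec (fun x => andL (f x)) := by
  unfold andL; fun_prop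
@[fun_prop] theorem P_exL {α : Type} [Primcodable α] {f : α → List ℕ} {g : α → ℕ} (hf : Primrec f) (hg : Primrec g) : Primrec (fun x => exL (f x) (g x)) := by
  unfold exL; fun_prop
@[fun_prop] theorem P_facts {α : Type} [Primcodable α] {f : α → List Bool} (hf : Primrec f) : Primrec (fun x => facts (f x)) := by
  unfold facts; fun_prop
@[fun_prop] theorem P_distL {α : Type} [Primcodable α] {f : α → ℕ} (hf : Primrec f) : Primrec (fun x => distL (f x)) := by
  unfold distL; fun_prop
@[fun_prop] theorem P_eqsL {α : Type} [Primcodable α] {f : α → List ℕ} {g : α → ℕ} (hf : Primrec f) (hg : Primrec g) : Primrec (fun x => eqsL (f x) (g x)) := by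
  unfold eqsL; fun_prop
@[fun_prop] theorem P_gcode {α : Type} [Primcodable α] {f : α → List Bool} {g : α → List ℕ} {h : α → ℕ} (hf : Primrec f) (hg : Primrec g) (hh : Primrec h) : Primrec (fun x => gcode (f x) (g x) (h x)) := by
  unfold gcode; fun_prop
@[fun_prop] theorem P_chicode {α : Type} [Primcodable α] {f f' : α → List Bool} {g p : α → List ℕ} {h : α → ℕ} (hf : Primrec f) (hf' : Primrec f') (hg : Primrec g) (hh : Primrec h) (hp : Primrec p) : Primrec (fun x => chicode (f x) (f' x) (g x) (h x) (p x)) := by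
  unfold chicode; fun_prop

/-! ### Finitary permutations -/

/-- a transposition -/
def sw (p : ℕ × ℕ) (x : ℕ) : ℕ :=
  if decide (x = p.1) = true then p.2 else if decide (x = p.2) = true then p.1 else x

/-- the product of a list of transpositions -/
def ap (s : List (ℕ × ℕ)) (x : ℕ) : ℕ := s.foldr sw x

/-- its inverse -/
def api (s : List (ℕ × ℕ)) (x : ℕ) : ℕ := ap s.reverse x

@[fun_prop] theorem P_sw {α : Type} [Primcodable α] {f : α → ℕ × ℕ} {g : α → ℕ} (hf : Primrec f)
    (hg : Primrec g) : Primrec (fun x => sw (f x) (g x)) := by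
  unfold sw; fun_prop
@[fun_prop] theorem P_ap {α : Type} [Primcodable α] {f : α → List (ℕ × ℕ)} {g : α → ℕ}
    (hf : Primrec f) (hg : Primrec g) : Primrec (fun x => ap (f x) (g x)) := by
  unfold ap; fun_prop
@[fun_prop] theorem P_api {α : Type} [Primcodable α] {f : α → List (ℕ × ℕ)} {g : α → ℕ}
    (hf : Primrec f) (hg : Primrec g) : Primrec (fun x => api (f x) (g x)) := by
  unfold api; fun_prop

/-! ### States -/

/-- states: `A`, `B`, a counter, the stack of requirements, the permutations and the recorded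
truth values of the copies -/
abbrev St := List ℕ × List ℕ × ℕ × List (ℕ × Bool) × List (ℕ × List (ℕ × ℕ)) ×
  List (ℕ × List Bool)

def stA (st : St) : List ℕ := st.1
def stB (st : St) : List ℕ := st.2.1
def stN (st : St) : ℕ := st.2.2.1
def stK (st : St) : List (ℕ × Bool) := st.2.2.2.1
def stP (st : St) : List (ℕ × List (ℕ × ℕ)) := st.2.2.2.2.1
def stC (st : St) : List (ℕ × List Bool) := st.2.2.2.2.2
def gS (st : St) (i : ℕ) : List (ℕ × ℕ) := ((stP st).lookup i).getD []
def gC (st : St) (i : ℕ) : List Bool := ((stC st).lookup i).getD []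
def rq (st : St) (q : ℕ) : ℕ := ((stK st).getD q (0, true)).1
def fl (st : St) (q : ℕ) : Bool := ((stK st).getD q (0, true)).2

section
variable {α : Type} [Primcodable α]

@[fun_prop] theorem P_stA {f : α → St} (hf : Primrec f) : Primrec (fun x => stA (f x)) := by
  unfold stA; fun_prop
@[fun_prop] theorem P_stB {f : α → St} (hf : Primrec f) : Primrec (fun x => stB (f x)) := by
  unfold stB; fun_prop
@[fun_prop] theorem P_stN {f : α → St} (hf : Primrec f) : Primrec (fun x => stN (f x)) := by
  unfold stN; fun_prop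
@[fun_prop] theorem P_stK {f : α → St} (hf : Primrec f) : Primrec (fun x => stK (f x)) := by
  unfold stK; fun_prop
@[fun_prop] theorem P_stP {f : α → St} (hf : Primrec f) : Primrec (fun x => stP (f x)) := by
  unfold stP; fun_prop
@[fun_prop] theorem P_stC {f : α → St} (hf : Primrec f) : Primrec (fun x => stC (f x)) := by
  unfold stC; fun_prop
@[fun_prop] theorem P_gS {f : α → St} {g : α → ℕ} (hf : Primrec f) (hg : Primrec g) :
    Primrec (fun x => gS (f x) (g x)) := by
  unfold gS; fun_prop
@[fun_prop] theorem P_gC {f : α → St} {g : α → ℕ} (hf : Primrec f) (hg : Primrec g) :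
    Primrec (fun x => gC (f x) (g x)) := by
  unfold gC; fun_prop
@[fun_prop] theorem P_rq {f : α → St} {g : α → ℕ} (hf : Primrec f) (hg : Primrec g) :
    Primrec (fun x => rq (f x) (g x)) := by
  unfold rq; fun_prop
@[fun_prop] theorem P_fl {f : α → St} {g : α → ℕ} (hf : Primrec f) (hg : Primrec g) :
    Primrec (fun x => fl (f x) (g x)) := by
  unfold fl; fun_prop
end

/-! ### Computations -/

/-- `w` steps of the `i`-th candidate for a truth function -/
def Tn (i w m : ℕ) (l : List ℕ) : Option ℕ := Code.evaln w (ofNat Code i) (encode (m, l))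

/-- `w` steps of the enumeration of the `j`-th set of axioms -/
def Wn (j w : ℕ) (σ : List Bool) (x y : ℕ) : Bool :=
  (Code.evaln w (ofNat Code j) (encode (σ, x, y))).isSome

/-- an axiom about some initial segment of `σ` -/
def Wp (j w : ℕ) (σ : List Bool) (x y : ℕ) : Bool :=
  (List.range (σ.length + 1)).any (fun n => Wn j w (σ.take n) x y)

/-- `c` is a nonempty tuple of values of the functional at `0, 1, ...` -/
def cert (j w : ℕ) (σ : List Bool) (c : List ℕ) : Bool :=
  decide (0 < c.length) && (List.range c.length).all (fun l => Wp j w σ l (c.getD l 0))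

/-- `σ` can be reached by extraction of numbers that are at least `r` -/
def okS (st : St) (r : ℕ) (σ : List Bool) : Bool :=
  (List.range σ.length).all (fun x =>
    (!(σ.getD x false) || (decide (x ∈ stA st) && !(decide (x ∈ stB st)))) &&
    ((σ.getD x false) || (!(decide (x < r)) || (!(decide (x ∈ stA st)) || decide (x ∈ stB st)))))

def apl (s : List (ℕ × ℕ)) (n : ℕ) : List ℕ := (List.range n).map (ap s)
def asgL (M : ℕ) (x : List ℕ) (n : ℕ) : List ℕ := (List.range n).map (asg M x)
def Pl (s : List (ℕ × ℕ)) (r : ℕ) : List ℕ := List.range r ++ (List.range r).map (api s)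
def Mb (m : ℕ) (c P : List ℕ) : ℕ := m + 2 + (c.sum + P.sum)
def pas (s : List (ℕ × ℕ)) (P : List ℕ) (n : ℕ) : List ℕ :=
  (List.range n).map (fun b => if decide (b ∈ P) = true then ap s b else 0)

section
variable {α : Type} [Primcodable α]

@[fun_prop] theorem P_Tn {i w m : α → ℕ} {l : α → List ℕ} (hi : Primrec i) (hw : Primrec w)
    (hm : Primrec m) (hl : Primrec l) : Primrec (fun x => Tn (i x) (w x) (m x) (l x)) := by
  unfold Tn; fun_prop
@[fun_prop] theorem P_Wn {j w : α → ℕ} {σ : α → List Bool} {u v : α → ℕ} (hj : Primrec j)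
    (hw : Primrec w) (hσ : Primrec σ) (hu : Primrec u) (hv : Primrec v) :
    Primrec (fun x => Wn (j x) (w x) (σ x) (u x) (v x)) := by
  unfold Wn; fun_prop
@[fun_prop] theorem P_Wp {j w : α → ℕ} {σ : α → List Bool} {u v : α → ℕ} (hj : Primrec j)
    (hw : Primrec w) (hσ : Primrec σ) (hu : Primrec u) (hv : Primrec v) :
    Primrec (fun x => Wp (j x) (w x) (σ x) (u x) (v x)) := by
  unfold Wp; fun_prop
@[fun_prop] theorem P_cert {j w : α → ℕ} {σ : α → List Bool} {c : α → List ℕ} (hj : Primrec j)
    (hw : Primrec w) (hσ : Primrec σ) (hc : Primrec c) :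
    Primrec (fun x => cert (j x) (w x) (σ x) (c x)) := by
  unfold cert; fun_prop
@[fun_prop] theorem P_okS {st : α → St} {r : α → ℕ} {σ : α → List Bool} (hst : Primrec st)
    (hr : Primrec r) (hσ : Primrec σ) :
    Primrec (fun x => okS (st x) (r x) (σ x)) := by
  unfold okS; fun_prop
@[fun_prop] theorem P_asg {M : α → ℕ} {l : α → List ℕ} {n : α → ℕ} (hM : Primrec M)
    (hl : Primrec l) (hn : Primrec n) : Primrec (fun x => asg (M x) (l x) (n x)) := by
  unfold asg; fun_prop
@[fun_prop] theorem P_apl {s : α → List (ℕ × ℕ)} {n : α → ℕ} (hs : Primrec s) (hn : Primrec n) :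
    Primrec (fun x => apl (s x) (n x)) := by
  unfold apl; fun_prop
@[fun_prop] theorem P_asgL {M : α → ℕ} {l : α → List ℕ} {n : α → ℕ} (hM : Primrec M)
    (hl : Primrec l) (hn : Primrec n) : Primrec (fun x => asgL (M x) (l x) (n x)) := by
  unfold asgL; fun_prop
@[fun_prop] theorem P_Pl {s : α → List (ℕ × ℕ)} {n : α → ℕ} (hs : Primrec s) (hn : Primrec n) :
    Primrec (fun x => Pl (s x) (n x)) := by
  unfold Pl; fun_prop
@[fun_prop] theorem P_Mb {m : α → ℕ} {c p : α → List ℕ} (hm : Primrec m) (hc : Primrec c)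
    (hp : Primrec p) : Primrec (fun x => Mb (m x) (c x) (p x)) := by
  unfold Mb; fun_prop
@[fun_prop] theorem P_pas {s : α → List (ℕ × ℕ)} {p : α → List ℕ} {n : α → ℕ} (hs : Primrec s)
    (hp : Primrec p) (hn : Primrec n) : Primrec (fun x => pas (s x) (p x) (n x)) := by
  unfold pas; fun_prop
end

/-! ### Moves -/

/-- a requirement of the first kind acts -/
def vN (st : St) (q : ℕ) (σ : List Bool) (w : ℕ) : Bool :=
  decide (q % 2 = 0) && (!(fl st q) &&
    ((List.range σ.length).all (fun x => decide (σ.getD x false = decide (x ∈ stB st))) &&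
      Wn (q / 2) w σ (rq st q) 0))

def doN (st : St) (q : ℕ) (σ : List Bool) : St :=
  (rq st q :: stA st, stB st, stN st + σ.length + 1, (stK st).take q ++ [(rq st q, true)],
    stP st, stC st)

def qi (q : ℕ) : ℕ := (Nat.unpair (q / 2)).1
def qj (q : ℕ) : ℕ := (Nat.unpair (q / 2)).2

def agree (s s' : List (ℕ × ℕ)) (r : ℕ) : Bool :=
  (List.range r).all (fun x => decide (ap s' x = ap s x) && decide (api s' x = api s x))

def comOK (i w : ℕ) (s : List (ℕ × ℕ)) (com : List Bool) : Bool :=
  (List.range com.length).all (fun m =>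
    decide (Tn i w m (apl s (m + 1)) = some (encode (com.getD m false))))

/-- the new permutation: the old one if `b`, and `s'` otherwise -/
def newS (st : St) (q : ℕ) (b : Bool) (s' : List (ℕ × ℕ)) : List (ℕ × ℕ) :=
  if b = true then gS st (qi q) else s'

/-- a requirement of the second kind acts -/
def vR (st : St) (q : ℕ) (σ : List Bool) (c : List ℕ) (b : Bool) (s' : List (ℕ × ℕ))
    (θ M w : ℕ) : Bool :=
  decide (q % 2 = 1) && (!(fl st q) && (okS st (rq st q) σ && (cert (qj q) w σ c &&
    ((b || (agree (gS st (qi q)) s' (rq st q) && comOK (qi q) w s' (gC st (qi q)))) &&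
      ((Tn (qi q) w θ (asgL M (c.map (ap (newS st q b s'))) (θ + 1))).isSome &&
        ((Tn (qi q) w θ (asgL M (List.range c.length) (θ + 1))).isSome &&
          decide (¬ Tn (qi q) w θ (asgL M (c.map (ap (newS st q b s'))) (θ + 1)) =
            Tn (qi q) w θ (asgL M (List.range c.length) (θ + 1)))))))))

def doR (st : St) (q : ℕ) (σ : List Bool) (c : List ℕ) (b : Bool) (s' : List (ℕ × ℕ)) : St :=
  (stA st, stB st ++ (stA st).filter (fun x => decide (x < σ.length) && !(σ.getD x false)),
    stN st + σ.length + (c.sum + c.length) + 1, (stK st).take q ++ [(rq st q, true)],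
    (qi q, newS st q b s') :: stP st, stC st)

/-- the axioms `σ, c` are relevant for the copy number `i` and the requirement `q` -/
def elig (st : St) (i q : ℕ) (σ : List Bool) (c : List ℕ) (wc : ℕ) : Bool :=
  decide (q % 2 = 1) && (decide (qi q = i) && (!(fl st q) && (okS st (rq st q) σ &&
    (cert (qj q) wc σ c && (Pl (gS st i) (rq st q)).all (fun b => decide (b ∈ c))))))

def dz (d : ℕ) : ℕ × List Bool × List ℕ × ℕ :=
  (decode (α := ℕ × List Bool × List ℕ × ℕ) d).getD (0, [], [], 0)

def xcode (st : St) (i : ℕ) (v : Bool) (q : ℕ) (c : List ℕ) : ℕ :=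
  chicode (gC st i) (gC st i ++ [v]) c
    (Mb (gC st i).length c (Pl (gS st i) (rq st q))) (Pl (gS st i) (rq st q))

def xass (st : St) (i : ℕ) (q : ℕ) (c : List ℕ) : List ℕ :=
  pas (gS st i) (Pl (gS st i) (rq st q)) (Mb (gC st i).length c (Pl (gS st i) (rq st q)))

def noviol (st : St) (i w : ℕ) (v : Bool) (d : ℕ) : Bool :=
  !(decide (encode (dz d) = d) && elig st i (dz d).1 (dz d).2.1 (dz d).2.2.1 (dz d).2.2.2) ||
    decide (Tn i w (xcode st i v (dz d).1 (dz d).2.2.1) (xass st i (dz d).1 (dz d).2.2.1) =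
      some 0)

/-- a truth value is recorded -/
def vC (st : St) (i : ℕ) (v : Bool) (w : ℕ) : Bool :=
  decide (Tn i w (gC st i).length (apl (gS st i) ((gC st i).length + 1)) = some (encode v)) &&
    (List.range ((gC st i).length + 1)).all (noviol st i w v)

def doC (st : St) (i : ℕ) (v : Bool) : St :=
  (stA st, stB st, stN st, stK st, stP st, (i, gC st i ++ [v]) :: stC st)

def doP (st : St) : St :=
  (stA st, stB st, stN st + 1, stK st ++ [(stN st, false)], stP st, stC st)

/-- moves: kind, index, string, tuple, flag, permutation, formula, offset, number of steps -/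
abbrev Mv := ℕ × ℕ × List Bool × List ℕ × Bool × List (ℕ × ℕ) × ℕ × ℕ × ℕ

def act (st : St) (k q : ℕ) (σ : List Bool) (c : List ℕ) (b : Bool) (s' : List (ℕ × ℕ))
    (θ M w : ℕ) : St :=
  if decide (k = 0) = true then doP st
  else if (decide (k = 1) && vN st q σ w) = true then doN st q σ
  else if (decide (k = 2) && vR st q σ c b s' θ M w) = true then doR st q σ c b s'
  else if (decide (k = 3) && vC st q b w) = true then doC st q b
  else st

def mvOf (t : ℕ) : Mv := (decode (α := Mv) (Nat.unpair t).1).getD (0, 0, [], [], true, [], 0, 0, 0)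

def step (st : St) (t : ℕ) : St :=
  act st (mvOf t).1 (mvOf t).2.1 (mvOf t).2.2.1 (mvOf t).2.2.2.1 (mvOf t).2.2.2.2.1
    (mvOf t).2.2.2.2.2.1 (mvOf t).2.2.2.2.2.2.1 (mvOf t).2.2.2.2.2.2.2.1
    (mvOf t).2.2.2.2.2.2.2.2

def stt : ℕ → St
  | 0 => ([], [], 0, [], [], [])
  | t + 1 => step (stt t) t

section
variable {α : Type} [Primcodable α]

@[fun_prop] theorem P_vN {st : α → St} {q : α → ℕ} {σ : α → List Bool} {w : α → ℕ}
    (hst : Primrec st) (hq : Primrec q) (hσ : Primrec σ) (hw : Primrec w) :
    Primrec (fun x => vN (st x) (q x) (σ x) (w x)) := by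
  unfold vN; fun_prop
@[fun_prop] theorem P_doN {st : α → St} {q : α → ℕ} {σ : α → List Bool}
    (hst : Primrec st) (hq : Primrec q) (hσ : Primrec σ) :
    Primrec (fun x => doN (st x) (q x) (σ x)) := by
  unfold doN; fun_prop
@[fun_prop] theorem P_qi {q : α → ℕ} (hq : Primrec q) : Primrec (fun x => qi (q x)) := by
  unfold qi; fun_prop
@[fun_prop] theorem P_qj {q : α → ℕ} (hq : Primrec q) : Primrec (fun x => qj (q x)) := by
  unfold qj; fun_prop
@[fun_prop] theorem P_agree {s s' : α → List (ℕ × ℕ)} {r : α → ℕ} (hs : Primrec s)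
    (hs' : Primrec s') (hr : Primrec r) : Primrec (fun x => agree (s x) (s' x) (r x)) := by
  unfold agree; fun_prop
@[fun_prop] theorem P_comOK {i w : α → ℕ} {s : α → List (ℕ × ℕ)} {com : α → List Bool}
    (hi : Primrec i) (hw : Primrec w) (hs : Primrec s) (hcom : Primrec com) :
    Primrec (fun x => comOK (i x) (w x) (s x) (com x)) := by
  unfold comOK; fun_prop
@[fun_prop] theorem P_newS {st : α → St} {q : α → ℕ} {b : α → Bool} {s' : α → List (ℕ × ℕ)}
    (hst : Primrec st) (hq : Primrec q) (hb : Primrec b) (hs' : Primrec s') :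
    Primrec (fun x => newS (st x) (q x) (b x) (s' x)) := by
  unfold newS; fun_prop
@[fun_prop] theorem P_vR {st : α → St} {q : α → ℕ} {σ : α → List Bool} {c : α → List ℕ}
    {b : α → Bool} {s' : α → List (ℕ × ℕ)} {θ M w : α → ℕ}
    (hst : Primrec st) (hq : Primrec q) (hσ : Primrec σ) (hc : Primrec c) (hb : Primrec b)
    (hs' : Primrec s') (hθ : Primrec θ) (hM : Primrec M) (hw : Primrec w) :
    Primrec (fun x => vR (st x) (q x) (σ x) (c x) (b x) (s' x) (θ x) (M x) (w x)) := by
  unfold vR; fun_prop
@[fun_prop] theorem P_doR {st : α → St} {q : α → ℕ} {σ : α → List Bool} {c : α → List ℕ}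
    {b : α → Bool} {s' : α → List (ℕ × ℕ)}
    (hst : Primrec st) (hq : Primrec q) (hσ : Primrec σ) (hc : Primrec c) (hb : Primrec b)
    (hs' : Primrec s') : Primrec (fun x => doR (st x) (q x) (σ x) (c x) (b x) (s' x)) := by
  unfold doR; fun_prop
@[fun_prop] theorem P_elig {st : α → St} {i q : α → ℕ} {σ : α → List Bool} {c : α → List ℕ}
    {w : α → ℕ} (hst : Primrec st) (hi : Primrec i) (hq : Primrec q) (hσ : Primrec σ)
    (hc : Primrec c) (hw : Primrec w) :
    Primrec (fun x => elig (st x) (i x) (q x) (σ x) (c x) (w x)) := by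
  unfold elig; fun_prop
@[fun_prop] theorem P_dz {d : α → ℕ} (hd : Primrec d) : Primrec (fun x => dz (d x)) := by
  unfold dz; fun_prop
@[fun_prop] theorem P_xcode {st : α → St} {i : α → ℕ} {v : α → Bool} {q : α → ℕ}
    {c : α → List ℕ} (hst : Primrec st) (hi : Primrec i) (hv : Primrec v) (hq : Primrec q)
    (hc : Primrec c) : Primrec (fun x => xcode (st x) (i x) (v x) (q x) (c x)) := by
  unfold xcode; fun_prop
@[fun_prop] theorem P_xass {st : α → St} {i : α → ℕ} {q : α → ℕ}
    {c : α → List ℕ} (hst : Primrec st) (hi : Primrec i) (hq : Primrec q)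
    (hc : Primrec c) : Primrec (fun x => xass (st x) (i x) (q x) (c x)) := by
  unfold xass; fun_prop
@[fun_prop] theorem P_noviol {st : α → St} {i w : α → ℕ} {v : α → Bool} {d : α → ℕ}
    (hst : Primrec st) (hi : Primrec i) (hw : Primrec w) (hv : Primrec v) (hd : Primrec d) :
    Primrec (fun x => noviol (st x) (i x) (w x) (v x) (d x)) := by
  unfold noviol; fun_prop
@[fun_prop] theorem P_vC {st : α → St} {i w : α → ℕ} {v : α → Bool}
    (hst : Primrec st) (hi : Primrec i) (hw : Primrec w) (hv : Primrec v) :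
    Primrec (fun x => vC (st x) (i x) (v x) (w x)) := by
  unfold vC; fun_prop
@[fun_prop] theorem P_doC {st : α → St} {i : α → ℕ} {v : α → Bool}
    (hst : Primrec st) (hi : Primrec i) (hv : Primrec v) :
    Primrec (fun x => doC (st x) (i x) (v x)) := by
  unfold doC; fun_prop
@[fun_prop] theorem P_doP {st : α → St} (hst : Primrec st) :
    Primrec (fun x => doP (st x)) := by
  unfold doP; fun_prop
@[fun_prop] theorem P_mvOf {t : α → ℕ} (ht : Primrec t) :
    Primrec (fun x => mvOf (t x)) := by
  unfold mvOf; fun_prop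
@[fun_prop] theorem P_act {st : α → St} {k q : α → ℕ} {σ : α → List Bool} {c : α → List ℕ}
    {b : α → Bool} {s' : α → List (ℕ × ℕ)} {θ M w : α → ℕ}
    (hst : Primrec st) (hk : Primrec k) (hq : Primrec q) (hσ : Primrec σ) (hc : Primrec c)
    (hb : Primrec b) (hs' : Primrec s') (hθ : Primrec θ) (hM : Primrec M) (hw : Primrec w) :
    Primrec (fun x => act (st x) (k x) (q x) (σ x) (c x) (b x) (s' x) (θ x) (M x) (w x)) := by
  unfold act; fun_prop
@[fun_prop] theorem P_step {st : α → St} {t : α → ℕ} (hst : Primrec st) (ht : Primrec t) :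
    Primrec (fun x => step (st x) (t x)) := by
  unfold step; fun_prop

theorem P_stt : Primrec stt := by
  have h : Primrec (fun n : ℕ => Nat.rec (motive := fun _ => St) (([], [], 0, [], [], []) : St)
      (fun t st => step st t) n) := by
    apply Primrec.nat_rec₁
    apply Primrec₂.mk
    fun_prop
  refine h.of_eq ?_
  intro n
  induction n with
  | zero => rfl
  | succ n ih => simp only [stt]; rw [← ih]
end

end Pool.Agent.Lib.MP95a9c1
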