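import Mathlib
import Pool.Agent.Lib.MP_95a9c1_lc.Syntax
import Pool.Agent.Lib.MP_95a9c1_lc.RE
import Pool.Agent.Lib.MP_95a9c1_lc.Bridge

/-!
Every difference of two computably enumerable sets has the degree of categoricity of a
computable structure.

Gadget `c`: base points `x_0, x_1` (kinds 0, 1), marks `e_0` (kind 2, on `x_0`, present from the
start), `e_1` (kind 3, on `x_1`) and `g_0` (kind 4), which appear when the event `P c` happens, and
`g_1` (kind 5), which appears when the event `Q c` happens. In the standard copy `g_i` is on `x_i`,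
in the twisted copy on `x_{1-i}`. If `P c` fails the two copies agree and are rigid; if `P c` holds
and `Q c` fails they are rigid and the isomorphism exchanges `x_0, x_1`; if `Q c` holds the gadget
has an automorphism exchanging the two sides.
-/

namespace Pool.Agent.Lib.MP95a9c1

namespace FKM

/-- The language with one binary relation symbol `0` and unary relation symbols `c + 1`. -/
def gL : CLang where
  fn _ := none
  rel k := if k = 0 then some 2 else some 1
  fn_comp := Computable.const none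
  rel_comp := (Primrec.ite (Primrec.eq.comp Primrec.id (Primrec.const 0)) (Primrec.const _)
    (Primrec.const _)).to_comp

/-- The structure with binary relation `r` and colours `col`. -/
def gS (r : ℕ → ℕ → Bool) (col : ℕ → ℕ) : Str where
  F _ _ := 0
  R k l := if k = 0 then r (l.getD 0 0) (l.getD 1 0) = true else col (l.getD 0 0) + 1 = k

theorem len2 {l : List ℕ} (h : l.length = 2) : ∃ a b, l = [a, b] := by
  match l, h with
  | [a, b], _ => exact ⟨a, b, rfl⟩

theorem len1 {l : List ℕ} (h : l.length = 1) : ∃ a, l = [a] := by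
  match l, h with
  | [a], _ => exact ⟨a, rfl⟩

theorem comp_deceq {α β : Type} [Primcodable α] [Primcodable β] [DecidableEq β] {f g : α → β}
    (hf : Computable f) (hg : Computable g) : Computable (fun a => decide (f a = g a)) :=
  (Primrec.eq (α := β)).decide.to_comp.comp hf hg

theorem comp_declt {α : Type} [Primcodable α] {f g : α → ℕ}
    (hf : Computable f) (hg : Computable g) : Computable (fun a => decide (f a < g a)) :=
  Primrec.nat_lt.decide.to_comp.comp hf hg

theorem gS_comp {r : ℕ → ℕ → Bool} {col : ℕ → ℕ} (hr : Computable (fun q : ℕ × ℕ => r q.1 q.2))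
    (hc : Computable col) : CompStr gL (gS r col) := by
  constructor
  · refine ⟨fun _ => 0, Computable.const 0, ?_⟩
    intro k l h
    simp [gL] at h
  · refine ⟨fun q => bif decide (q.1 = 0) then r (q.2.getD 0 0) (q.2.getD 1 0) else
      decide (col (q.2.getD 0 0) + 1 = q.1), ?_, ?_⟩
    · apply Computable.cond (comp_deceq Computable.fst (Computable.const 0))
      · exact hr.comp (((Primrec.list_getD 0).to_comp.comp Computable.snd
          (Computable.const 0)).pair ((Primrec.list_getD 0).to_comp.comp Computable.snd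
          (Computable.const 1)))
      · exact comp_deceq (Computable.succ.comp (hc.comp ((Primrec.list_getD 0).to_comp.comp
          Computable.snd (Computable.const 0)))) Computable.fst
    · intro k l _
      by_cases h : k = 0
      · simp [h, gS]
      · simp [h, gS]

theorem iso_mk {r r' : ℕ → ℕ → Bool} {col col' : ℕ → ℕ} {g : ℕ → ℕ} (hb : Function.Bijective g)
    (hc : ∀ x, col' (g x) = col x) (hr : ∀ x y, r x y = true ↔ r' (g x) (g y) = true) :
    IsIso gL (gS r col) (gS r' col') g := by
  refine ⟨hb, fun k l h => by simp [gL] at h, ?_⟩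
  intro k l h
  by_cases hk : k = 0
  · subst hk
    simp only [gL, if_true, Option.some.injEq] at h
    obtain ⟨a, b, rfl⟩ := len2 h.symm
    simp [gS, hr]
  · simp only [gL, if_neg hk, Option.some.injEq] at h
    obtain ⟨a, rfl⟩ := len1 h.symm
    simp [gS, hc, hk]

theorem iso_rel {A : Str} {r : ℕ → ℕ → Bool} {col : ℕ → ℕ} {h : ℕ → ℕ}
    (hi : IsIso gL A (gS r col) h) (m m' : ℕ) : A.R 0 [m, m'] ↔ r (h m) (h m') = true := by
  rw [hi.2.2 0 [m, m'] rfl]
  simp [gS]

theorem iso_col {A : Str} {r : ℕ → ℕ → Bool} {col : ℕ → ℕ} {h : ℕ → ℕ}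
    (hi : IsIso gL A (gS r col) h) (c m : ℕ) : A.R (c + 1) [m] ↔ col (h m) = c := by
  rw [hi.2.2 (c + 1) [m] rfl]
  simp [gS]

/-- Data for a family of gadgets. -/
structure Gad where
  v : ℕ → Bool
  p : ℕ → ℕ → Bool
  q : ℕ → ℕ → Bool
  v_comp : Computable v
  p_comp : Computable (fun z : ℕ × ℕ => p z.1 z.2)
  q_comp : Computable (fun z : ℕ × ℕ => q z.1 z.2)
  p0 : ∀ c, p c 0 = false
  q0 : ∀ c, q c 0 = false
  pm : ∀ c s, p c s = true → p c (s + 1) = true
  qm : ∀ c s, q c s = true → q c (s + 1) = true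
  qp : ∀ c s, q c s = true → p c s = true

/-- kind -/
def kd (x : ℕ) : ℕ := x % 6
/-- index -/
def ci (x : ℕ) : ℕ := (Nat.unpair (x / 6)).1
/-- stage -/
def sg (x : ℕ) : ℕ := (Nat.unpair (x / 6)).2
/-- element -/
def el (k c s : ℕ) : ℕ := 6 * Nat.pair c s + k

theorem kd_el (k c s : ℕ) (h : k < 6) : kd (el k c s) = k := by
  unfold kd el; omega

theorem el_div (k c s : ℕ) (h : k < 6) : el k c s / 6 = Nat.pair c s := by
  unfold el; omega

theorem ci_el (k c s : ℕ) (h : k < 6) : ci (el k c s) = c := by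
  unfold ci; rw [el_div k c s h]; simp

theorem sg_el (k c s : ℕ) (h : k < 6) : sg (el k c s) = s := by
  unfold sg; rw [el_div k c s h]; simp

theorem el_eta (x : ℕ) : el (kd x) (ci x) (sg x) = x := by
  unfold el kd ci sg
  rw [Nat.pair_unpair]
  omega

theorem kd_lt (x : ℕ) : kd x < 6 := Nat.mod_lt _ (by norm_num)

theorem kd_prim : Primrec kd := Primrec.nat_mod.comp Primrec.id (Primrec.const 6)
theorem ci_prim : Primrec ci := Primrec.fst.comp (Primrec.unpair.comp
  (Primrec.nat_div.comp Primrec.id (Primrec.const 6)))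
theorem sg_prim : Primrec sg := Primrec.snd.comp (Primrec.unpair.comp
  (Primrec.nat_div.comp Primrec.id (Primrec.const 6)))
theorem el_prim (k : ℕ) : Primrec (fun z : ℕ × ℕ => el k z.1 z.2) := by
  have : Primrec (fun z : ℕ × ℕ => Nat.pair z.1 z.2) := Primrec₂.natPair.comp Primrec.fst Primrec.snd
  exact Primrec.nat_add.comp (Primrec.nat_mul.comp (Primrec.const 6) this) (Primrec.const k)

variable (G : Gad)

/-- the events -/
def Gad.P (c : ℕ) : Prop := ∃ s, G.p c s = true
def Gad.Q (c : ℕ) : Prop := ∃ s, G.q c s = true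

/-- valid elements -/
def Gad.ok (x : ℕ) : Bool :=
  G.v (ci x) && (bif decide (kd x < 3) then decide (sg x = 0) else
    bif decide (kd x < 5) then G.p (ci x) (sg x + 1) && !(G.p (ci x) (sg x)) else
      G.q (ci x) (sg x + 1) && !(G.q (ci x) (sg x)))

/-- colours -/
def Gad.col (x : ℕ) : ℕ := bif G.ok x then 2 * (3 * ci x + kd x / 2) else 2 * x + 1

theorem mono_true {f : ℕ → Bool} (hm : ∀ s, f s = true → f (s + 1) = true) {s t : ℕ}
    (hst : s ≤ t) (hs : f s = true) : f t = true := by
  induction t, hst using Nat.le_induction with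
  | base => exact hs
  | succ n _ ih => exact hm n ih

theorem stage_unique {f : ℕ → Bool} (hm : ∀ s, f s = true → f (s + 1) = true) {s t : ℕ}
    (h1 : f (s + 1) = true) (h2 : f s = false) (h3 : f (t + 1) = true) (h4 : f t = false) :
    s = t := by
  rcases lt_trichotomy s t with h | h | h
  · have := mono_true hm (show s + 1 ≤ t from h) h1
    rw [h4] at this; cases this
  · exact h
  · have := mono_true hm (show t + 1 ≤ s from h) h3
    rw [h2] at this; cases this

theorem stage_exists {f : ℕ → Bool} (h0 : f 0 = false) (h : ∃ s, f s = true) :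
    ∃ s, f (s + 1) = true ∧ f s = false := by
  by_contra hcon
  push Not at hcon
  obtain ⟨s, hs⟩ := h
  have : ∀ s, f s = false := by
    intro s
    induction s with
    | zero => exact h0
    | succ n ih =>
      by_contra h5
      exact hcon n (by simpa using h5) ih
  rw [this s] at hs
  cases hs

/-- `x` is the element of kind `k` of the gadget `c` -/
def Gad.U (c k x : ℕ) : Prop := G.ok x = true ∧ ci x = c ∧ kd x = k

variable {G}

theorem ok_v {x : ℕ} (h : G.ok x = true) : G.v (ci x) = true := by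
  unfold Gad.ok at h
  rw [Bool.and_eq_true] at h
  exact h.1

theorem ok_iff3 {x : ℕ} (hk : kd x < 3) : G.ok x = true ↔ G.v (ci x) = true ∧ sg x = 0 := by
  unfold Gad.ok
  simp [hk]

theorem ok_iff5 {x : ℕ} (hk : ¬ kd x < 3) (hk' : kd x < 5) :
    G.ok x = true ↔ G.v (ci x) = true ∧ G.p (ci x) (sg x + 1) = true ∧
      G.p (ci x) (sg x) = false := by
  unfold Gad.ok
  simp [hk, hk']

theorem ok_iff6 {x : ℕ} (hk' : ¬ kd x < 5) :
    G.ok x = true ↔ G.v (ci x) = true ∧ G.q (ci x) (sg x + 1) = true ∧
      G.q (ci x) (sg x) = false := by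
  unfold Gad.ok
  have hk : ¬ kd x < 3 := by omega
  simp [hk, hk']

theorem U_unique {c k x y : ℕ} (hx : G.U c k x) (hy : G.U c k y) : x = y := by
  obtain ⟨h1, h2, h3⟩ := hx
  obtain ⟨h4, h5, h6⟩ := hy
  have hs : sg x = sg y := by
    by_cases hk : k < 3
    · have h7 := ((ok_iff3 (by omega)).1 h1).2
      have h8 := ((ok_iff3 (by omega)).1 h4).2
      rw [h7, h8]
    · by_cases hk' : k < 5
      · have h7 := ((ok_iff5 (by omega) (by omega)).1 h1).2
        have h8 := ((ok_iff5 (by omega) (by omega)).1 h4).2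
        rw [h2] at h7
        rw [h5] at h8
        exact stage_unique (G.pm c) h7.1 h7.2 h8.1 h8.2
      · have h7 := ((ok_iff6 (by omega)).1 h1).2
        have h8 := ((ok_iff6 (by omega)).1 h4).2
        rw [h2] at h7
        rw [h5] at h8
        exact stage_unique (G.qm c) h7.1 h7.2 h8.1 h8.2
  rw [← el_eta x, ← el_eta y, h2, h3, h5, h6, hs]

theorem U_P {c k x : ℕ} (hx : G.U c k x) (hk : 3 ≤ k) : G.P c := by
  obtain ⟨h1, h2, h3⟩ := hx
  by_cases hk' : k < 5
  · have h7 := ((ok_iff5 (by omega) (by omega)).1 h1).2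
    rw [h2] at h7
    exact ⟨_, h7.1⟩
  · have h7 := ((ok_iff6 (by omega)).1 h1).2
    rw [h2] at h7
    exact ⟨_, G.qp _ _ h7.1⟩

theorem U_Q {c k x : ℕ} (hx : G.U c k x) (hk : 5 ≤ k) : G.Q c := by
  obtain ⟨h1, h2, h3⟩ := hx
  have h7 := ((ok_iff6 (by omega)).1 h1).2
  rw [h2] at h7
  exact ⟨_, h7.1⟩

theorem Q_P {c : ℕ} (h : G.Q c) : G.P c := by
  obtain ⟨s, hs⟩ := h
  exact ⟨s, G.qp _ _ hs⟩

theorem U_low {c k : ℕ} (hv : G.v c = true) (hk : k < 3) : G.U c k (el k c 0) := by
  refine ⟨?_, ci_el k c 0 (by omega), kd_el k c 0 (by omega)⟩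
  rw [ok_iff3 (by rw [kd_el k c 0 (by omega)]; exact hk), ci_el k c 0 (by omega),
    sg_el k c 0 (by omega)]
  exact ⟨hv, rfl⟩

theorem U_mid {c k : ℕ} (hv : G.v c = true) (hP : G.P c) (hk : k < 5) : ∃ x, G.U c k x := by
  by_cases hk3 : k < 3
  · exact ⟨_, U_low hv hk3⟩
  · obtain ⟨s, hs1, hs2⟩ := stage_exists (G.p0 c) hP
    refine ⟨el k c s, ?_, ci_el k c s (by omega), kd_el k c s (by omega)⟩
    rw [ok_iff5 (by rw [kd_el k c s (by omega)]; exact hk3)
      (by rw [kd_el k c s (by omega)]; exact hk), ci_el k c s (by omega), sg_el k c s (by omega)]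
    exact ⟨hv, hs1, hs2⟩

theorem U_all {c k : ℕ} (hv : G.v c = true) (hQ : G.Q c) (hk : k < 6) : ∃ x, G.U c k x := by
  by_cases hk5 : k < 5
  · exact U_mid hv (Q_P hQ) hk5
  · obtain ⟨s, hs1, hs2⟩ := stage_exists (G.q0 c) hQ
    refine ⟨el k c s, ?_, ci_el k c s (by omega), kd_el k c s (by omega)⟩
    rw [ok_iff6 (by rw [kd_el k c s (by omega)]; exact hk5), ci_el k c s (by omega),
      sg_el k c s (by omega)]
    exact ⟨hv, hs1, hs2⟩

theorem col_ok {x : ℕ} (h : G.ok x = true) : G.col x = 2 * (3 * ci x + kd x / 2) := by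
  unfold Gad.col; rw [h]; rfl

theorem col_nok {x : ℕ} (h : G.ok x = false) : G.col x = 2 * x + 1 := by
  unfold Gad.col; rw [h]; rfl

theorem col_even {x c t : ℕ} (ht : t < 3) (h : G.col x = 2 * (3 * c + t)) :
    G.ok x = true ∧ ci x = c ∧ kd x / 2 = t := by
  rcases hx : G.ok x with _ | _
  · rw [col_nok hx] at h; omega
  · rw [col_ok hx] at h
    have := kd_lt x
    refine ⟨rfl, ?_, ?_⟩ <;> omega

/-- the relation on kinds in the standard copy -/
def rkA (k k' : ℕ) : Bool := decide (k < 2) && (decide (2 ≤ k') && decide (k % 2 = k' % 2))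
/-- the relation on kinds in the twisted copy -/
def rkB (k k' : ℕ) : Bool := decide (k < 2) && (decide (2 ≤ k') &&
  decide (decide (k % 2 = k' % 2) = decide (k' < 4)))

/-- the relation built from a relation on kinds -/
def Gad.rel (G : Gad) (rk : ℕ → ℕ → Bool) (x y : ℕ) : Bool :=
  (G.ok x && G.ok y) && (decide (ci x = ci y) && rk (kd x) (kd y))

theorem rel_iff {rk : ℕ → ℕ → Bool} {x y : ℕ} : G.rel rk x y = true ↔
    G.ok x = true ∧ G.ok y = true ∧ ci x = ci y ∧ rk (kd x) (kd y) = true := by
  unfold Gad.rel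
  simp only [Bool.and_eq_true, decide_eq_true_eq]
  tauto

/-- exchange of the two sides -/
def flipk (k : ℕ) : ℕ := if k % 2 = 0 then k + 1 else k - 1

theorem flipk_flipk (k : ℕ) : flipk (flipk k) = k := by
  unfold flipk; split_ifs <;> omega

theorem flipk_div (k : ℕ) : flipk k / 2 = k / 2 := by
  unfold flipk; split_ifs <;> omega

open Classical in
/-- the map that flips the elements in `F` -/
noncomputable def fl (G : Gad) (F : ℕ → Prop) (x : ℕ) : ℕ :=
  if h : F x ∧ ∃ y, G.U (ci x) (flipk (kd x)) y then h.2.choose else x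

section flip
variable {F : ℕ → Prop} (hF : ∀ x, F x → G.ok x = true ∧ ∃ y, G.U (ci x) (flipk (kd x)) y ∧ F y)
include hF

theorem fl_pos {x : ℕ} (hx : F x) : G.U (ci x) (flipk (kd x)) (fl G F x) ∧ F (fl G F x) := by
  obtain ⟨_, y, hy, hFy⟩ := hF x hx
  have h : F x ∧ ∃ y, G.U (ci x) (flipk (kd x)) y := ⟨hx, y, hy⟩
  have h2 : fl G F x = h.2.choose := by unfold fl; rw [dif_pos h]
  have h3 := h.2.choose_spec
  rw [h2]
  refine ⟨h3, ?_⟩
  rw [U_unique h3 hy]
  exact hFy

omit hF in
theorem fl_neg {x : ℕ} (hx : ¬ F x) : fl G F x = x := by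
  unfold fl
  rw [dif_neg (fun h => hx h.1)]

theorem fl_invol (x : ℕ) : fl G F (fl G F x) = x := by
  by_cases hx : F x
  · obtain ⟨h1, h2⟩ := fl_pos hF hx
    obtain ⟨h3, h4⟩ := fl_pos hF h2
    rw [h1.2.1, h1.2.2, flipk_flipk] at h3
    exact U_unique h3 ⟨(hF x hx).1, rfl, rfl⟩
  · rw [fl_neg hx, fl_neg hx]

theorem fl_bij : Function.Bijective (fl G F) :=
  (show Function.Involutive (fl G F) from fl_invol hF).bijective

theorem fl_ok (x : ℕ) : G.ok (fl G F x) = G.ok x := by
  by_cases hx : F x
  · rw [(fl_pos hF hx).1.1, (hF x hx).1]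
  · rw [fl_neg hx]

theorem fl_ci (x : ℕ) : ci (fl G F x) = ci x := by
  by_cases hx : F x
  · exact (fl_pos hF hx).1.2.1
  · rw [fl_neg hx]

theorem fl_col (x : ℕ) : G.col (fl G F x) = G.col x := by
  by_cases hx : F x
  · have h := (fl_pos hF hx).1
    rw [col_ok h.1, col_ok (hF x hx).1, h.2.1, h.2.2, flipk_div]
  · rw [fl_neg hx]

open Classical in
theorem fl_kd (x : ℕ) : kd (fl G F x) = if F x then flipk (kd x) else kd x := by
  by_cases hx : F x
  · rw [if_pos hx]; exact (fl_pos hF hx).1.2.2
  · rw [if_neg hx, fl_neg hx]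

theorem fl_iso {rk rk' : ℕ → ℕ → Bool} (h : ∀ x y, G.ok x = true → G.ok y = true → ci x = ci y →
    (rk (kd x) (kd y) = true ↔ rk' (kd (fl G F x)) (kd (fl G F y)) = true)) :
    IsIso gL (gS (G.rel rk) G.col) (gS (G.rel rk') G.col) (fl G F) := by
  apply iso_mk (fl_bij hF) (fl_col hF)
  intro x y
  rw [rel_iff, rel_iff, fl_ok hF, fl_ok hF, fl_ci hF, fl_ci hF]
  constructor
  · rintro ⟨h1, h2, h3, h4⟩
    exact ⟨h1, h2, h3, (h x y h1 h2 h3).1 h4⟩
  · rintro ⟨h1, h2, h3, h4⟩
    exact ⟨h1, h2, h3, (h x y h1 h2 h3).2 h4⟩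

end flip

theorem rkA_flip : ∀ k < 6, ∀ k' < 6, rkA k k' = rkA (flipk k) (flipk k') := by decide

theorem ok_comp (G : Gad) : Computable G.ok := by
  have hsg : Computable sg := sg_prim.to_comp
  have hci : Computable ci := ci_prim.to_comp
  have hkd : Computable kd := kd_prim.to_comp
  have hp1 : Computable (fun x => G.p (ci x) (sg x + 1)) :=
    G.p_comp.comp (hci.pair (Computable.succ.comp hsg))
  have hp0 : Computable (fun x => G.p (ci x) (sg x)) := G.p_comp.comp (hci.pair hsg)
  have hq1 : Computable (fun x => G.q (ci x) (sg x + 1)) :=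
    G.q_comp.comp (hci.pair (Computable.succ.comp hsg))
  have hq0 : Computable (fun x => G.q (ci x) (sg x)) := G.q_comp.comp (hci.pair hsg)
  have hnot : Computable not := Primrec.not.to_comp
  have hand : Computable₂ and := Primrec.and.to_comp
  exact hand.comp (G.v_comp.comp hci) (Computable.cond (comp_declt hkd (Computable.const 3))
    (comp_deceq hsg (Computable.const 0)) (Computable.cond (comp_declt hkd (Computable.const 5))
      (hand.comp hp1 (hnot.comp hp0)) (hand.comp hq1 (hnot.comp hq0))))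

theorem col_comp (G : Gad) : Computable G.col := by
  have hci : Computable ci := ci_prim.to_comp
  have hkd : Computable kd := kd_prim.to_comp
  have hmul : Computable₂ ((· * ·) : ℕ → ℕ → ℕ) := Primrec.nat_mul.to_comp
  have hadd : Computable₂ ((· + ·) : ℕ → ℕ → ℕ) := Primrec.nat_add.to_comp
  have hdiv : Computable₂ ((· / ·) : ℕ → ℕ → ℕ) := Primrec.nat_div.to_comp
  exact Computable.cond (ok_comp G)
    (hmul.comp (Computable.const 2) (hadd.comp (hmul.comp (Computable.const 3) hci)
      (hdiv.comp hkd (Computable.const 2))))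
    (Computable.succ.comp (hmul.comp (Computable.const 2) Computable.id))

theorem rkA_comp : Computable (fun z : ℕ × ℕ => rkA z.1 z.2) := by
  have hand : Computable₂ and := Primrec.and.to_comp
  have hmod : Computable₂ ((· % ·) : ℕ → ℕ → ℕ) := Primrec.nat_mod.to_comp
  have hle : Computable (fun z : ℕ × ℕ => decide (2 ≤ z.2)) :=
    Primrec.nat_le.decide.to_comp.comp (Computable.const 2) Computable.snd
  exact hand.comp (comp_declt Computable.fst (Computable.const 2)) (hand.comp hle
    (comp_deceq (hmod.comp Computable.fst (Computable.const 2))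
      (hmod.comp Computable.snd (Computable.const 2))))

theorem rkB_comp : Computable (fun z : ℕ × ℕ => rkB z.1 z.2) := by
  have hand : Computable₂ and := Primrec.and.to_comp
  have hmod : Computable₂ ((· % ·) : ℕ → ℕ → ℕ) := Primrec.nat_mod.to_comp
  have hle : Computable (fun z : ℕ × ℕ => decide (2 ≤ z.2)) :=
    Primrec.nat_le.decide.to_comp.comp (Computable.const 2) Computable.snd
  exact hand.comp (comp_declt Computable.fst (Computable.const 2)) (hand.comp hle
    (comp_deceq (comp_deceq (hmod.comp Computable.fst (Computable.const 2))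
      (hmod.comp Computable.snd (Computable.const 2)))
      (comp_declt Computable.snd (Computable.const 4))))

theorem rel_comp (G : Gad) {rk : ℕ → ℕ → Bool} (hrk : Computable (fun z : ℕ × ℕ => rk z.1 z.2)) :
    Computable (fun z : ℕ × ℕ => G.rel rk z.1 z.2) := by
  have hand : Computable₂ and := Primrec.and.to_comp
  have hci : Computable ci := ci_prim.to_comp
  have hkd : Computable kd := kd_prim.to_comp
  have hok := ok_comp G
  have h1 : Computable (fun z : ℕ × ℕ => rk (kd z.1) (kd z.2)) :=
    hrk.comp ((hkd.comp Computable.fst).pair (hkd.comp Computable.snd))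
  exact hand.comp (hand.comp (hok.comp Computable.fst) (hok.comp Computable.snd))
    (hand.comp (comp_deceq (hci.comp Computable.fst) (hci.comp Computable.snd)) h1)

/-- The standard copy. -/
def Gad.AA (G : Gad) : Str := gS (G.rel rkA) G.col
/-- The twisted copy. -/
def Gad.BB (G : Gad) : Str := gS (G.rel rkB) G.col

theorem AA_comp (G : Gad) : CompStr gL G.AA := gS_comp (rel_comp G rkA_comp) (col_comp G)
theorem BB_comp (G : Gad) : CompStr gL G.BB := gS_comp (rel_comp G rkB_comp) (col_comp G)

theorem flip_rkBA : ∀ k < 6, ∀ k' < 6, rkB k k' =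
    rkA (if k < 4 then flipk k else k) (if k' < 4 then flipk k' else k') := by decide

theorem rkBA_low : ∀ k < 6, ∀ k' < 3, rkB k k' = rkA k k' := by decide

theorem BB_iso (G : Gad) : ∃ f, IsIso gL G.BB G.AA f := by
  classical
  have hF : ∀ x, (G.ok x = true ∧ G.P (ci x) ∧ kd x < 4) → G.ok x = true ∧
      ∃ y, G.U (ci x) (flipk (kd x)) y ∧ (G.ok y = true ∧ G.P (ci y) ∧ kd y < 4) := by
    rintro x ⟨h1, h2, h3⟩
    refine ⟨h1, ?_⟩
    have h4 : flipk (kd x) < 4 := by unfold flipk; split_ifs <;> omega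
    obtain ⟨y, hy⟩ := U_mid (ok_v h1) h2 (show flipk (kd x) < 5 by omega)
    refine ⟨y, hy, hy.1, ?_, ?_⟩
    · rw [hy.2.1]; exact h2
    · rw [hy.2.2]; exact h4
  refine ⟨_, fl_iso hF ?_⟩
  intro x y hx hy hxy
  rw [fl_kd hF, fl_kd hF]
  by_cases hP : G.P (ci x)
  · have e1 : (G.ok x = true ∧ G.P (ci x) ∧ kd x < 4) ↔ kd x < 4 := by tauto
    have e2 : (G.ok y = true ∧ G.P (ci y) ∧ kd y < 4) ↔ kd y < 4 := by
      rw [← hxy]; tauto
    have e3 := flip_rkBA (kd x) (kd_lt x) (kd y) (kd_lt y)
    rw [e3]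
    simp only [e1, e2]
  · have e1 : ¬ (G.ok x = true ∧ G.P (ci x) ∧ kd x < 4) := by tauto
    have e2 : ¬ (G.ok y = true ∧ G.P (ci y) ∧ kd y < 4) := by
      rw [← hxy]; tauto
    rw [if_neg e1, if_neg e2]
    have hk : kd y < 3 := by
      by_contra hk
      exact hP (by rw [hxy]; exact U_P ⟨hy, rfl, rfl⟩ (by omega))
    rw [rkBA_low _ (kd_lt x) _ hk]

/-- what an isomorphism from the twisted copy knows -/
theorem BB_know {f : ℕ → ℕ} (hf : IsIso gL G.BB G.AA f) {c : ℕ} (hv : G.v c = true) :
    (¬ G.P c → f (el 0 c 0) = el 0 c 0) ∧ (G.P c → ¬ G.Q c → f (el 0 c 0) ≠ el 0 c 0) := by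
  have hcol : ∀ x, G.col (f x) = G.col x := by
    intro x
    exact (iso_col hf (G.col x) x).1 (by simp [Gad.BB, gS])
  have hrel : ∀ x y, G.rel rkB x y = true ↔ G.rel rkA (f x) (f y) = true := by
    intro x y
    rw [← iso_rel hf x y]
    simp [Gad.BB, gS]
  have hx0 := U_low (G := G) (c := c) (k := 0) hv (by norm_num)
  have hU : ∀ {k x}, G.U c k x → G.ok (f x) = true ∧ ci (f x) = c ∧ kd (f x) / 2 = k / 2 := by
    intro k x hx
    have h1 := hcol x
    rw [col_ok hx.1] at h1
    have hk := kd_lt x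
    have h2 := col_even (by omega) h1
    rw [hx.2.1, hx.2.2] at h2
    exact h2
  constructor
  · intro hP
    have he0 := U_low (G := G) (c := c) (k := 2) hv (by norm_num)
    have h1 : G.rel rkB (el 0 c 0) (el 2 c 0) = true := by
      rw [rel_iff, hx0.2.1, hx0.2.2, he0.2.1, he0.2.2]
      exact ⟨hx0.1, he0.1, rfl, rfl⟩
    have h2 := (hrel _ _).1 h1
    have h3 := hU he0
    have h4 : kd (f (el 2 c 0)) = 2 := by
      by_contra h5
      exact hP (U_P (k := kd (f (el 2 c 0))) ⟨h3.1, h3.2.1, rfl⟩ (by omega))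
    rw [rel_iff, h4] at h2
    have h5 := hU hx0
    have h6 : kd (f (el 0 c 0)) = 0 := by
      have h7 := h2.2.2.2
      simp only [rkA, Bool.and_eq_true, decide_eq_true_eq] at h7
      omega
    exact U_unique ⟨h5.1, h5.2.1, h6⟩ hx0
  · intro hP hQ heq
    obtain ⟨g, hg⟩ := U_mid (k := 4) hv hP (by norm_num)
    have h3 := hU hg
    have h4 : kd (f g) = 4 := by
      by_contra h5
      exact hQ (U_Q (k := kd (f g)) ⟨h3.1, h3.2.1, rfl⟩ (by omega))
    have h5 : f g = g := U_unique ⟨h3.1, h3.2.1, h4⟩ hg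
    have h6 : G.rel rkA (f (el 0 c 0)) (f g) = true := by
      rw [heq, h5, rel_iff, hx0.2.1, hx0.2.2, hg.2.1, hg.2.2]
      exact ⟨hx0.1, hg.1, rfl, rfl⟩
    rw [← hrel, rel_iff, hx0.2.2, hg.2.2] at h6
    exact absurd h6.2.2.2 (by decide)

theorem strOf_get (X : Set ℕ) (n i : ℕ) (b : Bool) :
    (strOf X n)[i]? = some b ↔ i < n ∧ (b = true ↔ i ∈ X) := by
  classical
  unfold strOf
  by_cases h : i < n
  · rw [List.getElem?_map, List.getElem?_range h]
    simp only [Option.map_some, Option.some.injEq, h, true_and]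
    constructor
    · rintro rfl; simp
    · intro h2
      rcases b with _ | _
      · simpa using h2
      · simpa using h2
  · rw [List.getElem?_eq_none (by simpa using h)]
    simp [h]

theorem catIn (G : Gad) (D : Set ℕ) (ν : ℕ → ℕ) (ε : ℕ → Bool) (hν : Computable ν)
    (hε : Computable ε)
    (hD : ∀ c, G.v c = true → ((G.P c ∧ ¬ G.Q c) ↔ (ν c ∈ D ↔ ε c = true))) :
    CatIn gL G.AA D := by
  classical
  rintro A hA ⟨h, hi⟩
  obtain ⟨rM, hrM, hr⟩ := hA.2
  have hR : ∀ {f : ℕ → ℕ}, IsIso gL A G.AA f → ∀ m m', rM (0, [m, m']) = true ↔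
      G.rel rkA (f m) (f m') = true := by
    intro f hf m m'
    rw [hr 0 [m, m'] rfl]
    exact iso_rel hf m m'
  have hC : ∀ {f : ℕ → ℕ}, IsIso gL A G.AA f → ∀ γ m, rM (γ + 1, [m]) = true ↔
      G.col (f m) = γ := by
    intro f hf γ m
    rw [hr (γ + 1) [m] rfl]
    exact iso_col hf γ m
  -- the anchors
  have hex : ∀ c, ∃ t, G.v c = true →
      G.col (h t) = 2 * (3 * c + (if G.P c ∧ ¬ G.Q c then 2 else 1)) := by
    intro c
    by_cases hv : G.v c = true
    · by_cases hPQ : G.P c ∧ ¬ G.Q c
      · obtain ⟨x, hx⟩ := U_mid (k := 4) hv hPQ.1 (by norm_num)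
        obtain ⟨t, rfl⟩ := hi.1.2 x
        refine ⟨t, fun _ => ?_⟩
        rw [col_ok hx.1, hx.2.1, hx.2.2, if_pos hPQ]
      · obtain ⟨t, ht⟩ := hi.1.2 (el 2 c 0)
        refine ⟨t, fun _ => ?_⟩
        have hx := U_low (G := G) (c := c) (k := 2) hv (by norm_num)
        rw [ht, col_ok hx.1, hx.2.1, hx.2.2, if_neg hPQ]
    · exact ⟨0, fun h => absurd h hv⟩
  let tt : ℕ → ℕ := fun c => Nat.find (hex c)
  have htt : ∀ c, G.v c = true →
      G.col (h (tt c)) = 2 * (3 * c + (if G.P c ∧ ¬ G.Q c then 2 else 1)) :=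
    fun c => Nat.find_spec (hex c)
  have htm : ∀ c, ∀ i < tt c,
      G.col (h i) ≠ 2 * (3 * c + (if G.P c ∧ ¬ G.Q c then 2 else 1)) := by
    intro c i hi' heq
    exact Nat.find_min (hex c) hi' (fun _ => heq)
  set F : ℕ → Prop := fun x => G.ok x = true ∧ G.Q (ci x) ∧ kd (h (tt (ci x))) = 3 with hFdef
  have hF : ∀ x, F x → G.ok x = true ∧ ∃ y, G.U (ci x) (flipk (kd x)) y ∧ F y := by
    rintro x ⟨h1, h2, h3⟩
    refine ⟨h1, ?_⟩
    have h4 : flipk (kd x) < 6 := by
      have := kd_lt x
      unfold flipk; split_ifs <;> omega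
    obtain ⟨y, hy⟩ := U_all (ok_v h1) h2 h4
    refine ⟨y, hy, hy.1, ?_, ?_⟩
    · rw [hy.2.1]; exact h2
    · rw [hy.2.1]; exact h3
  have hfl : IsIso gL G.AA G.AA (fl G F) := by
    apply fl_iso hF
    intro x y hx hy hxy
    have hFF : F x ↔ F y := by
      simp only [hFdef, hx, hy, hxy]
    rw [fl_kd hF, fl_kd hF]
    by_cases hFx : F x
    · rw [if_pos hFx, if_pos (hFF.1 hFx), rkA_flip _ (kd_lt x) _ (kd_lt y)]
    · rw [if_neg hFx, if_neg (fun h => hFx (hFF.2 h))]
  have hf : IsIso gL A G.AA (fl G F ∘ h) := hi.trans hfl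
  set f : ℕ → ℕ := fl G F ∘ h with hfdef
  -- the anchor is on side 0
  have hanc : ∀ c, G.v c = true → G.ok (f (tt c)) = true ∧ ci (f (tt c)) = c ∧
      kd (f (tt c)) % 2 = 0 ∧ 2 ≤ kd (f (tt c)) := by
    intro c hv
    have h1 := htt c hv
    have h2 := col_even (by split_ifs <;> norm_num) h1
    have h3 : G.ok (f (tt c)) = true := by
      simp only [hfdef, Function.comp]; rw [fl_ok hF, h2.1]
    have h4 : ci (f (tt c)) = c := by
      simp only [hfdef, Function.comp]; rw [fl_ci hF, h2.2.1]
    have h5 : kd (f (tt c)) = if F (h (tt c)) then flipk (kd (h (tt c))) else kd (h (tt c)) := by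
      simp only [hfdef, Function.comp]; rw [fl_kd hF]
      split_ifs <;> rfl
    have h6 : F (h (tt c)) ↔ G.Q c ∧ kd (h (tt c)) = 3 := by
      simp only [hFdef, h2.1, h2.2.1, true_and]
    refine ⟨h3, h4, ?_⟩
    rw [h5]
    by_cases hPQ : G.P c ∧ ¬ G.Q c
    · rw [if_pos hPQ] at h2
      rw [if_neg (fun h7 => hPQ.2 (h6.1 h7).1)]
      have h8 : kd (h (tt c)) ≠ 5 := by
        intro h9
        exact hPQ.2 (U_Q (k := kd (h (tt c))) ⟨h2.1, h2.2.1, rfl⟩ (by omega))
      omega
    · rw [if_neg hPQ] at h2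
      by_cases h9 : kd (h (tt c)) = 3
      · have hP : G.P c := U_P (k := kd (h (tt c))) ⟨h2.1, h2.2.1, rfl⟩ (by omega)
        have hQ : G.Q c := by tauto
        rw [if_pos (h6.2 ⟨hQ, h9⟩), h9]
        decide
      · rw [if_neg (fun h7 => h9 (h6.1 h7).2)]
        omega
  -- the side of an element
  have hside : ∀ c m' m, G.U c 0 (f m') → G.ok (f m) = true → ci (f m) = c →
      (kd (f m) % 2 = 0 ↔ (m = m' ∨ rM (0, [m', m]) = true)) := by
    intro c m' m hm' h1 h2
    rw [hR hf, rel_iff, hm'.2.1, hm'.2.2]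
    have h3 : m = m' ↔ kd (f m) = 0 := by
      constructor
      · rintro rfl; exact hm'.2.2
      · intro h3; exact hf.1.1 (U_unique ⟨h1, h2, h3⟩ hm')
    rw [h3]
    have h4 := kd_lt (f m)
    constructor
    · intro h5
      by_cases h6 : kd (f m) = 0
      · exact Or.inl h6
      · refine Or.inr ⟨hm'.1, h1, h2.symm, ?_⟩
        simp only [rkA, Bool.and_eq_true, decide_eq_true_eq]
        omega
    · rintro (h5 | ⟨_, _, _, h5⟩)
      · omega
      · simp only [rkA, Bool.and_eq_true, decide_eq_true_eq] at h5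
        omega
  refine ⟨f, hf, ?_⟩
  apply funLe_of_re D f (fun q => rM (G.col q.2.2 + 1, [q.2.1]) = true ∧ (G.ok q.2.2 = false ∨
    ∃ w : (ℕ × ℕ) × Bool, q.1[ν (ci q.2.2)]? = some w.2 ∧
      (rM (2 * (3 * ci q.2.2 + (bif decide (w.2 = ε (ci q.2.2)) then 2 else 1)) + 1, [w.1.1])
        = true ∧
      ((∀ i < w.1.1, rM (2 * (3 * ci q.2.2 + (bif decide (w.2 = ε (ci q.2.2)) then 2 else 1)) + 1,
        [i]) = false) ∧
      (rM (2 * (3 * ci q.2.2) + 1, [w.1.2]) = true ∧ (rM (0, [w.1.2, w.1.1]) = true ∧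
      decide (kd q.2.2 % 2 = 0) = (decide (q.2.1 = w.1.2) || rM (0, [w.1.2, q.2.1])))))))) 
  · have hx : Computable (fun q : List Bool × ℕ × ℕ => q.2.2) :=
      Computable.snd.comp Computable.snd
    have hm : Computable (fun q : List Bool × ℕ × ℕ => q.2.1) :=
      Computable.fst.comp Computable.snd
    have hmul : Computable₂ ((· * ·) : ℕ → ℕ → ℕ) := Primrec.nat_mul.to_comp
    have hadd : Computable₂ ((· + ·) : ℕ → ℕ → ℕ) := Primrec.nat_add.to_comp
    have hmod : Computable₂ ((· % ·) : ℕ → ℕ → ℕ) := Primrec.nat_mod.to_comp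
    have hci : Computable ci := ci_prim.to_comp
    have hkd : Computable kd := kd_prim.to_comp
    have hor : Computable₂ or := Primrec.or.to_comp
    have hcons : Computable₂ (@List.cons ℕ) := Primrec.list_cons.to_comp
    -- projections from the extended tuple
    have hq : Computable (fun z : (List Bool × ℕ × ℕ) × ((ℕ × ℕ) × Bool) => z.1) := Computable.fst
    have hxx := hx.comp hq
    have hmm := hm.comp hq
    have hσ : Computable (fun z : (List Bool × ℕ × ℕ) × ((ℕ × ℕ) × Bool) => z.1.1) :=
      Computable.fst.comp Computable.fst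
    have hb : Computable (fun z : (List Bool × ℕ × ℕ) × ((ℕ × ℕ) × Bool) => z.2.2) :=
      Computable.snd.comp Computable.snd
    have ht : Computable (fun z : (List Bool × ℕ × ℕ) × ((ℕ × ℕ) × Bool) => z.2.1.1) :=
      Computable.fst.comp (Computable.fst.comp Computable.snd)
    have hm' : Computable (fun z : (List Bool × ℕ × ℕ) × ((ℕ × ℕ) × Bool) => z.2.1.2) :=
      Computable.snd.comp (Computable.fst.comp Computable.snd)
    have hac : Computable (fun z : (List Bool × ℕ × ℕ) × ((ℕ × ℕ) × Bool) =>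
        2 * (3 * ci z.1.2.2 + (bif decide (z.2.2 = ε (ci z.1.2.2)) then 2 else 1)) + 1) :=
      Computable.succ.comp (hmul.comp (Computable.const 2) (hadd.comp
        (hmul.comp (Computable.const 3) (hci.comp hxx))
        (Computable.cond (comp_deceq hb (hε.comp (hci.comp hxx))) (Computable.const 2)
          (Computable.const 1))))
    apply RE.and
    · exact RE.of_bool (hrM.comp ((Computable.succ.comp ((col_comp G).comp hx)).pair
        (hcons.comp hm (Computable.const []))))
    apply RE.or
    · have := RE.of_bool (α := List Bool × ℕ × ℕ) (p := fun q => !(G.ok q.2.2))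
        (Primrec.not.to_comp.comp ((ok_comp G).comp hx))
      exact REPred.of_eq this (fun q => by simp)
    apply RE.ex
    apply RE.and
    · have := RE.of_bool (comp_deceq (f := fun z : (List Bool × ℕ × ℕ) × ((ℕ × ℕ) × Bool) =>
        z.1.1[ν (ci z.1.2.2)]?) (g := fun z => some z.2.2)
        (Primrec.list_getElem?.to_comp.comp hσ (hν.comp (hci.comp hxx)))
        (Computable.option_some.comp hb))
      exact REPred.of_eq this (fun q => by simp)
    apply RE.and
    · exact RE.of_bool (hrM.comp (hac.pair (hcons.comp ht (Computable.const []))))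
    apply RE.and
    · apply RE.ball_lt (p := fun (z : (List Bool × ℕ × ℕ) × ((ℕ × ℕ) × Bool)) (i : ℕ) =>
        rM (2 * (3 * ci z.1.2.2 + (bif decide (z.2.2 = ε (ci z.1.2.2)) then 2 else 1)) + 1,
          [i]) = false) _ ht
      have := RE.of_bool (p := fun y : ((List Bool × ℕ × ℕ) × ((ℕ × ℕ) × Bool)) × ℕ =>
        !(rM (2 * (3 * ci y.1.1.2.2 + (bif decide (y.1.2.2 = ε (ci y.1.1.2.2)) then 2 else 1)) + 1,
          [y.2])))
        (Primrec.not.to_comp.comp (hrM.comp ((hac.comp Computable.fst).pair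
          (hcons.comp Computable.snd (Computable.const [])))))
      exact REPred.of_eq this (fun q => by simp)
    apply RE.and
    · exact RE.of_bool (hrM.comp ((Computable.succ.comp (hmul.comp (Computable.const 2)
        (hmul.comp (Computable.const 3) (hci.comp hxx)))).pair
        (hcons.comp hm' (Computable.const []))))
    apply RE.and
    · exact RE.of_bool (hrM.comp ((Computable.const 0).pair (hcons.comp hm' (hcons.comp ht
        (Computable.const [])))))
    · have h1 : Computable (fun z : (List Bool × ℕ × ℕ) × ((ℕ × ℕ) × Bool) =>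
          decide (kd z.1.2.2 % 2 = 0)) :=
        comp_deceq (hmod.comp (hkd.comp hxx) (Computable.const 2)) (Computable.const 0)
      have h2 : Computable (fun z : (List Bool × ℕ × ℕ) × ((ℕ × ℕ) × Bool) =>
          (decide (z.1.2.1 = z.2.1.2) || rM (0, [z.2.1.2, z.1.2.1]))) :=
        hor.comp (comp_deceq hmm hm') (hrM.comp ((Computable.const 0).pair (hcons.comp hm'
          (hcons.comp hmm (Computable.const [])))))
      have := RE.of_bool (comp_deceq h1 h2)
      exact REPred.of_eq this (fun q => by simp)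
  · intro m x
    have hst : ∀ c, G.v c = true → ∀ b : Bool, (b = true ↔ ν c ∈ D) →
        (bif decide (b = ε c) then 2 else 1) = (if G.P c ∧ ¬ G.Q c then 2 else 1) := by
      intro c hv b hb
      have h1 := hD c hv
      rw [← hb] at h1
      have h2 : (G.P c ∧ ¬ G.Q c) ↔ b = ε c := by
        rw [h1]
        cases b <;> cases ε c <;> simp
      by_cases h3 : b = ε c
      · rw [if_pos (h2.2 h3)]; simp [h3]
      · rw [if_neg (fun h => h3 (h2.1 h))]; simp [h3]
    constructor
    · rintro rfl
      rcases hok : G.ok (f m) with _ | _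
      · exact ⟨0, (hC hf _ _).2 rfl, Or.inl hok⟩
      · have hv := ok_v hok
        obtain ⟨m', hm'⟩ := hf.1.2 (el 0 (ci (f m)) 0)
        have hU0 : G.U (ci (f m)) 0 (f m') := by rw [hm']; exact U_low hv (by norm_num)
        have ha := hanc _ hv
        refine ⟨ν (ci (f m)) + 1, (hC hf _ _).2 rfl, Or.inr
          ⟨((tt (ci (f m)), m'), decide (ν (ci (f m)) ∈ D)), ?_, ?_, ?_, ?_, ?_, ?_⟩⟩
        · simp only
          rw [strOf_get]
          exact ⟨by omega, by simp⟩
        · simp only
          rw [hst _ hv _ (by simp), hC hi]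
          exact htt _ hv
        · simp only
          intro i hi'
          rw [hst _ hv _ (by simp)]
          have := htm _ i hi'
          rw [ne_eq, ← hC hi] at this
          simpa using this
        · simp only
          rw [hC hf, col_ok hU0.1, hU0.2.1, hU0.2.2]
          simp
        · simp only
          rw [hR hf, rel_iff, hU0.2.1, hU0.2.2]
          refine ⟨hU0.1, ha.1, ha.2.1.symm, ?_⟩
          simp only [rkA, Bool.and_eq_true, decide_eq_true_eq]
          have := ha.2.2
          omega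
        · simp only
          have := hside _ m' m hU0 hok rfl
          rw [Bool.eq_iff_iff]
          simpa using this
    · rintro ⟨n, h1, h2⟩
      simp only at h1 h2
      rw [hC hf] at h1
      rcases hok : G.ok x with _ | _
      · rw [col_nok hok] at h1
        rcases hok' : G.ok (f m) with _ | _
        · rw [col_nok hok'] at h1; omega
        · rw [col_ok hok'] at h1; omega
      · rcases h2 with h2 | ⟨⟨⟨t, m'⟩, b⟩, h3, h4, h5, h6, h7, h8⟩
        · rw [hok] at h2; cases h2
        · simp only at h3 h4 h5 h6 h7 h8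
          have hv := ok_v hok
          rw [strOf_get] at h3
          rw [hst _ hv _ h3.2, hC hi] at h4
          have ht : t = tt (ci x) := by
            rcases lt_trichotomy t (tt (ci x)) with hlt | heq | hgt
            · exact absurd h4 (htm _ t hlt)
            · exact heq
            · have h9 := h5 _ hgt
              rw [hst _ hv _ h3.2] at h9
              have h10 := (hC hi _ _).2 (htt _ hv)
              rw [h9] at h10; cases h10
          subst ht
          have ha := hanc _ hv
          rw [hR hf, rel_iff] at h7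
          rw [hC hf] at h6
          have h6' := col_even (c := ci x) (t := 0) (by norm_num) (by simpa using h6)
          have hU0 : G.U (ci x) 0 (f m') := by
            refine ⟨h6'.1, h6'.2.1, ?_⟩
            have h11 := h7.2.2.2
            simp only [rkA, Bool.and_eq_true, decide_eq_true_eq] at h11
            omega
          rw [col_ok hok] at h1
          have hk := kd_lt x
          have h12 := col_even (by omega) h1
          have h13 := hside _ m' m hU0 h12.1 h12.2.1
          rw [Bool.eq_iff_iff] at h8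
          simp only [decide_eq_true_eq, Bool.or_eq_true] at h8
          rw [← h13] at h8
          refine U_unique (k := kd x) ⟨h12.1, h12.2.1, ?_⟩ ⟨hok, rfl, rfl⟩
          omega


section final
variable (a b : ℕ → ℕ → Bool)

/-- `n` enters at stage `s` -/
def ent (n s : ℕ) : Bool := a (s + 1) n && !(a s n)

theorem c2 {α σ : Type} [Primcodable α] [Primcodable σ] {f : ℕ → ℕ → σ}
    (hf : Computable (fun z : ℕ × ℕ => f z.1 z.2)) {g h : α → ℕ} (hg : Computable g)
    (hh : Computable h) : Computable (fun a => f (g a) (h a)) :=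
  Computable.comp (f := fun z : ℕ × ℕ => f z.1 z.2) (g := fun a => (g a, h a)) hf (hg.pair hh)

/-- the base point of a gadget of the second sort -/
def yy (n s : ℕ) : ℕ := el 0 (2 * Nat.pair n s + 1) 0

/-- the gadgets for a set given by two approximations -/
def gad (ha : Computable (fun q : ℕ × ℕ => a q.1 q.2))
    (hb : Computable (fun q : ℕ × ℕ => b q.1 q.2))
    (a0 : ∀ n, a 0 n = false) (b0 : ∀ n, b 0 n = false)
    (am : ∀ s n, a s n = true → a (s + 1) n = true)
    (bm : ∀ s n, b s n = true → b (s + 1) n = true)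
    (ba : ∀ s n, b s n = true → a s n = true) : Gad where
  v c := bif decide (c % 2 = 0) then true else ent a (Nat.unpair (c / 2)).1 (Nat.unpair (c / 2)).2
  p c t := bif decide (c % 2 = 0) then a t (c / 2) else b t (Nat.unpair (c / 2)).1
  q c t := bif decide (c % 2 = 0) then b t (c / 2) else false
  v_comp := by
    have hmod : Computable₂ ((· % ·) : ℕ → ℕ → ℕ) := Primrec.nat_mod.to_comp
    have hdiv : Computable₂ ((· / ·) : ℕ → ℕ → ℕ) := Primrec.nat_div.to_comp
    have hu : Computable (fun c : ℕ => Nat.unpair (c / 2)) :=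
      Computable.unpair.comp (hdiv.comp Computable.id (Computable.const 2))
    have hu1 := Computable.fst.comp hu
    have hu2 := Computable.snd.comp hu
    exact Computable.cond (comp_deceq (hmod.comp Computable.id (Computable.const 2))
      (Computable.const 0)) (Computable.const true)
      (Primrec.and.to_comp.comp (ha.comp ((Computable.succ.comp hu2).pair hu1))
        (Primrec.not.to_comp.comp (ha.comp (hu2.pair hu1))))
  p_comp := by
    have hmod : Computable₂ ((· % ·) : ℕ → ℕ → ℕ) := Primrec.nat_mod.to_comp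
    have hdiv : Computable₂ ((· / ·) : ℕ → ℕ → ℕ) := Primrec.nat_div.to_comp
    have hd : Computable (fun z : ℕ × ℕ => z.1 / 2) :=
      hdiv.comp Computable.fst (Computable.const 2)
    exact Computable.cond (comp_deceq (hmod.comp Computable.fst (Computable.const 2))
      (Computable.const 0)) (ha.comp (Computable.snd.pair hd))
      (hb.comp (Computable.snd.pair (Computable.fst.comp (Computable.unpair.comp hd))))
  q_comp := by
    have hmod : Computable₂ ((· % ·) : ℕ → ℕ → ℕ) := Primrec.nat_mod.to_comp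
    have hdiv : Computable₂ ((· / ·) : ℕ → ℕ → ℕ) := Primrec.nat_div.to_comp
    have hd : Computable (fun z : ℕ × ℕ => z.1 / 2) :=
      hdiv.comp Computable.fst (Computable.const 2)
    exact Computable.cond (comp_deceq (hmod.comp Computable.fst (Computable.const 2))
      (Computable.const 0)) (hb.comp (Computable.snd.pair hd)) (Computable.const false)
  p0 c := by
    by_cases h : c % 2 = 0 <;> simp [h, a0, b0]
  q0 c := by
    by_cases h : c % 2 = 0 <;> simp [h, b0]
  pm c s := by
    by_cases h : c % 2 = 0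
    · simpa [h] using am s _
    · simpa [h] using bm s _
  qm c s := by
    by_cases h : c % 2 = 0
    · simpa [h] using bm s _
    · simp [h]
  qp c s := by
    by_cases h : c % 2 = 0
    · simpa [h] using ba s _
    · simp [h]

end final

end FKM

open FKM in
theorem fkm (a b : ℕ → ℕ → Bool) (ha : Computable (fun q : ℕ × ℕ => a q.1 q.2))
    (hb : Computable (fun q : ℕ × ℕ => b q.1 q.2))
    (a0 : ∀ n, a 0 n = false) (b0 : ∀ n, b 0 n = false)
    (am : ∀ s n, a s n = true → a (s + 1) n = true)
    (bm : ∀ s n, b s n = true → b (s + 1) n = true)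
    (ba : ∀ s n, b s n = true → a s n = true) :
    DegCat {n | (∃ s, a s n = true) ∧ ¬ ∃ s, b s n = true} := by
  classical
  set D : Set ℕ := {n | (∃ s, a s n = true) ∧ ¬ ∃ s, b s n = true} with hD
  let G : Gad := gad a b ha hb a0 b0 am bm ba
  have hmul : Computable₂ ((· * ·) : ℕ → ℕ → ℕ) := Primrec.nat_mul.to_comp
  have hmod : Computable₂ ((· % ·) : ℕ → ℕ → ℕ) := Primrec.nat_mod.to_comp
  have hdiv : Computable₂ ((· / ·) : ℕ → ℕ → ℕ) := Primrec.nat_div.to_comp
  have hentc : Computable (fun z : ℕ × ℕ => ent a z.1 z.2) :=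
    Primrec.and.to_comp.comp (ha.comp ((Computable.succ.comp Computable.snd).pair Computable.fst))
      (Primrec.not.to_comp.comp (ha.comp (Computable.snd.pair Computable.fst)))
  have hd : Computable (fun c : ℕ => c / 2) := hdiv.comp Computable.id (Computable.const 2)
  -- even gadgets
  have ev : ∀ n, G.v (2 * n) = true ∧ (G.P (2 * n) ↔ ∃ s, a s n = true) ∧
      (G.Q (2 * n) ↔ ∃ s, b s n = true) := by
    intro n
    have h1 : 2 * n % 2 = 0 := by omega
    have h2 : 2 * n / 2 = n := by omega
    refine ⟨?_, ?_, ?_⟩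
    · simp [G, gad, h1]
    · unfold Gad.P; simp [G, gad, h1, h2]
    · unfold Gad.Q; simp [G, gad, h1, h2]
  have od : ∀ n s, (G.v (2 * Nat.pair n s + 1) = ent a n s) ∧
      (G.P (2 * Nat.pair n s + 1) ↔ ∃ s, b s n = true) ∧ ¬ G.Q (2 * Nat.pair n s + 1) := by
    intro n s
    have h1 : (2 * Nat.pair n s + 1) % 2 = 1 := by omega
    have h2 : (2 * Nat.pair n s + 1) / 2 = Nat.pair n s := by omega
    refine ⟨?_, ?_, ?_⟩
    · simp [G, gad, h1, h2]
    · unfold Gad.P; simp [G, gad, h1, h2]
    · unfold Gad.Q; simp [G, gad, h1]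
  have hent : ∀ n s, ent a n s = true → ∃ s, a s n = true := by
    intro n s h
    unfold ent at h
    rw [Bool.and_eq_true] at h
    exact ⟨_, h.1⟩
  refine ⟨gL, G.AA, AA_comp G, ?_, ?_⟩
  · apply catIn G D (fun c => bif decide (c % 2 = 0) then c / 2 else (Nat.unpair (c / 2)).1)
      (fun c => decide (c % 2 = 0))
    · exact Computable.cond (comp_deceq (hmod.comp Computable.id (Computable.const 2))
        (Computable.const 0)) hd (Computable.fst.comp (Computable.unpair.comp hd))
    · exact comp_deceq (hmod.comp Computable.id (Computable.const 2)) (Computable.const 0)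
    · intro c hv
      obtain ⟨n, rfl | rfl⟩ : ∃ n, c = 2 * n ∨ c = 2 * n + 1 := ⟨c / 2, by omega⟩
      · have h1 : 2 * n % 2 = 0 := by omega
        have h2 : 2 * n / 2 = n := by omega
        rw [(ev n).2.1, (ev n).2.2, h1, h2]
        simp [hD]
      · rw [← Nat.pair_unpair n] at hv ⊢
        rw [(od _ _).1] at hv
        have h3 := hent _ _ hv
        have h1 : (2 * Nat.pair (Nat.unpair n).1 (Nat.unpair n).2 + 1) % 2 = 1 := by omega
        have h2 : (2 * Nat.pair (Nat.unpair n).1 (Nat.unpair n).2 + 1) / 2 =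
          Nat.pair (Nat.unpair n).1 (Nat.unpair n).2 := by omega
        rw [(od _ _).2.1, h1, h2]
        have h4 := (od (Nat.unpair n).1 (Nat.unpair n).2).2.2
        simp only [Nat.pair_unpair] at h3 h4 ⊢
        simp [hD, h4, h3]
  · intro X hX
    obtain ⟨f, hf, hfX⟩ := hX G.BB (BB_comp G) (BB_iso G)
    obtain ⟨W, hW, hWf⟩ := use_principle X f hfX
    have k1 : ∀ n, f (el 0 (2 * n) 0) = el 0 (2 * n) 0 → n ∉ D := by
      rintro n h ⟨h1, h2⟩
      exact (BB_know hf (ev n).1).2 ((ev n).2.1.2 h1) (fun h3 => h2 ((ev n).2.2.1 h3)) h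
    have k2 : ∀ n, (¬ ∃ s, a s n = true) → f (el 0 (2 * n) 0) = el 0 (2 * n) 0 := by
      intro n h
      exact (BB_know hf (ev n).1).1 (fun h3 => h ((ev n).2.1.1 h3))
    have k3 : ∀ n s, ent a n s = true → ((∃ s, b s n = true) ↔
        f (el 0 (2 * Nat.pair n s + 1) 0) ≠ el 0 (2 * Nat.pair n s + 1) 0) := by
      intro n s h
      have h1 := BB_know hf (c := 2 * Nat.pair n s + 1) (by rw [(od n s).1]; exact h)
      constructor
      · intro h2
        exact h1.2 ((od n s).2.1.2 h2) (od n s).2.2
      · intro h2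
        by_contra h3
        exact h2 (h1.1 (fun h4 => h3 ((od n s).2.1.1 h4)))
    have hδ : FunLe (fun n => if n ∈ D then 1 else 0) X := by
      apply funLe_of_re X _ (fun q =>
        (q.2.2 = 1 ∧ ∃ s : ℕ, ent a q.2.1 s = true ∧
          W (q.1, el 0 (2 * Nat.pair q.2.1 s + 1) 0, el 0 (2 * Nat.pair q.2.1 s + 1) 0)) ∨
        (q.2.2 = 0 ∧ (W (q.1, el 0 (2 * q.2.1) 0, el 0 (2 * q.2.1) 0) ∨
          ∃ w : ℕ × ℕ, ent a q.2.1 w.1 = true ∧
            (w.2 ≠ el 0 (2 * Nat.pair q.2.1 w.1 + 1) 0 ∧
            W (q.1, el 0 (2 * Nat.pair q.2.1 w.1 + 1) 0, w.2)))))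
      · have hel : Computable (fun c : ℕ => el 0 c 0) :=
          (el_prim 0).to_comp.comp (Computable.id.pair (Computable.const 0))
        have hY : Computable (fun z : ℕ × ℕ => yy z.1 z.2) :=
          hel.comp (Computable.succ.comp (hmul.comp (Computable.const 2)
            (Primrec₂.natPair.to_comp.comp Computable.fst Computable.snd)))
        have h1 : Computable (fun q : List Bool × ℕ × ℕ => q.2.1) :=
          Computable.fst.comp Computable.snd
        have h2 : Computable (fun q : List Bool × ℕ × ℕ => q.2.2) :=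
          Computable.snd.comp Computable.snd
        have t1 : REPred (fun q : List Bool × ℕ × ℕ => q.2.2 = 1) :=
          REPred.of_eq (RE.of_bool (comp_deceq h2 (Computable.const 1))) (fun q => by simp)
        have t0 : REPred (fun q : List Bool × ℕ × ℕ => q.2.2 = 0) :=
          REPred.of_eq (RE.of_bool (comp_deceq h2 (Computable.const 0))) (fun q => by simp)
        have h3 : Computable (fun z : (List Bool × ℕ × ℕ) × ℕ => z.1.2.1) :=
          h1.comp Computable.fst
        have h4 : Computable (fun z : (List Bool × ℕ × ℕ) × ℕ => yy z.1.2.1 z.2) :=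
          c2 hY h3 Computable.snd
        have t2 : REPred (fun z : (List Bool × ℕ × ℕ) × ℕ => ent a z.1.2.1 z.2 = true) :=
          RE.of_bool (c2 hentc h3 Computable.snd)
        have t3 : REPred (fun z : (List Bool × ℕ × ℕ) × ℕ =>
            W (z.1.1, yy z.1.2.1 z.2, yy z.1.2.1 z.2)) :=
          RE.comp hW ((Computable.fst.comp Computable.fst).pair (h4.pair h4))
        have t4 := RE.ex (p := fun (q : List Bool × ℕ × ℕ) (s : ℕ) => ent a q.2.1 s = true ∧
          W (q.1, yy q.2.1 s, yy q.2.1 s)) (RE.and t2 t3)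
        have h5 : Computable (fun q : List Bool × ℕ × ℕ => el 0 (2 * q.2.1) 0) :=
          hel.comp (hmul.comp (Computable.const 2) h1)
        have t5 : REPred (fun q : List Bool × ℕ × ℕ =>
            W (q.1, el 0 (2 * q.2.1) 0, el 0 (2 * q.2.1) 0)) :=
          RE.comp hW (Computable.fst.pair (h5.pair h5))
        have h6 : Computable (fun z : (List Bool × ℕ × ℕ) × (ℕ × ℕ) => z.1.2.1) :=
          h1.comp Computable.fst
        have h7 : Computable (fun z : (List Bool × ℕ × ℕ) × (ℕ × ℕ) => z.2.1) :=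
          Computable.fst.comp Computable.snd
        have h8 : Computable (fun z : (List Bool × ℕ × ℕ) × (ℕ × ℕ) => z.2.2) :=
          Computable.snd.comp Computable.snd
        have h9 : Computable (fun z : (List Bool × ℕ × ℕ) × (ℕ × ℕ) => yy z.1.2.1 z.2.1) :=
          c2 hY h6 h7
        have t6 : REPred (fun z : (List Bool × ℕ × ℕ) × (ℕ × ℕ) => ent a z.1.2.1 z.2.1 = true) :=
          RE.of_bool (c2 hentc h6 h7)
        have t7 : REPred (fun z : (List Bool × ℕ × ℕ) × (ℕ × ℕ) => z.2.2 ≠ yy z.1.2.1 z.2.1) :=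
          REPred.of_eq (RE.of_bool (Primrec.not.to_comp.comp (comp_deceq h8 h9)))
            (fun q => by simp)
        have t8 : REPred (fun z : (List Bool × ℕ × ℕ) × (ℕ × ℕ) =>
            W (z.1.1, yy z.1.2.1 z.2.1, z.2.2)) :=
          RE.comp hW ((Computable.fst.comp Computable.fst).pair (h9.pair h8))
        have t9 := RE.ex (p := fun (q : List Bool × ℕ × ℕ) (w : ℕ × ℕ) => ent a q.2.1 w.1 = true ∧
          (w.2 ≠ yy q.2.1 w.1 ∧ W (q.1, yy q.2.1 w.1, w.2))) (RE.and t6 (RE.and t7 t8))
        exact RE.or (RE.and t1 t4) (RE.and t0 (RE.or t5 t9))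
      · intro n y
        simp only
        constructor
        · rintro rfl
          by_cases hn : n ∈ D
          · obtain ⟨s, hs1, hs2⟩ := stage_exists (f := fun s => a s n) (a0 n) hn.1
            have hs : ent a n s = true := by unfold ent; simp [hs1, hs2]
            have h4 : f (el 0 (2 * Nat.pair n s + 1) 0) = el 0 (2 * Nat.pair n s + 1) 0 := by
              by_contra h5
              exact hn.2 ((k3 n s hs).2 h5)
            obtain ⟨N, hN⟩ := (hWf _ _).1 h4
            exact ⟨N, Or.inl ⟨by simp [hn], s, hs, hN⟩⟩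
          · by_cases hA : ∃ s, a s n = true
            · have hB : ∃ s, b s n = true := by
                by_contra h5
                exact hn ⟨hA, h5⟩
              obtain ⟨s, hs1, hs2⟩ := stage_exists (f := fun s => a s n) (a0 n) hA
              have hs : ent a n s = true := by unfold ent; simp [hs1, hs2]
              obtain ⟨N, hN⟩ := (hWf (el 0 (2 * Nat.pair n s + 1) 0) _).1 rfl
              exact ⟨N, Or.inr ⟨by simp [hn], Or.inr ⟨(s, _), hs, (k3 n s hs).1 hB, hN⟩⟩⟩
            · obtain ⟨N, hN⟩ := (hWf _ _).1 (k2 n hA)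
              exact ⟨N, Or.inr ⟨by simp [hn], Or.inl hN⟩⟩
        · rintro ⟨N, ⟨h1, s, hs, h2⟩ | ⟨h1, h2 | ⟨⟨s, z⟩, hs, hz, h2⟩⟩⟩
          · have h3 := (hWf _ _).2 ⟨N, h2⟩
            have hn : n ∈ D := ⟨hent n s hs, fun hB => (k3 n s hs).1 hB h3⟩
            rw [if_pos hn, h1]
          · have h3 := (hWf _ _).2 ⟨N, h2⟩
            rw [if_neg (k1 n h3), h1]
          · have h3 := (hWf _ _).2 ⟨N, h2⟩
            simp only at h3 hz hs
            have hB := (k3 n s hs).2 (by rw [h3]; exact hz)
            rw [if_neg (fun hn => hn.2 hB), h1]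
    have e : chi D = fun n => Part.some (if n ∈ D then 1 else 0) := by
      funext n
      unfold chi
      by_cases hn : n ∈ D
      · rw [if_pos hn, if_pos hn]
      · rw [if_neg hn, if_neg hn]
    rw [e]
    exact hδ

end Pool.Agent.Lib.MP95a9c1
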