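import Mathlib
import Pool.Agent.Lib.MP_95a9c1_lc.Constr

/-!
Verification of the construction: invariants and stability of the stack.
-/

namespace Pool.Agent.Lib.MP95a9c1

open Encodable Denumerable
open Nat.Partrec (Code)

/-! ### Projections of the moves -/

section
variable (st : St) (q : ℕ) (σ : List Bool) (c : List ℕ) (b : Bool) (s' : List (ℕ × ℕ))
  (i : ℕ) (v : Bool)

theorem stA_doN : stA (doN st q σ) = rq st q :: stA st := rfl
theorem stB_doN : stB (doN st q σ) = stB st := rfl
theorem stN_doN : stN (doN st q σ) = stN st + σ.length + 1 := rfl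
theorem stK_doN : stK (doN st q σ) = (stK st).take q ++ [(rq st q, true)] := rfl
theorem gS_doN : gS (doN st q σ) i = gS st i := rfl
theorem gC_doN : gC (doN st q σ) i = gC st i := rfl

theorem stA_doR : stA (doR st q σ c b s') = stA st := rfl
theorem stB_doR : stB (doR st q σ c b s') = stB st ++ (stA st).filter
    (fun x => decide (x < σ.length) && !(σ.getD x false)) := rfl
theorem stN_doR : stN (doR st q σ c b s') = stN st + σ.length + (c.sum + c.length) + 1 := rfl
theorem stK_doR : stK (doR st q σ c b s') = (stK st).take q ++ [(rq st q, true)] := rfl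
theorem gS_doR_self : gS (doR st q σ c b s') (qi q) = newS st q b s' := by
  simp [gS, doR, stP]
theorem gS_doR_ne (h : i ≠ qi q) : gS (doR st q σ c b s') i = gS st i := by
  have h1 : (i == qi q) = false := by simpa using h
  have h2 : gS (doR st q σ c b s') i =
    (List.lookup i ((qi q, newS st q b s') :: stP st)).getD [] := rfl
  rw [h2, List.lookup_cons, h1]
  rfl
theorem gC_doR : gC (doR st q σ c b s') i = gC st i := rfl

theorem stA_doC : stA (doC st i v) = stA st := rfl
theorem stB_doC : stB (doC st i v) = stB st := rfl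
theorem stN_doC : stN (doC st i v) = stN st := rfl
theorem stK_doC : stK (doC st i v) = stK st := rfl
theorem gS_doC (j : ℕ) : gS (doC st i v) j = gS st j := rfl
theorem gC_doC_self : gC (doC st i v) i = gC st i ++ [v] := by
  simp [gC, doC, stC]
theorem gC_doC_ne (j : ℕ) (h : j ≠ i) : gC (doC st i v) j = gC st j := by
  have h1 : (j == i) = false := by simpa using h
  have h2 : gC (doC st i v) j = (List.lookup j ((i, gC st i ++ [v]) :: stC st)).getD [] := rfl
  rw [h2, List.lookup_cons, h1]
  rfl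

theorem stA_doP : stA (doP st) = stA st := rfl
theorem stB_doP : stB (doP st) = stB st := rfl
theorem stN_doP : stN (doP st) = stN st + 1 := rfl
theorem stK_doP : stK (doP st) = stK st ++ [(stN st, false)] := rfl
theorem gS_doP : gS (doP st) i = gS st i := rfl
theorem gC_doP : gC (doP st) i = gC st i := rfl

end

/-! ### The steps -/

/-- a step in which the requirement `q` of the first kind acts -/
def StepN (t q : ℕ) (σ : List Bool) (w : ℕ) : Prop :=
  vN (stt t) q σ w = true ∧ stt (t + 1) = doN (stt t) q σ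

/-- a step in which the requirement `q` of the second kind acts -/
def StepR (t q : ℕ) (σ : List Bool) (c : List ℕ) (b : Bool) (s' : List (ℕ × ℕ))
    (θ M w : ℕ) : Prop :=
  vR (stt t) q σ c b s' θ M w = true ∧ stt (t + 1) = doR (stt t) q σ c b s'

def StepC (t i : ℕ) (v : Bool) (w : ℕ) : Prop :=
  vC (stt t) i v w = true ∧ stt (t + 1) = doC (stt t) i v

theorem step_cases (t : ℕ) :
    stt (t + 1) = doP (stt t) ∨ (∃ q σ w, StepN t q σ w) ∨
    (∃ q σ c b s' θ M w, StepR t q σ c b s' θ M w) ∨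
    (∃ i v w, StepC t i v w) ∨ stt (t + 1) = stt t := by
  have h : stt (t + 1) = step (stt t) t := rfl
  unfold step act at h
  split_ifs at h with h1 h2 h3 h4
  · exact Or.inl h
  · rw [Bool.and_eq_true] at h2
    exact Or.inr (Or.inl ⟨_, _, _, h2.2, h⟩)
  · rw [Bool.and_eq_true] at h3
    exact Or.inr (Or.inr (Or.inl ⟨_, _, _, _, _, _, _, _, h3.2, h⟩))
  · rw [Bool.and_eq_true] at h4
    exact Or.inr (Or.inr (Or.inr (Or.inl ⟨_, _, _, h4.2, h⟩)))
  · exact Or.inr (Or.inr (Or.inr (Or.inr h)))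

/-- every move is tried infinitely often -/
theorem exists_time (mv : Mv) (T : ℕ) : ∃ t, T ≤ t ∧ mvOf t = mv := by
  refine ⟨Nat.pair (encode mv) T, Nat.right_le_pair _ _, ?_⟩
  unfold mvOf
  rw [Nat.unpair_pair]
  simp

theorem exists_push (T : ℕ) : ∃ t, T ≤ t ∧ stt (t + 1) = doP (stt t) := by
  obtain ⟨t, ht, hm⟩ := exists_time (0, 0, [], [], true, [], 0, 0, 0) T
  refine ⟨t, ht, ?_⟩
  have h : stt (t + 1) = step (stt t) t := rfl
  rw [h]
  unfold step act
  rw [hm]
  simp

theorem exists_N {q : ℕ} {σ : List Bool} {w T : ℕ} (h : ∀ t, T ≤ t → vN (stt t) q σ w = true) :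
    ∃ t, T ≤ t ∧ StepN t q σ w := by
  obtain ⟨t, ht, hm⟩ := exists_time (1, q, σ, [], true, [], 0, 0, w) T
  refine ⟨t, ht, h t ht, ?_⟩
  have h' : stt (t + 1) = step (stt t) t := rfl
  rw [h']
  unfold step act
  rw [hm]
  simp [h t ht]

theorem exists_R {q : ℕ} {σ : List Bool} {c : List ℕ} {b : Bool} {s' : List (ℕ × ℕ)}
    {θ M w T : ℕ} (h : ∀ t, T ≤ t → vR (stt t) q σ c b s' θ M w = true) :
    ∃ t, T ≤ t ∧ StepR t q σ c b s' θ M w := by
  obtain ⟨t, ht, hm⟩ := exists_time (2, q, σ, c, b, s', θ, M, w) T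
  refine ⟨t, ht, h t ht, ?_⟩
  have h' : stt (t + 1) = step (stt t) t := rfl
  rw [h']
  unfold step act
  rw [hm]
  simp [h t ht]

theorem exists_C {i : ℕ} {v : Bool} {w T : ℕ} (h : ∀ t, T ≤ t → vC (stt t) i v w = true) :
    ∃ t, T ≤ t ∧ StepC t i v w := by
  obtain ⟨t, ht, hm⟩ := exists_time (3, i, [], [], v, [], 0, 0, w) T
  refine ⟨t, ht, h t ht, ?_⟩
  have h' : stt (t + 1) = step (stt t) t := rfl
  rw [h']
  unfold step act
  rw [hm]
  simp [h t ht]

/-! ### Decoding the conditions -/

theorem vN_iff {st : St} {q : ℕ} {σ : List Bool} {w : ℕ} : vN st q σ w = true ↔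
    q % 2 = 0 ∧ fl st q = false ∧
      (∀ x < σ.length, (σ.getD x false = true ↔ x ∈ stB st)) ∧
      Wn (q / 2) w σ (rq st q) 0 = true := by
  unfold vN
  simp only [Bool.and_eq_true, decide_eq_true_eq, Bool.not_eq_true', List.all_eq_true,
    List.mem_range]
  constructor
  · rintro ⟨h1, h2, h3, h4⟩
    refine ⟨h1, h2, ?_, h4⟩
    intro x hx
    rw [h3 x hx]
    simp
  · rintro ⟨h1, h2, h3, h4⟩
    refine ⟨h1, h2, ?_, h4⟩
    intro x hx
    rw [Bool.eq_iff_iff, h3 x hx]
    simp

/-- meaning of `okS` -/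
theorem okS_iff {st : St} {r : ℕ} {σ : List Bool} : okS st r σ = true ↔
    ∀ x < σ.length, (σ.getD x false = true → x ∈ stA st ∧ x ∉ stB st) ∧
      (x < r → x ∈ stA st → x ∉ stB st → σ.getD x false = true) := by
  unfold okS
  simp only [List.all_eq_true, List.mem_range]
  apply forall_congr'
  intro x
  apply forall_congr'
  intro _
  by_cases h1 : σ.getD x false = true <;> by_cases h2 : x ∈ stA st <;>
    by_cases h3 : x ∈ stB st <;> by_cases h4 : x < r <;> simp [h1, h2, h3, h4]

theorem agree_iff {s s' : List (ℕ × ℕ)} {r : ℕ} : agree s s' r = true ↔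
    ∀ x < r, ap s' x = ap s x ∧ api s' x = api s x := by
  unfold agree
  simp only [List.all_eq_true, List.mem_range, Bool.and_eq_true, decide_eq_true_eq]

theorem comOK_iff {i w : ℕ} {s : List (ℕ × ℕ)} {com : List Bool} : comOK i w s com = true ↔
    ∀ m < com.length, Tn i w m (apl s (m + 1)) = some (encode (com.getD m false)) := by
  unfold comOK
  simp only [List.all_eq_true, List.mem_range, decide_eq_true_eq]

theorem vR_iff {st : St} {q : ℕ} {σ : List Bool} {c : List ℕ} {b : Bool} {s' : List (ℕ × ℕ)}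
    {θ M w : ℕ} : vR st q σ c b s' θ M w = true ↔
    q % 2 = 1 ∧ fl st q = false ∧ okS st (rq st q) σ = true ∧ cert (qj q) w σ c = true ∧
    (b = true ∨ (agree (gS st (qi q)) s' (rq st q) = true ∧
      comOK (qi q) w s' (gC st (qi q)) = true)) ∧
    (∃ u u' : ℕ, Tn (qi q) w θ (asgL M (c.map (ap (newS st q b s'))) (θ + 1)) = some u ∧
      Tn (qi q) w θ (asgL M (List.range c.length) (θ + 1)) = some u' ∧ u ≠ u') := by
  unfold vR
  simp only [Bool.and_eq_true, decide_eq_true_eq, Bool.not_eq_true', Bool.or_eq_true,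
    Option.isSome_iff_exists]
  constructor
  · rintro ⟨h1, h2, h3, h4, h5, ⟨u, hu⟩, ⟨u', hu'⟩, h6⟩
    refine ⟨h1, h2, h3, h4, h5, u, u', hu, hu', ?_⟩
    rintro rfl
    exact h6 (hu.trans hu'.symm)
  · rintro ⟨h1, h2, h3, h4, h5, u, u', hu, hu', h6⟩
    refine ⟨h1, h2, h3, h4, h5, ⟨u, hu⟩, ⟨u', hu'⟩, ?_⟩
    rw [hu, hu']
    intro h
    exact h6 (Option.some.inj h)

/-! ### The stack -/

theorem getD_upd (K : List (ℕ × Bool)) (q : ℕ) (hq : q < K.length) (r q' : ℕ) :
    (K.take q ++ [(r, true)]).getD q' (0, true) =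
      if q' < q then K.getD q' (0, true) else if q' = q then (r, true) else (0, true) := by
  have hl : (K.take q).length = q := by rw [List.length_take]; omega
  split_ifs with h1 h2
  · rw [List.getD_append _ _ _ _ (by omega)]
    rw [List.getD_eq_getElem _ _ (by omega), List.getD_eq_getElem _ _ (by omega),
      List.getElem_take]
  · subst h2
    rw [List.getD_append_right _ _ _ _ (by omega), hl]
    simp
  · rw [List.getD_append_right _ _ _ _ (by omega), hl]
    rw [List.getD_eq_default]
    simp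
    omega

theorem getD_push (K : List (ℕ × Bool)) (e : ℕ × Bool) (q' : ℕ) :
    (K ++ [e]).getD q' (0, true) =
      if q' < K.length then K.getD q' (0, true) else if q' = K.length then e else (0, true) := by
  split_ifs with h1 h2
  · rw [List.getD_append _ _ _ _ h1]
  · subst h2
    rw [List.getD_append_right _ _ _ _ le_rfl]
    simp
  · rw [List.getD_eq_default]
    simp
    omega

theorem lt_of_fl {st : St} {q : ℕ} (h : fl st q = false) : q < (stK st).length := by
  by_contra hcon
  unfold fl at h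
  rw [List.getD_eq_default _ _ (by omega)] at h
  exact absurd h (by simp)

/-- some requirement acts at `q` -/
def Acts (t q : ℕ) : Prop :=
  (∃ σ w, StepN t q σ w) ∨ (∃ σ c b s' θ M w, StepR t q σ c b s' θ M w)

theorem Acts.fl {t q : ℕ} (h : Acts t q) : fl (stt t) q = false := by
  rcases h with ⟨σ, w, h, _⟩ | ⟨σ, c, b, s', θ, M, w, h, _⟩
  · exact (vN_iff.1 h).2.1
  · exact (vR_iff.1 h).2.1

theorem Acts.stK {t q : ℕ} (h : Acts t q) :
    stK (stt (t + 1)) = (stK (stt t)).take q ++ [(rq (stt t) q, true)] := by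
  rcases h with ⟨σ, w, _, h⟩ | ⟨σ, c, b, s', θ, M, w, _, h⟩
  · rw [h, stK_doN]
  · rw [h, stK_doR]

/-- how the stack changes -/
theorem stK_cases (t : ℕ) :
    (stt (t + 1) = doP (stt t)) ∨ (∃ q, Acts t q) ∨ (stK (stt (t + 1)) = stK (stt t)) := by
  rcases step_cases t with h | ⟨q, σ, w, h⟩ | ⟨q, σ, c, b, s', θ, M, w, h⟩ | ⟨i, v, w, h⟩ | h
  · exact Or.inl h
  · exact Or.inr (Or.inl ⟨q, Or.inl ⟨σ, w, h⟩⟩)
  · exact Or.inr (Or.inl ⟨q, Or.inr ⟨σ, c, b, s', θ, M, w, h⟩⟩)
  · exact Or.inr (Or.inr (by rw [h.2, stK_doC]))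
  · exact Or.inr (Or.inr (by rw [h]))

theorem Acts.rq_lt {t q q' : ℕ} (h : Acts t q) (hq : q' ≤ q) :
    rq (stt (t + 1)) q' = rq (stt t) q' := by
  have hl := lt_of_fl h.fl
  unfold rq
  rw [h.stK, getD_upd _ _ hl]
  split_ifs with h1 h2
  · rfl
  · subst h2; rfl
  · omega

theorem Acts.fl_lt {t q q' : ℕ} (h : Acts t q) (hq : q' < q) :
    MP95a9c1.fl (stt (t + 1)) q' = MP95a9c1.fl (stt t) q' := by
  have hl := lt_of_fl h.fl
  unfold MP95a9c1.fl
  rw [h.stK, getD_upd _ _ hl, if_pos hq]

theorem Acts.fl_self {t q : ℕ} (h : Acts t q) : MP95a9c1.fl (stt (t + 1)) q = true := by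
  have hl := lt_of_fl h.fl
  unfold MP95a9c1.fl
  rw [h.stK, getD_upd _ _ hl, if_neg (lt_irrefl _), if_pos rfl]

theorem Acts.len {t q : ℕ} (h : Acts t q) : (MP95a9c1.stK (stt (t + 1))).length = q + 1 := by
  have hl := lt_of_fl h.fl
  rw [h.stK, List.length_append, List.length_take, List.length_singleton]
  omega

theorem push_len {t : ℕ} (h : stt (t + 1) = doP (stt t)) :
    (stK (stt (t + 1))).length = (stK (stt t)).length + 1 := by
  rw [h, stK_doP, List.length_append, List.length_singleton]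

theorem push_rq {t q : ℕ} (h : stt (t + 1) = doP (stt t)) (hq : q < (stK (stt t)).length) :
    rq (stt (t + 1)) q = rq (stt t) q := by
  unfold rq
  rw [h, stK_doP, getD_push, if_pos hq]

theorem push_fl {t q : ℕ} (h : stt (t + 1) = doP (stt t)) (hq : q < (stK (stt t)).length) :
    fl (stt (t + 1)) q = fl (stt t) q := by
  unfold fl
  rw [h, stK_doP, getD_push, if_pos hq]

theorem push_last {t : ℕ} (h : stt (t + 1) = doP (stt t)) :
    rq (stt (t + 1)) (stK (stt t)).length = stN (stt t) ∧
      fl (stt (t + 1)) (stK (stt t)).length = false := by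
  unfold rq fl
  rw [h, stK_doP, getD_push, if_neg (lt_irrefl _), if_pos rfl]
  exact ⟨rfl, rfl⟩

/-- invariants of the states -/
structure Inv (st : St) : Prop where
  i1 : ∀ q < (stK st).length, rq st q < stN st
  i2 : ∀ q q', q < q' → q' < (stK st).length → rq st q < rq st q'
  i3 : ∀ x ∈ stA st, x < stN st
  i4 : ∀ x ∈ stB st, x ∈ stA st
  i5 : ∀ q, fl st q = false → rq st q ∉ stA st

theorem stN_mono (t : ℕ) : stN (stt t) ≤ stN (stt (t + 1)) := by
  rcases step_cases t with h | ⟨q, σ, w, h⟩ | ⟨q, σ, c, b, s', θ, M, w, h⟩ | ⟨i, v, w, h⟩ | h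
  · rw [h, stN_doP]; omega
  · rw [h.2, stN_doN]; omega
  · rw [h.2, stN_doR]; omega
  · rw [h.2, stN_doC]
  · rw [h]

theorem Acts.stN_lt {t q : ℕ} (h : Acts t q) : stN (stt t) < stN (stt (t + 1)) := by
  rcases h with ⟨σ, w, _, h⟩ | ⟨σ, c, b, s', θ, M, w, _, h⟩
  · rw [h, stN_doN]; omega
  · rw [h, stN_doR]; omega

theorem mem_A_cases {t x : ℕ} (h : x ∈ stA (stt (t + 1))) :
    x ∈ stA (stt t) ∨ ∃ q σ w, StepN t q σ w ∧ x = rq (stt t) q := by
  rcases step_cases t with h' | ⟨q, σ, w, h'⟩ | ⟨q, σ, c, b, s', θ, M, w, h'⟩ | ⟨i, v, w, h'⟩ | h'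
  · rw [h', stA_doP] at h; exact Or.inl h
  · rw [h'.2, stA_doN, List.mem_cons] at h
    rcases h with h | h
    · exact Or.inr ⟨q, σ, w, h', h⟩
    · exact Or.inl h
  · rw [h'.2, stA_doR] at h; exact Or.inl h
  · rw [h'.2, stA_doC] at h; exact Or.inl h
  · rw [h'] at h; exact Or.inl h

theorem A_mono {t x : ℕ} (h : x ∈ stA (stt t)) : x ∈ stA (stt (t + 1)) := by
  rcases step_cases t with h' | ⟨q, σ, w, h'⟩ | ⟨q, σ, c, b, s', θ, M, w, h'⟩ | ⟨i, v, w, h'⟩ | h'
  · rw [h', stA_doP]; exact h
  · rw [h'.2, stA_doN]; exact List.mem_cons_of_mem _ h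
  · rw [h'.2, stA_doR]; exact h
  · rw [h'.2, stA_doC]; exact h
  · rw [h']; exact h

theorem mem_B_cases {t x : ℕ} (h : x ∈ stB (stt (t + 1))) :
    x ∈ stB (stt t) ∨ ∃ q σ c b s' θ M w, StepR t q σ c b s' θ M w ∧ x ∈ stA (stt t) ∧
      x < σ.length ∧ σ.getD x false = false := by
  rcases step_cases t with h' | ⟨q, σ, w, h'⟩ | ⟨q, σ, c, b, s', θ, M, w, h'⟩ | ⟨i, v, w, h'⟩ | h'
  · rw [h', stB_doP] at h; exact Or.inl h
  · rw [h'.2, stB_doN] at h; exact Or.inl h
  · rw [h'.2, stB_doR, List.mem_append, List.mem_filter] at h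
    rcases h with h | ⟨h1, h2⟩
    · exact Or.inl h
    · simp only [Bool.and_eq_true, decide_eq_true_eq, Bool.not_eq_true'] at h2
      exact Or.inr ⟨q, σ, c, b, s', θ, M, w, h', h1, h2.1, h2.2⟩
  · rw [h'.2, stB_doC] at h; exact Or.inl h
  · rw [h'] at h; exact Or.inl h

theorem B_mono {t x : ℕ} (h : x ∈ stB (stt t)) : x ∈ stB (stt (t + 1)) := by
  rcases step_cases t with h' | ⟨q, σ, w, h'⟩ | ⟨q, σ, c, b, s', θ, M, w, h'⟩ | ⟨i, v, w, h'⟩ | h'
  · rw [h', stB_doP]; exact h
  · rw [h'.2, stB_doN]; exact h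
  · rw [h'.2, stB_doR]; exact List.mem_append_left _ h
  · rw [h'.2, stB_doC]; exact h
  · rw [h']; exact h

theorem inv (t : ℕ) : Inv (stt t) := by
  induction t with
  | zero =>
    have h0 : stt 0 = ([], [], 0, [], [], []) := rfl
    constructor
    · intro q hq; rw [h0] at hq; simp [stK] at hq
    · intro q q' _ hq; rw [h0] at hq; simp [stK] at hq
    · intro x hx; rw [h0] at hx; simp [stA] at hx
    · intro x hx; rw [h0] at hx; simp [stB] at hx
    · intro q hq; rw [h0] at hq; simp [fl, stK] at hq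
  | succ t ih =>
    have hA3 : ∀ x ∈ stA (stt (t + 1)), x < stN (stt (t + 1)) := by
      intro x hx
      rcases mem_A_cases hx with h | ⟨q, σ, w, h, rfl⟩
      · exact lt_of_lt_of_le (ih.i3 x h) (stN_mono t)
      · have hq := lt_of_fl (vN_iff.1 h.1).2.1
        exact lt_of_lt_of_le (ih.i1 q hq) (stN_mono t)
    have hB4 : ∀ x ∈ stB (stt (t + 1)), x ∈ stA (stt (t + 1)) := by
      intro x hx
      rcases mem_B_cases hx with h | ⟨q, σ, c, b, s', θ, M, w, h, h1, _⟩
      · exact A_mono (ih.i4 x h)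
      · exact A_mono h1
    rcases stK_cases t with h | ⟨q, h⟩ | h
    · have hlen := push_len h
      have hlast := push_last h
      have hNs : stN (stt (t + 1)) = stN (stt t) + 1 := by rw [h, stN_doP]
      refine ⟨?_, ?_, hA3, hB4, ?_⟩
      · intro q hq
        by_cases hq' : q < (stK (stt t)).length
        · rw [push_rq h hq', hNs]
          have := ih.i1 q hq'
          omega
        · have : q = (stK (stt t)).length := by omega
          rw [this, hlast.1, hNs]
          omega
      · intro q q' hqq hq'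
        by_cases h2 : q' < (stK (stt t)).length
        · rw [push_rq h (by omega), push_rq h h2]
          exact ih.i2 q q' hqq h2
        · have : q' = (stK (stt t)).length := by omega
          rw [this, hlast.1, push_rq h (by omega)]
          exact ih.i1 q (by omega)
      · intro q hq
        have hq0 := lt_of_fl hq
        have hAeq : stA (stt (t + 1)) = stA (stt t) := by rw [h, stA_doP]
        rw [hAeq]
        by_cases hq' : q < (stK (stt t)).length
        · rw [push_rq h hq']
          rw [push_fl h hq'] at hq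
          exact ih.i5 q hq
        · have : q = (stK (stt t)).length := by omega
          rw [this, hlast.1]
          intro hcon
          exact absurd (ih.i3 _ hcon) (lt_irrefl _)
    · have hlen := h.len
      have hql := lt_of_fl h.fl
      refine ⟨?_, ?_, hA3, hB4, ?_⟩
      · intro q' hq'
        rw [h.rq_lt (by omega)]
        exact lt_of_lt_of_le (ih.i1 q' (by omega)) (stN_mono t)
      · intro q' q'' h1 h2
        rw [h.rq_lt (by omega), h.rq_lt (by omega)]
        exact ih.i2 q' q'' h1 (by omega)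
      · intro q' hq'
        have h1 := lt_of_fl hq'
        have h2 : q' ≠ q := by
          rintro rfl
          rw [h.fl_self] at hq'
          exact absurd hq' (by simp)
        have h3 : q' < q := by omega
        rw [h.fl_lt h3] at hq'
        rw [h.rq_lt (by omega)]
        intro hcon
        rcases mem_A_cases hcon with h4 | ⟨q'', σ, w, h4, h5⟩
        · exact ih.i5 q' hq' h4
        · have h6 : Acts t q'' := Or.inl ⟨σ, w, h4⟩
          have h7 := h6.len
          have h8 : q'' = q := by omega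
          have h9 := ih.i2 q' q'' (by omega) (lt_of_fl h6.fl)
          omega
    · have hr : ∀ q, rq (stt (t + 1)) q = rq (stt t) q := by intro q; unfold rq; rw [h]
      have hf : ∀ q, fl (stt (t + 1)) q = fl (stt t) q := by intro q; unfold fl; rw [h]
      refine ⟨?_, ?_, hA3, hB4, ?_⟩
      · intro q hq
        rw [h] at hq
        rw [hr]
        exact lt_of_lt_of_le (ih.i1 q hq) (stN_mono t)
      · intro q q' h1 h2
        rw [h] at h2
        rw [hr, hr]
        exact ih.i2 q q' h1 h2
      · intro q hq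
        rw [hf] at hq
        rw [hr]
        intro hcon
        rcases mem_A_cases hcon with h4 | ⟨q'', σ, w, h4, h5⟩
        · exact ih.i5 q hq h4
        · have h6 : Acts t q'' := Or.inl ⟨σ, w, h4⟩
          have h7 := h6.fl_self
          rw [hf, h6.fl] at h7
          exact absurd h7 (by simp)

end Pool.Agent.Lib.MP95a9c1
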