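import Mathlib
import Pool.Agent.Lib.MP_95a9c1_lc.Verif

/-!
Stability of the stack, protection, limits.
-/

namespace Pool.Agent.Lib.MP95a9c1

open Encodable Denumerable
open Nat.Partrec (Code)

/-- the stack below `q` is stable from `T` on -/
def StabB (q T : ℕ) : Prop := ∀ t, T ≤ t → q ≤ (stK (stt t)).length ∧
  ∀ q' < q, rq (stt t) q' = rq (stt T) q' ∧ fl (stt t) q' = fl (stt T) q'

/-- the stack up to `q` is stable from `T` on -/
def Stab (q T : ℕ) : Prop := StabB (q + 1) T

theorem StabB.no_act {q T t q' : ℕ} (h : StabB q T) (ht : T ≤ t) (ha : Acts t q') : q ≤ q' := by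
  by_contra hcon
  push Not at hcon
  have h1 := (h t ht).2 q' hcon
  have h2 := (h (t + 1) (by omega)).2 q' hcon
  rw [ha.fl] at h1
  rw [ha.fl_self] at h2
  rw [← h1.2] at h2
  exact absurd h2.2 (by simp)

theorem StabB.mono {q T T' : ℕ} (h : StabB q T) (hT : T ≤ T') : StabB q T' := by
  intro t ht
  refine ⟨(h t (by omega)).1, ?_⟩
  intro q' hq'
  have h1 := (h t (by omega)).2 q' hq'
  have h2 := (h T' hT).2 q' hq'
  exact ⟨h1.1.trans h2.1.symm, h1.2.trans h2.2.symm⟩

theorem StabB.succ {q T : ℕ} (h : StabB q T) : ∃ T', StabB (q + 1) T' := by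
  obtain ⟨t1, ht1, hp⟩ := exists_push T
  have noact : ∀ t, T ≤ t → ∀ q', Acts t q' → q ≤ q' := fun t ht q' ha => h.no_act ht ha
  have hlen : ∀ t, t1 + 1 ≤ t → q < (stK (stt t)).length := by
    intro t ht
    induction t, ht using Nat.le_induction with
    | base =>
      have h1 := push_len hp
      have h2 := (h t1 ht1).1
      omega
    | succ t ht ih =>
      rcases stK_cases t with h1 | ⟨q', h1⟩ | h1
      · have := push_len h1; omega
      · have := h1.len
        have := noact t (by omega) q' h1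
        omega
      · rw [h1]; exact ih
  have hrq : ∀ t, t1 + 1 ≤ t → rq (stt t) q = rq (stt (t1 + 1)) q := by
    intro t ht
    induction t, ht using Nat.le_induction with
    | base => rfl
    | succ t ht ih =>
      rw [← ih]
      rcases stK_cases t with h1 | ⟨q', h1⟩ | h1
      · exact push_rq h1 (hlen t ht)
      · exact h1.rq_lt (noact t (by omega) q' h1)
      · unfold rq; rw [h1]
  have hfl : ∀ t, t1 + 1 ≤ t → fl (stt t) q = true → fl (stt (t + 1)) q = true := by
    intro t ht hf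
    rcases stK_cases t with h1 | ⟨q', h1⟩ | h1
    · rw [push_fl h1 (hlen t ht)]; exact hf
    · have h2 := noact t (by omega) q' h1
      rcases Nat.lt_or_ge q q' with h3 | h3
      · rw [h1.fl_lt h3]; exact hf
      · have : q = q' := by omega
        subst this
        exact h1.fl_self
    · unfold fl; rw [h1]; exact hf
  by_cases hex : ∃ t2, t1 + 1 ≤ t2 ∧ fl (stt t2) q = true
  · obtain ⟨t2, ht2, hf2⟩ := hex
    have hf : ∀ t, t2 ≤ t → fl (stt t) q = true := by
      intro t ht
      induction t, ht using Nat.le_induction with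
      | base => exact hf2
      | succ t ht ih => exact hfl t (by omega) ih
    refine ⟨t2, ?_⟩
    intro t ht
    refine ⟨hlen t (by omega), ?_⟩
    intro q' hq'
    rcases Nat.lt_or_ge q' q with h3 | h3
    · exact ((h.mono (show T ≤ t2 by omega)) t ht).2 q' h3
    · have : q' = q := by omega
      subst this
      exact ⟨(hrq t (by omega)).trans (hrq t2 ht2).symm, (hf t ht).trans hf2.symm⟩
  · push Not at hex
    refine ⟨t1 + 1, ?_⟩
    intro t ht
    refine ⟨hlen t (by omega), ?_⟩
    intro q' hq'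
    rcases Nat.lt_or_ge q' q with h3 | h3
    · exact ((h.mono (show T ≤ t1 + 1 by omega)) t ht).2 q' h3
    · have : q' = q := by omega
      subst this
      refine ⟨hrq t (by omega), ?_⟩
      have h4 := hex t ht
      have h5 := hex (t1 + 1) le_rfl
      rw [Bool.eq_false_iff.2 h4, Bool.eq_false_iff.2 h5]

theorem exists_stabB (q : ℕ) : ∃ T, StabB q T := by
  induction q with
  | zero => exact ⟨0, fun t _ => ⟨Nat.zero_le _, fun q' hq' => absurd hq' (Nat.not_lt_zero _)⟩⟩
  | succ q ih =>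
    obtain ⟨T, hT⟩ := ih
    exact hT.succ

theorem exists_stab (q : ℕ) : ∃ T, Stab q T := exists_stabB (q + 1)

theorem Stab.lt_len {q T t : ℕ} (h : Stab q T) (ht : T ≤ t) : q < (stK (stt t)).length :=
  (h t ht).1

theorem Stab.rq_eq {q T t q' : ℕ} (h : Stab q T) (ht : T ≤ t) (hq : q' ≤ q) :
    rq (stt t) q' = rq (stt T) q' := ((h t ht).2 q' (by omega)).1

theorem Stab.fl_eq {q T t q' : ℕ} (h : Stab q T) (ht : T ≤ t) (hq : q' ≤ q) :
    fl (stt t) q' = fl (stt T) q' := ((h t ht).2 q' (by omega)).2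

theorem Stab.no_act {q T t q' : ℕ} (h : Stab q T) (ht : T ≤ t) (ha : Acts t q') : q < q' :=
  StabB.no_act h ht ha

theorem Stab.mono {q T T' : ℕ} (h : Stab q T) (hT : T ≤ T') : Stab q T' := StabB.mono h hT

theorem Stab.act_rq {q T t q' : ℕ} (h : Stab q T) (ht : T ≤ t) (ha : Acts t q') :
    rq (stt T) q + 1 ≤ rq (stt t) q' := by
  have h1 := h.no_act ht ha
  have h2 := (inv t).i2 q q' h1 (lt_of_fl ha.fl)
  rw [h.rq_eq ht le_rfl] at h2
  omega

theorem le_rq {t q : ℕ} (hq : q < (stK (stt t)).length) : q ≤ rq (stt t) q := by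
  induction q with
  | zero => exact Nat.zero_le _
  | succ q ih =>
    have h1 := ih (by omega)
    have h2 := (inv t).i2 q (q + 1) (by omega) hq
    omega

/-! ### Permutations -/

theorem sw_sw (p : ℕ × ℕ) (x : ℕ) : sw p (sw p x) = x := by
  unfold sw
  simp only [decide_eq_true_eq]
  split_ifs <;> simp_all

theorem ap_cons (p : ℕ × ℕ) (s : List (ℕ × ℕ)) (x : ℕ) : ap (p :: s) x = sw p (ap s x) := rfl

theorem ap_append (s s' : List (ℕ × ℕ)) (x : ℕ) : ap (s ++ s') x = ap s (ap s' x) := by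
  unfold ap
  rw [List.foldr_append]

theorem api_ap (s : List (ℕ × ℕ)) (x : ℕ) : api s (ap s x) = x := by
  induction s generalizing x with
  | nil => rfl
  | cons p s ih =>
    unfold api at ih ⊢
    rw [List.reverse_cons, ap_append]
    have : ap [p] (ap (p :: s) x) = ap s x := sw_sw p _
    rw [this]
    exact ih x

theorem ap_api (s : List (ℕ × ℕ)) (x : ℕ) : ap s (api s x) = x := by
  have := api_ap s.reverse x
  unfold api at this ⊢
  rw [List.reverse_reverse] at this
  exact this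

theorem ap_inj (s : List (ℕ × ℕ)) : Function.Injective (ap s) := by
  intro x y h
  rw [← api_ap s x, h, api_ap]

/-- every finite injective map extends to a finitary permutation -/
theorem exists_ap (e : ℕ → ℕ) (M : ℕ) (he : ∀ b < M, ∀ b' < b, e b' ≠ e b) :
    ∃ s : List (ℕ × ℕ), ∀ b < M, ap s b = e b := by
  induction M with
  | zero => exact ⟨[], fun b hb => absurd hb (Nat.not_lt_zero _)⟩
  | succ M ih =>
    obtain ⟨s, hs⟩ := ih (fun b hb => he b (by omega))
    refine ⟨(ap s M, e M) :: s, ?_⟩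
    intro b hb
    rw [ap_cons]
    unfold sw
    simp only [decide_eq_true_eq]
    rcases Nat.lt_or_ge b M with h | h
    · rw [hs b h]
      have h1 : e b ≠ ap s M := by
        rw [← hs b h]
        intro h'
        have := ap_inj s h'
        omega
      have h2 : e b ≠ e M := he M (by omega) b h
      rw [if_neg h1, if_neg h2]
    · have : b = M := by omega
      subst this
      rw [if_pos rfl]

/-! ### Protection -/

theorem prot_step {b t : ℕ} (h : ∀ q, Acts t q → b ≤ rq (stt t) q) {x : ℕ} (hx : x < b) :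
    (x ∈ stA (stt (t + 1)) ↔ x ∈ stA (stt t)) ∧ (x ∈ stB (stt (t + 1)) ↔ x ∈ stB (stt t)) ∧
    ∀ i, ap (gS (stt (t + 1)) i) x = ap (gS (stt t) i) x ∧
      api (gS (stt (t + 1)) i) x = api (gS (stt t) i) x := by
  refine ⟨⟨?_, A_mono⟩, ⟨?_, B_mono⟩, ?_⟩
  · intro h1
    rcases mem_A_cases h1 with h2 | ⟨q, σ, w, h2, rfl⟩
    · exact h2
    · have := h q (Or.inl ⟨σ, w, h2⟩)
      omega
  · intro h1
    rcases mem_B_cases h1 with h2 | ⟨q, σ, c, b', s', θ, M, w, h2, h3, h4, h5⟩
    · exact h2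
    · by_contra hcon
      have h6 := h q (Or.inr ⟨σ, c, b', s', θ, M, w, h2⟩)
      have h7 := (vR_iff.1 h2.1).2.2.1
      have h8 := (okS_iff.1 h7 x h4).2 (by omega) h3 hcon
      rw [h5] at h8
      exact absurd h8 (by simp)
  · intro i
    rcases step_cases t with h' | ⟨q, σ, w, h'⟩ | ⟨q, σ, c, b', s', θ, M, w, h'⟩ | ⟨j, v, w, h'⟩ | h'
    · rw [h', gS_doP]; exact ⟨rfl, rfl⟩
    · rw [h'.2, gS_doN]; exact ⟨rfl, rfl⟩
    · rw [h'.2]
      by_cases hi : i = qi q
      · subst hi
        rw [gS_doR_self]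
        unfold newS
        split_ifs with hb
        · exact ⟨rfl, rfl⟩
        · have h6 := h q (Or.inr ⟨σ, c, b', s', θ, M, w, h'⟩)
          rcases (vR_iff.1 h'.1).2.2.2.2.1 with h7 | h7
          · exact absurd h7 hb
          · exact agree_iff.1 h7.1 x (by omega)
      · rw [gS_doR_ne _ _ _ _ _ _ _ hi]; exact ⟨rfl, rfl⟩
    · rw [h'.2, gS_doC]; exact ⟨rfl, rfl⟩
    · rw [h']; exact ⟨rfl, rfl⟩

theorem prot {b T : ℕ} (h : ∀ t, T ≤ t → ∀ q, Acts t q → b ≤ rq (stt t) q) {t : ℕ} (ht : T ≤ t)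
    {x : ℕ} (hx : x < b) :
    (x ∈ stA (stt t) ↔ x ∈ stA (stt T)) ∧ (x ∈ stB (stt t) ↔ x ∈ stB (stt T)) ∧
    ∀ i, ap (gS (stt t) i) x = ap (gS (stt T) i) x ∧
      api (gS (stt t) i) x = api (gS (stt T) i) x := by
  induction t, ht using Nat.le_induction with
  | base => exact ⟨Iff.rfl, Iff.rfl, fun i => ⟨rfl, rfl⟩⟩
  | succ t ht ih =>
    have h1 := prot_step (h t ht) hx
    refine ⟨h1.1.trans ih.1, h1.2.1.trans ih.2.1, ?_⟩
    intro i
    exact ⟨(h1.2.2 i).1.trans (ih.2.2 i).1, (h1.2.2 i).2.trans (ih.2.2 i).2⟩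

theorem Stab.prot {q T t x : ℕ} (h : Stab q T) (ht : T ≤ t) (hx : x ≤ rq (stt T) q) :
    (x ∈ stA (stt t) ↔ x ∈ stA (stt T)) ∧ (x ∈ stB (stt t) ↔ x ∈ stB (stt T)) ∧
    ∀ i, ap (gS (stt t) i) x = ap (gS (stt T) i) x ∧
      api (gS (stt t) i) x = api (gS (stt T) i) x :=
  MP95a9c1.prot (b := rq (stt T) q + 1) (fun _ ht' _ ha => h.act_rq ht' ha) ht (by omega)

/-- after the last action of `q` all entries above are large -/
theorem acted_large {ta q : ℕ} (ha : Acts ta q) {t : ℕ} (ht : ta + 1 ≤ t) :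
    ∀ q', q < q' → q' < (stK (stt t)).length → stN (stt (ta + 1)) ≤ rq (stt t) q' := by
  have hN : ∀ t, ta + 1 ≤ t → stN (stt (ta + 1)) ≤ stN (stt t) := by
    intro t ht
    induction t, ht using Nat.le_induction with
    | base => exact le_rfl
    | succ t ht ih => exact ih.trans (stN_mono t)
  induction t, ht using Nat.le_induction with
  | base =>
    intro q' h1 h2
    rw [ha.len] at h2
    omega
  | succ t ht ih =>
    intro q' h1 h2
    rcases stK_cases t with h3 | ⟨q'', h3⟩ | h3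
    · rw [push_len h3] at h2
      rcases Nat.lt_or_ge q' (stK (stt t)).length with h4 | h4
      · rw [push_rq h3 h4]; exact ih q' h1 h4
      · have : q' = (stK (stt t)).length := by omega
        rw [this, (push_last h3).1]
        exact hN t ht
    · rw [h3.len] at h2
      rw [h3.rq_lt (by omega)]
      exact ih q' h1 (by have := lt_of_fl h3.fl; omega)
    · have : rq (stt (t + 1)) q' = rq (stt t) q' := by unfold rq; rw [h3]
      rw [this]
      rw [h3] at h2
      exact ih q' h1 h2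

theorem acted_prot {ta q : ℕ} (ha : Acts ta q) (hs : Stab q (ta + 1)) {t x : ℕ}
    (ht : ta + 1 ≤ t) (hx : x < stN (stt (ta + 1))) :
    (x ∈ stA (stt t) ↔ x ∈ stA (stt (ta + 1))) ∧ (x ∈ stB (stt t) ↔ x ∈ stB (stt (ta + 1))) ∧
    ∀ i, ap (gS (stt t) i) x = ap (gS (stt (ta + 1)) i) x ∧
      api (gS (stt t) i) x = api (gS (stt (ta + 1)) i) x :=
  prot (b := stN (stt (ta + 1))) (fun _ ht' q' ha' =>
    acted_large ha ht' q' (hs.no_act ht' ha') (lt_of_fl ha'.fl)) ht hx

/-- if the final flag of `q` is true, then `q` acted and was stable afterwards -/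
theorem exists_acted {q T : ℕ} (hs : Stab q T) (hf : fl (stt T) q = true) :
    ∃ ta, Acts ta q ∧ Stab q (ta + 1) := by
  classical
  have hex : ∃ T, Stab q T := ⟨T, hs⟩
  set T0 := Nat.find hex with hT0
  have hs0 : Stab q T0 := Nat.find_spec hex
  have hT0T : T0 ≤ T := Nat.find_min' hex hs
  have hf0 : fl (stt T0) q = true := by
    rw [← hs0.fl_eq hT0T le_rfl]; exact hf
  have hpos : T0 ≠ 0 := by
    intro h0
    have h1 := hs0.lt_len le_rfl
    rw [h0] at h1
    have h2 : stt 0 = ([], [], 0, [], [], []) := rfl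
    rw [h2] at h1
    simp [stK] at h1
  obtain ⟨ta, hta⟩ : ∃ ta, T0 = ta + 1 := ⟨T0 - 1, by omega⟩
  have hns : ¬ Stab q ta := Nat.find_min hex (by omega)
  rw [hta] at hs0 hf0
  -- a criterion for stability at `ta`
  have crit : q < (stK (stt ta)).length → (∀ q' ≤ q, rq (stt (ta + 1)) q' = rq (stt ta) q' ∧
      fl (stt (ta + 1)) q' = fl (stt ta) q') → False := by
    intro h1 h2
    apply hns
    intro t ht
    rcases Nat.eq_or_lt_of_le ht with h3 | h3
    · rw [← h3]
      exact ⟨h1, fun q' _ => ⟨rfl, rfl⟩⟩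
    · refine ⟨hs0.lt_len h3, ?_⟩
      intro q' hq'
      have h4 := h2 q' (by omega)
      exact ⟨(hs0.rq_eq h3 (by omega)).trans h4.1, (hs0.fl_eq h3 (by omega)).trans h4.2⟩
  refine ⟨ta, ?_, hs0⟩
  rcases stK_cases ta with h | ⟨q', h⟩ | h
  · exfalso
    rcases Nat.lt_or_ge q (stK (stt ta)).length with h1 | h1
    · exact crit h1 (fun q' hq' => ⟨push_rq h (by omega), push_fl h (by omega)⟩)
    · have h2 := hs0.lt_len le_rfl
      rw [push_len h] at h2
      have h3 : q = (stK (stt ta)).length := by omega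
      rw [h3, (push_last h).2] at hf0
      exact absurd hf0 (by simp)
  · have h1 := hs0.lt_len le_rfl
    rw [h.len] at h1
    rcases Nat.lt_or_ge q q' with h2 | h2
    · exfalso
      exact crit (by have := lt_of_fl h.fl; omega)
        (fun q'' hq'' => ⟨h.rq_lt (by omega), h.fl_lt (by omega)⟩)
    · have : q = q' := by omega
      rw [this]
      exact h
  · exfalso
    have h1 := hs0.lt_len le_rfl
    rw [h] at h1
    refine crit h1 (fun q' _ => ?_)
    unfold rq fl
    rw [h]
    exact ⟨rfl, rfl⟩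

/-! ### Limits -/

/-- a time from which everything about `x` is stable -/
noncomputable def Tst (x : ℕ) : ℕ := (exists_stab x).choose

theorem Tst_spec (x : ℕ) : Stab x (Tst x) := (exists_stab x).choose_spec

theorem Tst_prot {x t : ℕ} (ht : Tst x ≤ t) :
    (x ∈ stA (stt t) ↔ x ∈ stA (stt (Tst x))) ∧ (x ∈ stB (stt t) ↔ x ∈ stB (stt (Tst x))) ∧
    ∀ i, ap (gS (stt t) i) x = ap (gS (stt (Tst x)) i) x ∧
      api (gS (stt t) i) x = api (gS (stt (Tst x)) i) x :=
  (Tst_spec x).prot ht (le_rq ((Tst_spec x).lt_len le_rfl))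

/-- the limit permutation of the copy number `i` -/
noncomputable def sLim (i : ℕ) : Equiv.Perm ℕ where
  toFun x := ap (gS (stt (Tst x)) i) x
  invFun x := api (gS (stt (Tst x)) i) x
  left_inv x := by
    show api (gS (stt (Tst (ap (gS (stt (Tst x)) i) x))) i) (ap (gS (stt (Tst x)) i) x) = x
    set y := ap (gS (stt (Tst x)) i) x with hy
    have h1 := ((Tst_prot (x := x) (le_max_left (Tst x) (Tst y))).2.2 i).1
    have h2 := ((Tst_prot (x := y) (le_max_right (Tst x) (Tst y))).2.2 i).2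
    rw [← h2]
    have h3 := api_ap (gS (stt (max (Tst x) (Tst y))) i) x
    rw [h1] at h3
    exact h3
  right_inv x := by
    show ap (gS (stt (Tst (api (gS (stt (Tst x)) i) x))) i) (api (gS (stt (Tst x)) i) x) = x
    set y := api (gS (stt (Tst x)) i) x with hy
    have h1 := ((Tst_prot (x := x) (le_max_left (Tst x) (Tst y))).2.2 i).2
    have h2 := ((Tst_prot (x := y) (le_max_right (Tst x) (Tst y))).2.2 i).1
    rw [← h2]
    have h3 := ap_api (gS (stt (max (Tst x) (Tst y))) i) x
    rw [h1] at h3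
    exact h3

theorem sLim_eq {i x t : ℕ} (ht : Tst x ≤ t) : ap (gS (stt t) i) x = sLim i x :=
  ((Tst_prot ht).2.2 i).1

theorem sLim_symm_eq {i x t : ℕ} (ht : Tst x ≤ t) :
    api (gS (stt t) i) x = (sLim i).symm x :=
  ((Tst_prot ht).2.2 i).2

/-- the sets -/
def setA : Set ℕ := {x | ∃ t, x ∈ stA (stt t)}
def setB : Set ℕ := {x | ∃ t, x ∈ stB (stt t)}

theorem A_mono' {t t' x : ℕ} (ht : t ≤ t') (h : x ∈ stA (stt t)) : x ∈ stA (stt t') := by
  induction t', ht using Nat.le_induction with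
  | base => exact h
  | succ t' _ ih => exact A_mono ih

theorem B_mono' {t t' x : ℕ} (ht : t ≤ t') (h : x ∈ stB (stt t)) : x ∈ stB (stt t') := by
  induction t', ht using Nat.le_induction with
  | base => exact h
  | succ t' _ ih => exact B_mono ih

theorem setA_iff {x t : ℕ} (ht : Tst x ≤ t) : x ∈ setA ↔ x ∈ stA (stt t) := by
  constructor
  · rintro ⟨t', h⟩
    have h1 := A_mono' (le_max_left t' t) h
    rw [(Tst_prot (x := x) (t := max t' t) (ht.trans (le_max_right _ _))).1] at h1
    exact (Tst_prot ht).1.2 h1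
  · intro h; exact ⟨t, h⟩

theorem setB_iff {x t : ℕ} (ht : Tst x ≤ t) : x ∈ setB ↔ x ∈ stB (stt t) := by
  constructor
  · rintro ⟨t', h⟩
    have h1 := B_mono' (le_max_left t' t) h
    rw [(Tst_prot (x := x) (t := max t' t) (ht.trans (le_max_right _ _))).2.1] at h1
    exact (Tst_prot ht).2.1.2 h1
  · intro h; exact ⟨t, h⟩

theorem setB_sub {x : ℕ} (h : x ∈ setB) : x ∈ setA := by
  obtain ⟨t, h⟩ := h
  exact ⟨t, (inv t).i4 x h⟩

end Pool.Agent.Lib.MP95a9c1
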