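import Mathlib
import Pool.Agent.Lib.MP_95a9c1_lc.Stab
import Pool.Agent.Lib.MP_95a9c1_lc.RE

/-!
The requirements of the first kind: `A \ B` is not computable from `B`.
-/

namespace Pool.Agent.Lib.MP95a9c1

open Encodable Denumerable
open Nat.Partrec (Code)

theorem exists_Wn (W : List Bool × ℕ × ℕ → Prop) (hW : REPred W) :
    ∃ e, ∀ σ x y, W (σ, x, y) ↔ ∃ w, Wn e w σ x y = true := by
  obtain ⟨c, hc⟩ := Code.exists_code.1 hW
  refine ⟨encode c, ?_⟩
  intro σ x y
  unfold Wn
  rw [ofNat_encode]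
  have h1 : W (σ, x, y) ↔ ∃ z, z ∈ Code.eval c (encode (σ, x, y)) := by
    rw [hc]
    simp
  rw [h1]
  constructor
  · rintro ⟨z, hz⟩
    obtain ⟨k, hk⟩ := Code.evaln_complete.1 hz
    exact ⟨k, by simp only [Option.mem_def] at hk; rw [hk]; rfl⟩
  · rintro ⟨w, hw⟩
    simp only [Option.isSome_iff_exists] at hw
    obtain ⟨z, hz⟩ := hw
    exact ⟨z, Code.evaln_sound hz⟩

theorem Wn_mono {e w w' : ℕ} {σ : List Bool} {x y : ℕ} (hw : w ≤ w') (h : Wn e w σ x y = true) :
    Wn e w' σ x y = true := by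
  unfold Wn at h ⊢
  rw [Option.isSome_iff_exists] at h ⊢
  obtain ⟨z, hz⟩ := h
  exact ⟨z, Code.evaln_mono hw hz⟩

theorem length_strOf (X : Set ℕ) (n : ℕ) : (strOf X n).length = n := by
  simp [strOf]

theorem getD_strOf (X : Set ℕ) (n x : ℕ) (hx : x < n) :
    (strOf X n).getD x false = true ↔ x ∈ X := by
  unfold strOf
  rw [List.getD_eq_getElem _ _ (by simpa using hx)]
  simp

theorem strOf_unique (X : Set ℕ) (σ : List Bool)
    (h : ∀ x < σ.length, (σ.getD x false = true ↔ x ∈ X)) : strOf X σ.length = σ := by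
  apply List.ext_getElem
  · rw [length_strOf]
  · intro x h1 h2
    have h3 := getD_strOf X σ.length x h2
    have h4 := h x h2
    rw [List.getD_eq_getElem _ _ h1] at h3
    rw [List.getD_eq_getElem _ _ h2] at h4
    rw [Bool.eq_iff_iff, h3, h4]

theorem take_strOf (X : Set ℕ) (n k : ℕ) (hk : k ≤ n) : (strOf X n).take k = strOf X k := by
  unfold strOf
  rw [← List.map_take, List.take_range, min_eq_left hk]

theorem exists_bound_Tst (n : ℕ) : ∃ T, ∀ x < n, Tst x ≤ T := by
  induction n with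
  | zero => exact ⟨0, fun x hx => absurd hx (Nat.not_lt_zero _)⟩
  | succ n ih =>
    obtain ⟨T, hT⟩ := ih
    refine ⟨max T (Tst n), ?_⟩
    intro x hx
    rcases Nat.lt_or_ge x n with h | h
    · exact (hT x h).trans (le_max_left _ _)
    · have : x = n := by omega
      rw [this]
      exact le_max_right _ _

/-- membership below the counter is decided when `q` acts for the last time -/
theorem acted_B {ta q : ℕ} (ha : Acts ta q) (hs : Stab q (ta + 1)) {x : ℕ}
    (hx : x < stN (stt (ta + 1))) : x ∈ setB ↔ x ∈ stB (stt (ta + 1)) := by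
  rw [setB_iff (t := max (Tst x) (ta + 1)) (le_max_left _ _)]
  exact (acted_prot ha hs (le_max_right _ _) hx).2.1

theorem acted_A {ta q : ℕ} (ha : Acts ta q) (hs : Stab q (ta + 1)) {x : ℕ}
    (hx : x < stN (stt (ta + 1))) : x ∈ setA ↔ x ∈ stA (stt (ta + 1)) := by
  rw [setA_iff (t := max (Tst x) (ta + 1)) (le_max_left _ _)]
  exact (acted_prot ha hs (le_max_right _ _) hx).1

theorem acted_S {ta q : ℕ} (ha : Acts ta q) (hs : Stab q (ta + 1)) {x : ℕ}
    (hx : x < stN (stt (ta + 1))) (i : ℕ) : sLim i x = ap (gS (stt (ta + 1)) i) x := by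
  rw [← sLim_eq (t := max (Tst x) (ta + 1)) (le_max_left _ _)]
  exact ((acted_prot ha hs (le_max_right _ _) hx).2.2 i).1

/-- `A \ B` is not computable from `B` via a set of axioms -/
theorem reqN (f : ℕ → ℕ) (hf1 : ∀ x, x ∈ setA → x ∉ setB → f x = 1)
    (hf0 : ∀ x, x ∉ setA → f x = 0)
    (W : List Bool × ℕ × ℕ → Prop) (hW : REPred W)
    (h : ∀ x y, f x = y ↔ ∃ n, W (strOf setB n, x, y)) : False := by
  obtain ⟨e, he⟩ := exists_Wn W hW
  set q := 2 * e with hq
  have hq2 : q % 2 = 0 := by omega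
  have hqe : q / 2 = e := by omega
  obtain ⟨T, hT⟩ := exists_stab q
  rcases hfl : fl (stt T) q with _ | _
  · -- the flag is false
    have hrA : rq (stt T) q ∉ setA := by
      rintro ⟨t, ht⟩
      have h1 := A_mono' (le_max_left t T) ht
      have h2 := hT.rq_eq (le_max_right t T) le_rfl
      have h3 := hT.fl_eq (le_max_right t T) le_rfl
      rw [hfl] at h3
      have h4 := (inv (max t T)).i5 q h3
      rw [h2] at h4
      exact h4 h1
    have h1 := hf0 _ hrA
    rw [h] at h1
    obtain ⟨n, hn⟩ := h1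
    rw [he] at hn
    obtain ⟨w, hw⟩ := hn
    obtain ⟨T', hT'⟩ := exists_bound_Tst n
    have hv : ∀ t, max T T' ≤ t → vN (stt t) q (strOf setB n) w = true := by
      intro t ht
      rw [vN_iff]
      refine ⟨hq2, ?_, ?_, ?_⟩
      · rw [hT.fl_eq ((le_max_left T T').trans ht) le_rfl]; exact hfl
      · intro x hx
        rw [length_strOf] at hx
        rw [getD_strOf _ _ _ hx]
        exact setB_iff ((hT' x hx).trans ((le_max_right T T').trans ht))
      · rw [hqe, hT.rq_eq ((le_max_left T T').trans ht) le_rfl]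
        exact hw
    obtain ⟨t, ht, hs⟩ := exists_N hv
    have := hT.no_act ((le_max_left T T').trans ht) (Or.inl ⟨_, _, hs⟩)
    omega
  · -- the flag is true
    obtain ⟨ta, ha, hs⟩ := exists_acted hT hfl
    rcases id ha with ⟨σ, w, h1⟩ | ⟨σ, c, b, s', θ, M, w, h1⟩
    · obtain ⟨_, h2, h3, h4⟩ := vN_iff.1 h1.1
      have hBeq : stB (stt (ta + 1)) = stB (stt ta) := by rw [h1.2, stB_doN]
      have hNgt : σ.length < stN (stt (ta + 1)) := by rw [h1.2, stN_doN]; omega
      have hstr : strOf setB σ.length = σ := by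
        apply strOf_unique
        intro x hx
        rw [acted_B ha hs (by omega), hBeq]
        exact h3 x hx
      rw [hqe] at h4
      have h5 : f (rq (stt ta) q) = 0 := by
        rw [h]
        refine ⟨σ.length, ?_⟩
        rw [hstr, he]
        exact ⟨w, h4⟩
      have hrN : rq (stt ta) q < stN (stt (ta + 1)) :=
        lt_of_lt_of_le ((inv ta).i1 q (lt_of_fl h2)) (stN_mono ta)
      have h6 : rq (stt ta) q ∈ setA := ⟨ta + 1, by rw [h1.2, stA_doN]; exact List.mem_cons_self⟩
      have h7 : rq (stt ta) q ∉ setB := by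
        rw [acted_B ha hs hrN, hBeq]
        intro h8
        exact (inv ta).i5 q h2 ((inv ta).i4 _ h8)
      rw [hf1 _ h6 h7] at h5
      exact absurd h5 one_ne_zero
    · have := (vR_iff.1 h1.1).1
      omega

end Pool.Agent.Lib.MP95a9c1
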