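import Mathlib
import Pool.Agent.Lib.MP_95a9c1_lc.ReqN

/-!
The copies: recorded truth values are correct, and their number tends to infinity.
-/

namespace Pool.Agent.Lib.MP95a9c1

open Encodable Denumerable
open Nat.Partrec (Code)

/-- the `i`-th candidate is the truth function of the structure `S` -/
def GoodT (L : CLang) (S : Str) (i : ℕ) : Prop :=
  ∀ (m : ℕ) (l : List ℕ), ∃ b : Bool, (b = true ↔ Tr L S m (fun k => l.getD k 0)) ∧
    encode b ∈ (ofNat Code i).eval (encode (m, l))

theorem good_of_dec {L : CLang} {S : Str} (h : DecStr L S) : ∃ i, GoodT L S i := by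
  obtain ⟨T, hT, h1⟩ := h
  obtain ⟨c, hc⟩ := Code.exists_code.1 hT.partrec
  refine ⟨encode c, ?_⟩
  intro m l
  refine ⟨T (m, l), ?_, ?_⟩
  · have := h1 (ofCode m) l
    rw [code_ofCode] at this
    exact this
  · rw [ofNat_encode, hc]
    simp

open Classical in
/-- truth value -/
noncomputable def tv (L : CLang) (S : Str) (m : ℕ) (v : ℕ → ℕ) : Bool := decide (Tr L S m v)

theorem tv_iff {L : CLang} {S : Str} {m : ℕ} {v : ℕ → ℕ} : tv L S m v = true ↔ Tr L S m v := by
  unfold tv; simp

theorem tv_congr {L : CLang} {S : Str} {m : ℕ} {v v' : ℕ → ℕ} (h : ∀ i ≤ m, v i = v' i) :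
    tv L S m v = tv L S m v' := by
  rw [Bool.eq_iff_iff, tv_iff, tv_iff]
  exact Tr_congr m v v' h

theorem tv_false_iff {L : CLang} {S : Str} {m : ℕ} {v : ℕ → ℕ} :
    tv L S m v = false ↔ ¬ Tr L S m v := by
  unfold tv; simp

variable {L : CLang} {S : Str} {i : ℕ}

theorem Tn_sound (hG : GoodT L S i) {w m u : ℕ} {l : List ℕ} (h : Tn i w m l = some u) :
    u = encode (tv L S m (fun k => l.getD k 0)) := by
  obtain ⟨b, hb1, hb2⟩ := hG m l
  have h1 : u ∈ (ofNat Code i).eval (encode (m, l)) := Code.evaln_sound h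
  have h2 := Part.mem_unique h1 hb2
  rw [h2]
  congr 1
  rw [Bool.eq_iff_iff, tv_iff]
  exact hb1

theorem Tn_complete (hG : GoodT L S i) (m : ℕ) (l : List ℕ) :
    ∀ᶠ w in Filter.atTop, Tn i w m l = some (encode (tv L S m (fun k => l.getD k 0))) := by
  obtain ⟨b, hb1, hb2⟩ := hG m l
  obtain ⟨k, hk⟩ := Code.evaln_complete.1 hb2
  have h1 : b = tv L S m (fun k => l.getD k 0) := by
    rw [Bool.eq_iff_iff, tv_iff]
    exact hb1
  rw [← h1]
  filter_upwards [Filter.eventually_ge_atTop k] with w hw
  exact Code.evaln_mono hw hk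

theorem encode_bool_inj {b b' : Bool} (h : encode b = encode b') : b = b' :=
  encode_injective h

theorem getD_apl (s : List (ℕ × ℕ)) (n k : ℕ) (hk : k < n) : (apl s n).getD k 0 = ap s k := by
  unfold apl
  rw [List.getD_eq_getElem _ _ (by simpa using hk)]
  simp

theorem tv_apl (s : List (ℕ × ℕ)) (m : ℕ) :
    tv L S m (fun k => (apl s (m + 1)).getD k 0) = tv L S m (ap s) :=
  tv_congr (fun k hk => getD_apl s (m + 1) k (by omega))

theorem tv_asgL (M : ℕ) (x : List ℕ) (θ : ℕ) :
    tv L S θ (fun k => (asgL M x (θ + 1)).getD k 0) = tv L S θ (asg M x) := by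
  apply tv_congr
  intro k hk
  unfold asgL
  rw [List.getD_eq_getElem _ _ (by simp; omega)]
  simp

theorem getD_pas (s : List (ℕ × ℕ)) (P : List ℕ) (n k : ℕ) (hk : k < n) (hP : k ∈ P) :
    (pas s P n).getD k 0 = ap s k := by
  unfold pas
  rw [List.getD_eq_getElem _ _ (by simpa using hk)]
  simp [hP]

theorem vC_iff {st : St} {v : Bool} {w : ℕ} : vC st i v w = true ↔
    Tn i w (gC st i).length (apl (gS st i) ((gC st i).length + 1)) = some (encode v) ∧
    ∀ d ≤ (gC st i).length, encode (dz d) = d →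
      elig st i (dz d).1 (dz d).2.1 (dz d).2.2.1 (dz d).2.2.2 = true →
      Tn i w (xcode st i v (dz d).1 (dz d).2.2.1) (xass st i (dz d).1 (dz d).2.2.1) = some 0 := by
  unfold vC noviol
  simp only [Bool.and_eq_true, decide_eq_true_eq, List.all_eq_true, List.mem_range,
    Bool.or_eq_true, Bool.not_eq_true', Nat.lt_succ_iff]
  apply and_congr_right
  intro _
  apply forall_congr'
  intro d
  apply forall_congr'
  intro _
  by_cases h1 : encode (dz d) = d <;>
  by_cases h2 : elig st i (dz d).1 (dz d).2.1 (dz d).2.2.1 (dz d).2.2.2 = true <;>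
  simp [h1, h2]

theorem elig_iff {st : St} {q : ℕ} {σ : List Bool} {c : List ℕ} {wc : ℕ} :
    elig st i q σ c wc = true ↔ q % 2 = 1 ∧ qi q = i ∧ fl st q = false ∧
      okS st (rq st q) σ = true ∧ cert (qj q) wc σ c = true ∧
      ∀ b ∈ Pl (gS st i) (rq st q), b ∈ c := by
  unfold elig
  simp only [Bool.and_eq_true, decide_eq_true_eq, List.all_eq_true, Bool.not_eq_true']

theorem cert_iff {j w : ℕ} {σ : List Bool} {c : List ℕ} : cert j w σ c = true ↔
    0 < c.length ∧ ∀ l < c.length, Wp j w σ l (c.getD l 0) = true := by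
  unfold cert
  simp only [Bool.and_eq_true, decide_eq_true_eq, List.all_eq_true, List.mem_range]

theorem Wp_iff {j w : ℕ} {σ : List Bool} {x y : ℕ} : Wp j w σ x y = true ↔
    ∃ n ≤ σ.length, Wn j w (σ.take n) x y = true := by
  unfold Wp
  simp only [List.any_eq_true, List.mem_range, Nat.lt_succ_iff]

theorem cert_mono {j w w' : ℕ} {σ : List Bool} {c : List ℕ} (hw : w ≤ w')
    (h : cert j w σ c = true) : cert j w' σ c = true := by
  rw [cert_iff] at h ⊢
  refine ⟨h.1, ?_⟩
  intro l hl
  have h1 := h.2 l hl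
  rw [Wp_iff] at h1 ⊢
  obtain ⟨n, hn, h2⟩ := h1
  exact ⟨n, hn, Wn_mono hw h2⟩

/-! ### Recorded truth values are correct -/

theorem com_correct (hG : GoodT L S i) (t : ℕ) : ∀ m < (gC (stt t) i).length,
    (gC (stt t) i).getD m false = tv L S m (ap (gS (stt t) i)) := by
  induction t with
  | zero =>
    intro m hm
    have : gC (stt 0) i = [] := rfl
    rw [this] at hm
    exact absurd hm (Nat.not_lt_zero _)
  | succ t ih =>
    rcases step_cases t with h' | ⟨q, σ, w, h'⟩ | ⟨q, σ, c, b', s', θ, M, w, h'⟩ |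
      ⟨j, v, w, h'⟩ | h'
    · rw [h', gC_doP, gS_doP]; exact ih
    · rw [h'.2, gC_doN, gS_doN]; exact ih
    · rw [h'.2, gC_doR]
      by_cases hi : i = qi q
      · intro m hm
        rw [hi, gS_doR_self, ← hi]
        unfold newS
        split_ifs with hb
        · rw [← hi]; exact ih m hm
        · rcases (vR_iff.1 h'.1).2.2.2.2.1 with h7 | h7
          · exact absurd h7 hb
          · rw [← hi] at h7
            have h8 := Tn_sound hG (comOK_iff.1 h7.2 m hm)
            rw [tv_apl] at h8
            exact encode_bool_inj h8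
      · rw [gS_doR_ne _ _ _ _ _ _ _ hi]; exact ih
    · rw [h'.2, gS_doC]
      by_cases hi : i = j
      · subst hi
        intro m hm
        rw [gC_doC_self] at hm ⊢
        rw [List.length_append, List.length_singleton] at hm
        rcases Nat.lt_or_ge m (gC (stt t) i).length with h1 | h1
        · rw [List.getD_append _ _ _ _ h1]
          exact ih m h1
        · have h2 : m = (gC (stt t) i).length := by omega
          rw [List.getD_append_right _ _ _ _ h1, h2]
          simp only [Nat.sub_self, List.getD_cons_zero]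
          have h3 := Tn_sound hG (vC_iff.1 h'.1).1
          rw [tv_apl] at h3
          exact encode_bool_inj h3
      · rw [gC_doC_ne _ _ _ _ hi]; exact ih
    · rw [h']; exact ih

theorem com_prefix_step (i t : ℕ) : ∃ l, gC (stt (t + 1)) i = gC (stt t) i ++ l := by
  rcases step_cases t with h' | ⟨q, σ, w, h'⟩ | ⟨q, σ, c, b', s', θ, M, w, h'⟩ |
      ⟨j, v, w, h'⟩ | h'
  · exact ⟨[], by rw [h', gC_doP, List.append_nil]⟩
  · exact ⟨[], by rw [h'.2, gC_doN, List.append_nil]⟩
  · exact ⟨[], by rw [h'.2, gC_doR, List.append_nil]⟩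
  · by_cases hi : i = j
    · subst hi
      exact ⟨[v], by rw [h'.2, gC_doC_self]⟩
    · exact ⟨[], by rw [h'.2, gC_doC_ne _ _ _ _ hi, List.append_nil]⟩
  · exact ⟨[], by rw [h', List.append_nil]⟩

theorem com_prefix (i : ℕ) {t t' : ℕ} (ht : t ≤ t') :
    ∃ l, gC (stt t') i = gC (stt t) i ++ l := by
  induction t', ht using Nat.le_induction with
  | base => exact ⟨[], by rw [List.append_nil]⟩
  | succ t' _ ih =>
    obtain ⟨l, hl⟩ := ih
    obtain ⟨l', hl'⟩ := com_prefix_step i t'
    exact ⟨l ++ l', by rw [hl', hl, List.append_assoc]⟩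

theorem com_len_mono (i : ℕ) {t t' : ℕ} (ht : t ≤ t') :
    (gC (stt t) i).length ≤ (gC (stt t') i).length := by
  obtain ⟨l, hl⟩ := com_prefix i ht
  rw [hl, List.length_append]
  omega

theorem com_getD_mono (i : ℕ) {t t' m : ℕ} (ht : t ≤ t') (hm : m < (gC (stt t) i).length) :
    (gC (stt t') i).getD m false = (gC (stt t) i).getD m false := by
  obtain ⟨l, hl⟩ := com_prefix i ht
  rw [hl, List.getD_append _ _ _ _ hm]

/-- recorded truth values are those of the limit copy -/
theorem com_lim (hG : GoodT L S i) {t m : ℕ} (hm : m < (gC (stt t) i).length) :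
    (gC (stt t) i).getD m false = tv L S m (sLim i) := by
  obtain ⟨T, hT⟩ := exists_bound_Tst (m + 1)
  have h1 := com_getD_mono i (le_max_left t T) hm
  rw [← h1, com_correct hG _ m (lt_of_lt_of_le hm (com_len_mono i (le_max_left t T)))]
  apply tv_congr
  intro k hk
  exact sLim_eq ((hT k (by omega)).trans (le_max_right t T))

/-! ### Bounds on codes -/

theorem length_le_encode_bool (σ : List Bool) : σ.length ≤ encode σ := by
  induction σ with
  | nil => simp
  | cons a l ih =>
    rw [encode_list_cons, List.length_cons]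
    have h2 := Nat.right_le_pair (encode a) (encode l)
    omega

theorem dz_bounds {d : ℕ} (h : encode (dz d) = d) :
    (dz d).1 ≤ d ∧ (dz d).2.1.length ≤ d ∧ ∀ b ∈ (dz d).2.2.1, b ≤ d := by
  rcases hz : dz d with ⟨q, σ, c, wc⟩
  have h1 : encode (q, σ, c, wc) = Nat.pair q (Nat.pair (encode σ) (Nat.pair (encode c) wc)) := rfl
  rw [hz, h1] at h
  have h2 := Nat.left_le_pair q (Nat.pair (encode σ) (Nat.pair (encode c) wc))
  have h3 := Nat.right_le_pair q (Nat.pair (encode σ) (Nat.pair (encode c) wc))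
  have h4 := Nat.left_le_pair (encode σ) (Nat.pair (encode c) wc)
  have h5 := Nat.right_le_pair (encode σ) (Nat.pair (encode c) wc)
  have h6 := Nat.left_le_pair (encode c) wc
  refine ⟨?_, ?_, ?_⟩
  · simp only; omega
  · have := length_le_encode_bool σ
    simp only; omega
  · intro b hb
    have : b ≤ encode c := mem_le_encode hb
    omega

theorem dz_encode (z : ℕ × List Bool × List ℕ × ℕ) : dz (encode z) = z := by
  unfold dz
  rw [encodek]
  rfl

theorem mem_le_sum {x : ℕ} {l : List ℕ} (h : x ∈ l) : x ≤ l.sum := by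
  induction l with
  | nil => exact absurd h List.not_mem_nil
  | cons a l ih =>
    rw [List.sum_cons]
    rcases List.mem_cons.1 h with rfl | h
    · omega
    · have := ih h; omega

end Pool.Agent.Lib.MP95a9c1
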