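import Mathlib
import Pool.Agent.Lib.MP_95a9c1_lc.ReqR

/-!
The number of recorded truth values tends to infinity.
-/

namespace Pool.Agent.Lib.MP95a9c1

open Encodable Denumerable
open Nat.Partrec (Code)

variable {L : CLang} {S : Str} {i : ℕ}

theorem mem_Pl {s : List (ℕ × ℕ)} {r b : ℕ} : b ∈ Pl s r ↔ b < r ∨ ∃ x < r, api s x = b := by
  unfold Pl
  simp only [List.mem_append, List.mem_range, List.mem_map]

theorem com_not_stuck (hG : GoodT L S i) (T1 m : ℕ)
    (hstuck : ∀ t, T1 ≤ t → (gC (stt t) i).length = m) : False := by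
  obtain ⟨T0, hT0⟩ := exists_stab (m + 1)
  set T2 := max T1 T0 with hT2
  have hT12 : T1 ≤ T2 := le_max_left _ _
  have hS : Stab (m + 1) T2 := hT0.mono (le_max_right _ _)
  set st2 := stt T2 with hst2
  have hlen : (gC st2 i).length = m := hstuck T2 hT12
  have hC : ∀ t, T2 ≤ t → gC (stt t) i = gC st2 i := by
    intro t ht
    obtain ⟨l, hl⟩ := com_prefix i ht
    have h1 := hstuck t (hT12.trans ht)
    rw [hl, List.length_append, hlen] at h1
    have h2 : l = [] := List.length_eq_zero_iff.1 (by omega)
    rw [hl, h2, List.append_nil]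
  have hR : m + 1 ≤ rq st2 (m + 1) := le_rq (hS.lt_len le_rfl)
  have hp : ∀ t, T2 ≤ t → ∀ x, x ≤ rq st2 (m + 1) →
      (x ∈ stA (stt t) ↔ x ∈ stA st2) ∧ (x ∈ stB (stt t) ↔ x ∈ stB st2) ∧
      ∀ i, ap (gS (stt t) i) x = ap (gS st2 i) x ∧ api (gS (stt t) i) x = api (gS st2 i) x :=
    fun t ht x hx => hS.prot ht hx
  have hfl : ∀ t, T2 ≤ t → ∀ q, q ≤ m + 1 → fl (stt t) q = fl st2 q :=
    fun t ht q hq => hS.fl_eq ht hq
  have hrq : ∀ t, T2 ≤ t → ∀ q, q ≤ m + 1 → rq (stt t) q = rq st2 q :=
    fun t ht q hq => hS.rq_eq ht hq
  have hrle : ∀ q, q ≤ m + 1 → rq st2 q ≤ rq st2 (m + 1) := by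
    intro q hq
    rcases Nat.eq_or_lt_of_le hq with h | h
    · rw [h]
    · exact ((inv T2).i2 q (m + 1) h (hS.lt_len le_rfl)).le
  have hPl : ∀ t, T2 ≤ t → ∀ q, q ≤ m + 1 →
      Pl (gS (stt t) i) (rq (stt t) q) = Pl (gS st2 i) (rq st2 q) := by
    intro t ht q hq
    rw [hrq t ht q hq]
    unfold Pl
    congr 1
    apply List.map_congr_left
    intro x hx
    rw [List.mem_range] at hx
    exact ((hp t ht x (hx.le.trans (hrle q hq))).2.2 i).2
  have hapP : ∀ t, T2 ≤ t → ∀ q, q ≤ m + 1 → ∀ b ∈ Pl (gS st2 i) (rq st2 q),
      ap (gS (stt t) i) b = ap (gS st2 i) b := by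
    intro t ht q hq b hb
    rcases mem_Pl.1 hb with h | ⟨x, hx, h⟩
    · exact ((hp t ht b (h.le.trans (hrle q hq))).2.2 i).1
    · have h1 := ((hp t ht x (hx.le.trans (hrle q hq))).2.2 i).2
      rw [← h, ap_api, ← h1, ap_api]
  have hxcode : ∀ t, T2 ≤ t → ∀ v q c, q ≤ m + 1 → xcode (stt t) i v q c = xcode st2 i v q c := by
    intro t ht v q c hq
    unfold xcode
    rw [hC t ht, hPl t ht q hq]
  have hxass : ∀ t, T2 ≤ t → ∀ q c, q ≤ m + 1 → xass (stt t) i q c = xass st2 i q c := by
    intro t ht q c hq
    unfold xass
    rw [hC t ht, hPl t ht q hq]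
    unfold pas
    apply List.map_congr_left
    intro b _
    by_cases hb : b ∈ Pl (gS st2 i) (rq st2 q)
    · simp only [hb, decide_true, if_true]
      exact hapP t ht q hq b hb
    · simp only [hb, decide_false]
      rfl
  have hok : ∀ t, T2 ≤ t → ∀ q σ, q ≤ m + 1 → List.length σ ≤ m + 1 →
      (okS (stt t) (rq (stt t) q) σ = true ↔ okS st2 (rq st2 q) σ = true) := by
    intro t ht q σ hq hσ
    rw [okS_iff, okS_iff]
    apply forall_congr'
    intro x
    apply forall_congr'
    intro hx
    have h1 := hp t ht x (by omega)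
    rw [h1.1, h1.2.1, hrq t ht q hq]
  have helig : ∀ t, T2 ≤ t → ∀ q σ c wc, q ≤ m + 1 → List.length σ ≤ m + 1 →
      (elig (stt t) i q σ c wc = true ↔ elig st2 i q σ c wc = true) := by
    intro t ht q σ c wc hq hσ
    rw [elig_iff, elig_iff, hok t ht q σ hq hσ, hPl t ht q hq, hfl t ht q hq]
  have hapl : ∀ t, T2 ≤ t → ∀ n, n ≤ m + 1 →
      apl (gS (stt t) i) n = apl (gS st2 i) n := by
    intro t ht n hn
    unfold apl
    apply List.map_congr_left
    intro x hx
    rw [List.mem_range] at hx
    exact ((hp t ht x (by omega)).2.2 i).1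
  have hcom := com_correct hG T2
  rw [← hst2] at hcom
  set s := gS st2 i with hs
  set com := gC st2 i with hcomdef
  set v := tv L S m (ap s) with hv
  by_cases hviol : ∃ d, d ≤ m ∧ encode (dz d) = d ∧
      elig st2 i (dz d).1 (dz d).2.1 (dz d).2.2.1 (dz d).2.2.2 = true ∧
      tv L S (xcode st2 i v (dz d).1 (dz d).2.2.1)
        (fun k => (xass st2 i (dz d).1 (dz d).2.2.1).getD k 0) = true
  · -- a violation leads to an action
    obtain ⟨d, hdm, hdd, hel, htv⟩ := hviol
    have hbd := dz_bounds hdd
    rcases hz : dz d with ⟨q, σ, c, wc⟩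
    rw [hz] at hel htv hbd
    simp only at hel htv hbd
    obtain ⟨hqd, hσd, hcd⟩ := hbd
    have hqm : q ≤ m + 1 := by omega
    rw [elig_iff] at hel
    obtain ⟨e1, e2, e3, e4, e5, e6⟩ := hel
    rw [← hs] at e6
    set P := Pl s (rq st2 q) with hP
    set M := Mb m c P with hM
    have hclen : 0 < c.length := (cert_iff.1 e5).1
    have hMc : ∀ b ∈ c, b < M := by
      intro b hb
      have := mem_le_sum hb
      rw [hM]; unfold Mb; omega
    have hMP : ∀ b ∈ P, b < M := by
      intro b hb
      have := mem_le_sum hb
      rw [hM]; unfold Mb; omega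
    have hMm : m + 1 ≤ M := by rw [hM]; unfold Mb; omega
    have hcom'len : (com ++ [v]).length = m + 1 := by
      rw [List.length_append, List.length_singleton, hlen]
    rw [tv_iff] at htv
    have hxc : xcode st2 i v q c = chicode com (com ++ [v]) c M P := by
      unfold xcode
      rw [← hcomdef, hlen, ← hs]
    have hxa : xass st2 i q c = pas s P M := by
      unfold xass
      rw [← hcomdef, hlen, ← hs]
    rw [hxc, hxa, Tr_chicode com (com ++ [v]) c M P (by omega) (by omega) hMc] at htv
    obtain ⟨e, he1, he2, he3, he4⟩ := htv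
    have he1' : ∀ b ∈ P, e b = ap s b := by
      intro b hb
      rw [he1 b hb (hMP b hb), getD_pas s P M b (hMP b hb) hb]
    set θ := gcode (com ++ [v]) c M with hθ
    have hθT : ∀ x : List ℕ, x.length = c.length →
        (Tr L S θ (asg M x) ↔ GG L S (com ++ [v]) M c x) :=
      fun x hx => Tr_gcode (com ++ [v]) c M (by omega) hMc x hx
    -- the current permutation satisfies the formula
    have hGs : GG L S (com ++ [v]) M c (c.map (ap s)) := by
      refine ⟨ap s, ?_, ?_, ?_⟩
      · intro m' hm'
        rw [hcom'len] at hm'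
        rcases Nat.lt_or_ge m' m with h1 | h1
        · rw [List.getD_append _ _ _ _ (by omega), hcom m' (by omega), tv_iff]
        · have h2 : m' = m := by omega
          rw [List.getD_append_right _ _ _ _ (by omega), h2, hlen]
          simp only [Nat.sub_self, List.getD_cons_zero]
          rw [hv, tv_iff]
      · intro b _ b' hb' h
        have := ap_inj s h
        omega
      · intro l hl
        rw [List.getD_eq_getElem _ _ hl, List.getD_eq_getElem _ _ (by simpa using hl)]
        simp
    by_cases hGr : GG L S (com ++ [v]) M c (List.range c.length)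
    · -- change the permutation
      obtain ⟨s', hs'⟩ := exists_ap e M he3
      have hmap : c.map (ap s') = c.map e := by
        apply List.map_congr_left
        intro b hb
        exact hs' b (hMc b hb)
      have hag : ∀ t, T2 ≤ t → agree (gS (stt t) (qi q)) s' (rq (stt t) q) = true := by
        intro t ht
        rw [agree_iff, e2, hrq t ht q hqm]
        intro x hx
        have hx' : x ≤ rq st2 (m + 1) := hx.le.trans (hrle q hqm)
        have hxP : x ∈ P := mem_Pl.2 (Or.inl hx)
        have hbP : api s x ∈ P := mem_Pl.2 (Or.inr ⟨x, hx, rfl⟩)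
        refine ⟨?_, ?_⟩
        · rw [hs' x (hMP x hxP), he1' x hxP]
          exact ((hp t ht x hx').2.2 i).1.symm
        · have h1 : ap s' (api s x) = x := by
            rw [hs' _ (hMP _ hbP), he1' _ hbP, ap_api]
          have h2 : api s' x = api s x := by
            rw [← h1, api_ap, h1]
          rw [h2]
          exact ((hp t ht x hx').2.2 i).2.symm
      have hev : ∀ᶠ w in Filter.atTop, comOK i w s' com = true := by
        have h1 : ∀ m' ∈ Finset.range m, ∀ᶠ w in Filter.atTop,
            Tn i w m' (apl s' (m' + 1)) = some (encode (com.getD m' false)) := by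
          intro m' hm'
          rw [Finset.mem_range] at hm'
          have h2 := Tn_complete hG m' (apl s' (m' + 1))
          rw [tv_apl] at h2
          have h3 : com.getD m' false = tv L S m' (ap s') := by
            rw [Bool.eq_iff_iff, tv_iff]
            rw [← he2 m' (by omega)]
            apply Tr_congr
            intro k hk
            exact (hs' k (by omega)).symm
          rw [h3]
          exact h2
        have h2 := (Filter.eventually_all_finset (Finset.range m)).2 h1
        filter_upwards [h2] with w hw
        rw [comOK_iff]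
        intro m' hm'
        exact hw m' (Finset.mem_range.2 (by omega))
      have hev2 := Tn_complete hG θ (asgL M (c.map (ap s')) (θ + 1))
      have hev3 := Tn_complete hG θ (asgL M (List.range c.length) (θ + 1))
      obtain ⟨w, hw1, hw2, hw3, hw4⟩ := (hev.and (hev2.and (hev3.and
        (Filter.eventually_ge_atTop wc)))).exists
      have hv : ∀ t, T2 ≤ t → vR (stt t) q σ c false s' θ M w = true := by
        intro t ht
        rw [vR_iff]
        refine ⟨e1, ?_, (hok t ht q σ hqm (by omega)).2 e4, cert_mono hw4 e5,
          Or.inr ⟨hag t ht, ?_⟩, ?_⟩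
        · rw [hfl t ht q hqm]; exact e3
        · rw [e2, hC t ht]; exact hw1
        · refine ⟨encode (tv L S θ (fun k => (asgL M (c.map (ap s')) (θ + 1)).getD k 0)),
            encode (tv L S θ (fun k => (asgL M (List.range c.length) (θ + 1)).getD k 0)),
            ?_, ?_, ?_⟩
          · rw [e2]
            exact hw2
          · rw [e2]
            exact hw3
          · rw [tv_asgL, tv_asgL]
            intro h
            have h1 := encode_bool_inj h
            have h2 : tv L S θ (asg M (List.range c.length)) = true := by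
              rw [tv_iff, hθT _ (by simp)]
              exact hGr
            rw [h2, tv_iff, hθT _ (by simp), hmap] at h1
            exact he4 h1
      obtain ⟨t, ht, hst⟩ := exists_R hv
      have := hS.no_act ht (Or.inr ⟨_, _, _, _, _, _, _, hst⟩)
      omega
    · -- keep the permutation
      have hmapt : ∀ t, T2 ≤ t → c.map (ap (gS (stt t) i)) = c.map (ap s) := by
        intro t ht
        apply List.map_congr_left
        intro b hb
        have := hcd b hb
        exact ((hp t ht b (by omega)).2.2 i).1
      have hev2 := Tn_complete hG θ (asgL M (c.map (ap s)) (θ + 1))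
      have hev3 := Tn_complete hG θ (asgL M (List.range c.length) (θ + 1))
      obtain ⟨w, hw2, hw3, hw4⟩ := (hev2.and (hev3.and
        (Filter.eventually_ge_atTop wc))).exists
      have hv : ∀ t, T2 ≤ t → vR (stt t) q σ c true [] θ M w = true := by
        intro t ht
        rw [vR_iff]
        refine ⟨e1, ?_, (hok t ht q σ hqm (by omega)).2 e4, cert_mono hw4 e5,
          Or.inl rfl, ?_⟩
        · rw [hfl t ht q hqm]; exact e3
        · refine ⟨encode (tv L S θ (fun k => (asgL M (c.map (ap s)) (θ + 1)).getD k 0)),
            encode (tv L S θ (fun k => (asgL M (List.range c.length) (θ + 1)).getD k 0)),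
            ?_, ?_, ?_⟩
          · have h1 : newS (stt t) q true [] = gS (stt t) i := by
              unfold newS
              rw [if_pos rfl, e2]
            rw [h1, hmapt t ht, e2]
            exact hw2
          · rw [e2]
            exact hw3
          · rw [tv_asgL, tv_asgL]
            intro h
            have h1 := encode_bool_inj h
            have h2 : tv L S θ (asg M (c.map (ap s))) = true := by
              rw [tv_iff, hθT _ (by simp)]
              exact hGs
            rw [h2] at h1
            have h3 := tv_iff.1 h1.symm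
            rw [hθT _ (by simp)] at h3
            exact hGr h3
      obtain ⟨t, ht, hst⟩ := exists_R hv
      have := hS.no_act ht (Or.inr ⟨_, _, _, _, _, _, _, hst⟩)
      omega
  · -- no violation: the next truth value can be recorded
    push Not at hviol
    have hev1 := Tn_complete hG m (apl s (m + 1))
    rw [tv_apl, ← hv] at hev1
    have hev2 : ∀ d ∈ Finset.range (m + 1), ∀ᶠ w in Filter.atTop, encode (dz d) = d →
        elig st2 i (dz d).1 (dz d).2.1 (dz d).2.2.1 (dz d).2.2.2 = true →
        Tn i w (xcode st2 i v (dz d).1 (dz d).2.2.1) (xass st2 i (dz d).1 (dz d).2.2.1) =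
          some 0 := by
      intro d hd
      rw [Finset.mem_range] at hd
      filter_upwards [Tn_complete hG (xcode st2 i v (dz d).1 (dz d).2.2.1)
        (xass st2 i (dz d).1 (dz d).2.2.1)] with w hw h1 h2
      rw [hw]
      have h3 := hviol d (by omega) h1 h2
      rw [Bool.eq_false_iff.2 h3]
      rfl
    obtain ⟨w, hw1, hw2⟩ := (hev1.and ((Filter.eventually_all_finset
      (Finset.range (m + 1))).2 hev2)).exists
    have hv : ∀ t, T2 ≤ t → vC (stt t) i v w = true := by
      intro t ht
      rw [vC_iff, hC t ht, hlen, hapl t ht (m + 1) le_rfl]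
      refine ⟨hw1, ?_⟩
      intro d hd hdd hel
      have hbd := dz_bounds hdd
      rw [hxcode t ht v _ _ (by omega), hxass t ht _ _ (by omega)]
      rw [helig t ht _ _ _ _ (by omega) (by omega)] at hel
      exact hw2 d (Finset.mem_range.2 (by omega)) hdd hel
    obtain ⟨t, ht, hst⟩ := exists_C hv
    have h1 := hstuck (t + 1) (by omega)
    rw [hst.2, gC_doC_self, List.length_append, List.length_singleton,
      hstuck t (hT12.trans ht)] at h1
    omega

/-- the number of recorded truth values tends to infinity -/
theorem com_grow (hG : GoodT L S i) (n : ℕ) : ∃ t, n ≤ (gC (stt t) i).length := by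
  induction n with
  | zero => exact ⟨0, Nat.zero_le _⟩
  | succ n ih =>
    obtain ⟨t0, ht0⟩ := ih
    by_contra hcon
    push Not at hcon
    apply com_not_stuck hG t0 n
    intro t ht
    have h1 := com_len_mono i ht
    have h2 := hcon t
    omega

end Pool.Agent.Lib.MP95a9c1
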