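import Mathlib
import Pool.Agent.Lib.MP_95a9c1_lc.Live
import Pool.Agent.Lib.MP_95a9c1_lc.Bridge
import Pool.Agent.Lib.MP_95a9c1_lc.BackForth

/-!
If `A \ B` computes an isomorphism onto the copy, then the structure is decidably `B`-categorical.
-/

namespace Pool.Agent.Lib.MP95a9c1

open Encodable Denumerable
open Nat.Partrec (Code)

variable {L : CLang} {S : Str} {i : ℕ}

/-- the set of the construction -/
def setD : Set ℕ := {x | x ∈ setA ∧ x ∉ setB}

theorem asg_map' (f : ℕ → ℕ) (M : ℕ) (x : List ℕ) (hx : 0 < x.length) :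
    asg M (x.map f) = f ∘ asg M x := by
  funext k
  unfold asg
  simp only [Function.comp]
  have h1 : (x.map f).getD 0 0 = f (x.getD 0 0) := by
    rw [List.getD_eq_getElem _ _ (by simpa using hx), List.getD_eq_getElem _ _ hx]
    simp
  rw [h1]
  rcases Nat.lt_or_ge (k - M) x.length with h | h
  · rw [List.getD_eq_getElem _ _ (by simpa using h), List.getD_eq_getElem _ _ h]
    simp
  · rw [List.getD_eq_default _ _ (by simpa using h), List.getD_eq_default _ _ h]

/-- the final flag is false -/
theorem flag_false (hG : GoodT L S i) (g : ℕ → ℕ) (hiso : IsIso L S S (fun x => sLim i (g x)))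
    (j : ℕ) (hj : ∀ x y, g x = y ↔ ∃ n, ∃ w, Wn j w (strOf setD n) x y = true)
    (q : ℕ) (hq1 : q % 2 = 1) (hqi : qi q = i) (hqj : qj q = j) {T : ℕ} (hT : Stab q T) :
    fl (stt T) q = false := by
  rcases hfl : fl (stt T) q with _ | _
  · rfl
  · exfalso
    obtain ⟨ta, ha, hs⟩ := exists_acted hT hfl
    rcases id ha with ⟨σ, w, h1⟩ | ⟨σ, c, b, s', θ, M, w, h1⟩
    · have := (vN_iff.1 h1.1).1
      omega
    · obtain ⟨_, h2, h3, h4, _, u, u', hu, hu', huu⟩ := vR_iff.1 h1.1
      have hN : stN (stt (ta + 1)) = stN (stt ta) + σ.length + (c.sum + c.length) + 1 := by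
        rw [h1.2, stN_doR]
      have hAeq : stA (stt (ta + 1)) = stA (stt ta) := by rw [h1.2, stA_doR]
      have hBeq : ∀ x, x ∈ stB (stt (ta + 1)) ↔
          (x ∈ stB (stt ta) ∨ (x ∈ stA (stt ta) ∧ x < σ.length ∧ σ.getD x false = false)) := by
        intro x
        rw [h1.2, stB_doR, List.mem_append, List.mem_filter]
        simp only [Bool.and_eq_true, decide_eq_true_eq, Bool.not_eq_true']
      have hstr : strOf setD σ.length = σ := by
        apply strOf_unique
        intro x hx
        have h5 := okS_iff.1 h3 x hx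
        change _ ↔ (x ∈ setA ∧ x ∉ setB)
        rw [acted_B ha hs (by omega), acted_A ha hs (by omega), hAeq, hBeq]
        constructor
        · intro h6
          refine ⟨(h5.1 h6).1, ?_⟩
          rintro (h7 | ⟨_, _, h7⟩)
          · exact (h5.1 h6).2 h7
          · rw [h6] at h7; exact absurd h7 (by simp)
        · rintro ⟨h6, h7⟩
          by_contra h8
          exact h7 (Or.inr ⟨h6, hx, by simpa using h8⟩)
      rw [hqj] at h4
      have h5 := (cert_iff.1 h4).2
      have hclen := (cert_iff.1 h4).1
      have hgc : ∀ l < c.length, g l = c.getD l 0 := by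
        intro l hl
        obtain ⟨n, hn, hw⟩ := Wp_iff.1 (h5 l hl)
        rw [hj]
        refine ⟨n, w, ?_⟩
        rw [← take_strOf setD σ.length n hn, hstr]
        exact hw
      set sn := newS (stt ta) q b s' with hsn
      have hgS : gS (stt (ta + 1)) i = sn := by
        rw [h1.2, ← hqi, gS_doR_self]
      have hmap : c.map (ap sn) = (List.range c.length).map (fun x => sLim i (g x)) := by
        apply List.ext_getElem
        · simp
        · intro l hl hl'
          simp only [List.length_map] at hl
          simp only [List.getElem_map, List.getElem_range]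
          have h6 : (c)[l] = c.getD l 0 := by rw [List.getD_eq_getElem _ _ hl]
          have h7 : (c)[l] ≤ c.sum := mem_le_sum (List.getElem_mem hl)
          rw [hgc l hl, ← h6, acted_S ha hs (by omega), hgS]
      have e1 := Tn_sound (by rw [hqi]; exact hG) hu
      have e2 := Tn_sound (by rw [hqi]; exact hG) hu'
      rw [tv_asgL] at e1 e2
      have e3 : tv L S θ (asg M (c.map (ap sn))) = tv L S θ (asg M (List.range c.length)) := by
        rw [hmap, asg_map' _ _ _ (by simpa using hclen), Bool.eq_iff_iff, tv_iff, tv_iff]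
        exact (Tr_iso hiso θ _).symm
      apply huu
      rw [e1, e2, e3]

/-- tuples found with correct partial information have the right type -/
theorem no_diag (hG : GoodT L S i) (q : ℕ) (hq1 : q % 2 = 1) (hqi : qi q = i)
    {T : ℕ} (hT : Stab q T) (hfl : fl (stt T) q = false)
    (σ : List Bool) (c : List ℕ) (wc : ℕ)
    (hσ1 : ∀ x < σ.length, σ.getD x false = true → x ∈ setD)
    (hσ2 : ∀ x < σ.length, x < rq (stt T) q → x ∈ setD → σ.getD x false = true)
    (hc : cert (qj q) wc σ c = true) (θ M : ℕ) :
    Tr L S θ (asg M (c.map (sLim i))) ↔ Tr L S θ (asg M (List.range c.length)) := by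
  by_contra hcon
  obtain ⟨T', hT'⟩ := exists_bound_Tst (σ.length + c.sum + 1)
  have hev2 := Tn_complete hG θ (asgL M (c.map (sLim i)) (θ + 1))
  have hev3 := Tn_complete hG θ (asgL M (List.range c.length) (θ + 1))
  obtain ⟨w, hw2, hw3, hw4⟩ := (hev2.and (hev3.and
    (Filter.eventually_ge_atTop wc))).exists
  have hv : ∀ t, max T T' ≤ t → vR (stt t) q σ c true [] θ M w = true := by
    intro t ht
    have htT : T ≤ t := (le_max_left _ _).trans ht
    have htT' : T' ≤ t := (le_max_right _ _).trans ht
    rw [vR_iff]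
    refine ⟨hq1, ?_, ?_, cert_mono hw4 hc, Or.inl rfl, ?_⟩
    · rw [hT.fl_eq htT le_rfl]; exact hfl
    · rw [okS_iff, hT.rq_eq htT le_rfl]
      intro x hx
      have h1 := (hT' x (by omega)).trans htT'
      rw [← setA_iff h1, ← setB_iff h1]
      exact ⟨hσ1 x hx, fun h2 h3 h4 => hσ2 x hx h2 ⟨h3, h4⟩⟩
    · refine ⟨encode (tv L S θ (fun k => (asgL M (c.map (sLim i)) (θ + 1)).getD k 0)),
        encode (tv L S θ (fun k => (asgL M (List.range c.length) (θ + 1)).getD k 0)),
        ?_, ?_, ?_⟩
      · have h1 : newS (stt t) q true [] = gS (stt t) i := by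
          unfold newS
          rw [if_pos rfl, hqi]
        have h2 : c.map (ap (gS (stt t) i)) = c.map (sLim i) := by
          apply List.map_congr_left
          intro b hb
          have := mem_le_sum hb
          exact sLim_eq ((hT' b (by omega)).trans htT')
        rw [h1, h2, hqi]
        exact hw2
      · rw [hqi]
        exact hw3
      · rw [tv_asgL, tv_asgL]
        intro h
        have h1 := encode_bool_inj h
        rw [Bool.eq_iff_iff, tv_iff, tv_iff] at h1
        exact hcon h1
  obtain ⟨t, ht, hst⟩ := exists_R hv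
  have := hT.no_act ((le_max_left _ _).trans ht) (Or.inr ⟨_, _, _, _, _, _, _, hst⟩)
  omega

/-- for every `n` there is a step at which the `n`-th truth value is recorded -/
theorem exists_record (hG : GoodT L S i) (t0 n : ℕ) (hn : (gC (stt t0) i).length ≤ n) :
    ∃ t, t0 ≤ t ∧ ∃ v w, StepC t i v w ∧ (gC (stt t) i).length = n := by
  classical
  obtain ⟨t1, ht1⟩ := com_grow hG (n + 1)
  have hex : ∃ t, n + 1 ≤ (gC (stt t) i).length := ⟨t1, ht1⟩
  set t2 := Nat.find hex with ht2
  have h2 : n + 1 ≤ (gC (stt t2) i).length := Nat.find_spec hex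
  have h3 : t0 < t2 := by
    by_contra hcon
    push Not at hcon
    have := com_len_mono i hcon
    omega
  obtain ⟨t, ht⟩ : ∃ t, t2 = t + 1 := ⟨t2 - 1, by omega⟩
  have h4 : ¬ n + 1 ≤ (gC (stt t) i).length := Nat.find_min hex (by omega)
  refine ⟨t, by omega, ?_⟩
  rw [ht] at h2
  rcases step_cases t with h' | ⟨q, σ, w, h'⟩ | ⟨q, σ, c, b', s', θ, M, w, h'⟩ |
      ⟨j, v, w, h'⟩ | h'
  · rw [h', gC_doP] at h2; exact absurd h2 h4
  · rw [h'.2, gC_doN] at h2; exact absurd h2 h4
  · rw [h'.2, gC_doR] at h2; exact absurd h2 h4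
  · by_cases hi : i = j
    · subst hi
      refine ⟨v, w, h', ?_⟩
      rw [h'.2, gC_doC_self, List.length_append, List.length_singleton] at h2
      omega
    · rw [h'.2, gC_doC_ne _ _ _ _ hi] at h2; exact absurd h2 h4
  · rw [h'] at h2; exact absurd h2 h4

end Pool.Agent.Lib.MP95a9c1
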