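import Mathlib
import Pool.Agent.Lib.MP_95a9c1_lc.Isol

/-!
Isolation of types, relative to `B`.
-/

namespace Pool.Agent.Lib.MP95a9c1

open Encodable Denumerable
open Nat.Partrec (Code)

variable {L : CLang} {S : Str} {i : ℕ}

@[fun_prop] theorem P_stt' {α : Type} [Primcodable α] {f : α → ℕ} (hf : Primrec f) :
    Primrec (fun x => stt (f x)) := P_stt.comp hf

/-- the list of parameters is stable -/
theorem Pl_stable {q T t : ℕ} (hT : Stab q T) (ht : T ≤ t) (i : ℕ) :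
    Pl (gS (stt t) i) (rq (stt t) q) = Pl (gS (stt T) i) (rq (stt T) q) := by
  rw [hT.rq_eq ht le_rfl]
  unfold Pl
  congr 1
  apply List.map_congr_left
  intro x hx
  rw [List.mem_range] at hx
  exact ((hT.prot ht hx.le).2.2 i).2

theorem ap_Pl {q T t : ℕ} (hT : Stab q T) (ht : T ≤ t) (i : ℕ) {b : ℕ}
    (hb : b ∈ Pl (gS (stt T) i) (rq (stt T) q)) : ap (gS (stt t) i) b = sLim i b := by
  have key : ∀ t, T ≤ t → ap (gS (stt t) i) b = ap (gS (stt T) i) b := by
    intro t ht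
    rcases mem_Pl.1 hb with h | ⟨x, hx, h⟩
    · exact ((hT.prot ht h.le).2.2 i).1
    · have h1 := ((hT.prot ht hx.le).2.2 i).2
      rw [← h, ap_api, ← h1, ap_api]
  rw [key t ht, ← key (max T (Tst b)) (le_max_left _ _)]
  exact sLim_eq (le_max_right _ _)

/-- eligibility persists -/
theorem elig_persist {q T t0 : ℕ} (hq1 : q % 2 = 1) (hqi : qi q = i) (hT : Stab q T)
    (hfl : fl (stt T) q = false) (ht0 : T ≤ t0) {σ : List Bool} {c : List ℕ} {wc : ℕ}
    (hσ1 : ∀ x < σ.length, σ.getD x false = true → x ∈ stA (stt t0) ∧ x ∉ setB)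
    (hσ2 : ∀ x < σ.length, x < rq (stt T) q → x ∈ setD → σ.getD x false = true)
    (hc : cert (qj q) wc σ c = true)
    (hP : ∀ b ∈ Pl (gS (stt T) i) (rq (stt T) q), b ∈ c) {t : ℕ} (ht : t0 ≤ t) :
    elig (stt t) i q σ c wc = true := by
  rw [elig_iff]
  refine ⟨hq1, hqi, ?_, ?_, hc, ?_⟩
  · rw [hT.fl_eq (ht0.trans ht) le_rfl]; exact hfl
  · rw [okS_iff, hT.rq_eq (ht0.trans ht) le_rfl]
    intro x hx
    refine ⟨fun h => ⟨A_mono' ht (hσ1 x hx h).1, fun h' => (hσ1 x hx h).2 ⟨t, h'⟩⟩, ?_⟩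
    intro hxr hA hB
    apply hσ2 x hx hxr
    refine ⟨⟨t, hA⟩, ?_⟩
    rintro ⟨t', ht'⟩
    have h1 := B_mono' (le_max_left t' t) ht'
    have h2 := (hT.prot (t := max t' t) (by omega) hxr.le).2.1
    have h3 := (hT.prot (t := t) (by omega) hxr.le).2.1
    exact hB (h3.2 (h2.1 h1))
  · rw [Pl_stable hT (ht0.trans ht)]
    exact hP

/-- one step of the extension argument -/
theorem extend_step (hG : GoodT L S i) {q T t0 : ℕ} (hq1 : q % 2 = 1) (hqi : qi q = i)
    (hT : Stab q T) (hfl : fl (stt T) q = false) (ht0 : T ≤ t0) {σ : List Bool} {c : List ℕ}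
    {wc : ℕ}
    (hσ1 : ∀ x < σ.length, σ.getD x false = true → x ∈ stA (stt t0) ∧ x ∉ setB)
    (hσ2 : ∀ x < σ.length, x < rq (stt T) q → x ∈ setD → σ.getD x false = true)
    (hc : cert (qj q) wc σ c = true)
    (hP : ∀ b ∈ Pl (gS (stt T) i) (rq (stt T) q), b ∈ c)
    (hlen : encode ((q, σ, c, wc) : ℕ × List Bool × List ℕ × ℕ) ≤ (gC (stt t0) i).length)
    {n : ℕ} (hn : (gC (stt t0) i).length ≤ n) (e : ℕ → ℕ)
    (he1 : ∀ b ∈ Pl (gS (stt T) i) (rq (stt T) q), e b = sLim i b)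
    (he2 : ∀ m < n, (Tr L S m e ↔ Tr L S m (sLim i)))
    (he3 : Function.Injective e) :
    ∃ e' : ℕ → ℕ, (∀ b ∈ Pl (gS (stt T) i) (rq (stt T) q), e' b = sLim i b) ∧
      (∀ m < n + 1, (Tr L S m e' ↔ Tr L S m (sLim i))) ∧ Function.Injective e' ∧
      ∀ b ∈ c, e' b = e b := by
  obtain ⟨t, ht, v, w, hst, hln⟩ := exists_record hG t0 n hn
  set d := encode ((q, σ, c, wc) : ℕ × List Bool × List ℕ × ℕ) with hd
  have hdz : dz d = (q, σ, c, wc) := dz_encode _
  have h1 := (vC_iff.1 hst.1).2 d (by rw [hln]; omega) (by rw [hdz])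
  rw [hdz] at h1
  simp only at h1
  have h2 := Tn_sound hG (h1 (elig_persist hq1 hqi hT hfl ht0 hσ1 hσ2 hc hP ht))
  have h3 : tv L S (xcode (stt t) i v q c) (fun k => (xass (stt t) i q c).getD k 0) = false := by
    rcases h4 : tv L S (xcode (stt t) i v q c) (fun k => (xass (stt t) i q c).getD k 0) with _ | _
    · rfl
    · rw [h4] at h2
      exact absurd h2 (by decide)
  rw [tv_false_iff] at h3
  have hPs := Pl_stable hT (ht0.trans ht) i
  set P := Pl (gS (stt T) i) (rq (stt T) q) with hPdef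
  set M := Mb n c P with hM
  have hMc : ∀ b ∈ c, b < M := by
    intro b hb
    have := mem_le_sum hb
    rw [hM]; unfold Mb; omega
  have hMP : ∀ b ∈ P, b < M := by
    intro b hb
    have := mem_le_sum hb
    rw [hM]; unfold Mb; omega
  have hMn : n + 1 ≤ M := by rw [hM]; unfold Mb; omega
  have hxc : xcode (stt t) i v q c = chicode (gC (stt t) i) (gC (stt t) i ++ [v]) c M P := by
    unfold xcode
    rw [hPs, hln]
  have hxa : xass (stt t) i q c = pas (gS (stt t) i) P M := by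
    unfold xass
    rw [hPs, hln]
  have hclen' : (gC (stt t) i ++ [v]).length = n + 1 := by
    rw [List.length_append, List.length_singleton, hln]
  rw [hxc, hxa, Tr_chicode _ _ _ _ _ (by omega) (by omega) hMc] at h3
  have hGG : GG L S (gC (stt t) i ++ [v]) M c (c.map e) := by
    by_contra hcon
    apply h3
    refine ⟨e, ?_, ?_, ?_, hcon⟩
    · intro b hb _
      rw [getD_pas _ _ _ _ (hMP b hb) hb, he1 b hb]
      exact (ap_Pl hT (ht0.trans ht) i hb).symm
    · intro m hm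
      rw [he2 m (by omega), com_lim hG hm, tv_iff]
    · intro b _ b' hb' h
      have := he3 h
      omega
  obtain ⟨e2, g1, g2, g3⟩ := hGG
  obtain ⟨s', hs'⟩ := exists_ap e2 M g2
  have hcm : ∀ b ∈ c, ap s' b = e b := by
    intro b hb
    obtain ⟨l, hl, rfl⟩ := List.getElem_of_mem hb
    have h4 := g3 l hl
    rw [List.getD_eq_getElem _ _ hl, List.getD_eq_getElem _ _ (by simpa using hl)] at h4
    rw [hs' _ (hMc _ hb), h4]
    simp
  refine ⟨ap s', ?_, ?_, ap_inj s', hcm⟩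
  · intro b hb
    rw [hcm b (hP b hb), he1 b hb]
  · intro m hm
    have h4 : gC (stt (t + 1)) i = gC (stt t) i ++ [v] := by rw [hst.2, gC_doC_self]
    have h5 : m < (gC (stt (t + 1)) i).length := by rw [h4, hclen']; omega
    have h6 := com_lim hG h5
    rw [h4] at h6
    rw [← tv_iff (m := m) (v := sLim i), ← h6, ← g1 m (by omega)]
    apply Tr_congr
    intro k hk
    exact hs' k (by omega)

/-- the extension argument -/
theorem extend_all (hG : GoodT L S i) {q T t0 : ℕ} (hq1 : q % 2 = 1) (hqi : qi q = i)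
    (hT : Stab q T) (hfl : fl (stt T) q = false) (ht0 : T ≤ t0) {σ : List Bool} {c : List ℕ}
    {wc : ℕ}
    (hσ1 : ∀ x < σ.length, σ.getD x false = true → x ∈ stA (stt t0) ∧ x ∉ setB)
    (hσ2 : ∀ x < σ.length, x < rq (stt T) q → x ∈ setD → σ.getD x false = true)
    (hc : cert (qj q) wc σ c = true)
    (hP : ∀ b ∈ Pl (gS (stt T) i) (rq (stt T) q), b ∈ c)
    (hlen : encode ((q, σ, c, wc) : ℕ × List Bool × List ℕ × ℕ) ≤ (gC (stt t0) i).length)
    (e : ℕ → ℕ)
    (he1 : ∀ b ∈ Pl (gS (stt T) i) (rq (stt T) q), e b = sLim i b)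
    (he2 : ∀ m < (gC (stt t0) i).length, (Tr L S m e ↔ Tr L S m (sLim i)))
    (he3 : Function.Injective e) (n : ℕ) (hn : (gC (stt t0) i).length ≤ n) :
    ∃ e' : ℕ → ℕ, (∀ b ∈ Pl (gS (stt T) i) (rq (stt T) q), e' b = sLim i b) ∧
      (∀ m < n, (Tr L S m e' ↔ Tr L S m (sLim i))) ∧ Function.Injective e' ∧
      ∀ b ∈ c, e' b = e b := by
  induction n, hn using Nat.le_induction with
  | base => exact ⟨e, he1, he2, he3, fun _ _ => rfl⟩
  | succ n hn ih =>
    obtain ⟨e1, h1, h2, h3, h4⟩ := ih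
    obtain ⟨e2, g1, g2, g3, g4⟩ := extend_step hG hq1 hqi hT hfl ht0 hσ1 hσ2 hc hP hlen hn e1
      h1 h2 h3
    exact ⟨e2, g1, g2, g3, fun b hb => (g4 b hb).trans (h4 b hb)⟩

/-- the isolating property -/
theorem isolate (hG : GoodT L S i) (g : ℕ → ℕ) (hiso : IsIso L S S (fun x => sLim i (g x)))
    {q T t0 : ℕ} (hq1 : q % 2 = 1) (hqi : qi q = i)
    (hT : Stab q T) (hfl : fl (stt T) q = false) (ht0 : T ≤ t0) {σ : List Bool} {c : List ℕ}
    {wc : ℕ}
    (hσ1 : ∀ x < σ.length, σ.getD x false = true → x ∈ stA (stt t0) ∧ x ∉ setB)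
    (hσ2 : ∀ x < σ.length, x < rq (stt T) q → x ∈ setD → σ.getD x false = true)
    (hc : cert (qj q) wc σ c = true)
    (hlen : encode ((q, σ, c, wc) : ℕ × List Bool × List ℕ × ℕ) ≤ (gC (stt t0) i).length)
    (k0 : ℕ) (finv : ℕ → ℕ)
    (hP : ∀ b ∈ Pl (gS (stt T) i) (rq (stt T) q), finv b < k0 ∧ g (finv b) = b ∧
      c.getD (finv b) 0 = b)
    (hk0 : k0 ≤ c.length)
    (M : ℕ) (hM1 : (gC (stt t0) i).length ≤ M) (hM2 : ∀ b ∈ c, b < M)
    (x : List ℕ) (hx : x.length = c.length) (hx0 : ∀ l < k0, x.getD l 0 = l)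
    (hxT : Tr L S (gcode (gC (stt t0) i) c M) (asg M x)) :
    ElemMap L S S c.length x := by
  have hclen := (cert_iff.1 hc).1
  have hσ1' : ∀ x < σ.length, σ.getD x false = true → x ∈ setD :=
    fun x hx h => ⟨⟨t0, (hσ1 x hx h).1⟩, (hσ1 x hx h).2⟩
  have hPc : ∀ b ∈ Pl (gS (stt T) i) (rq (stt T) q), b ∈ c := by
    intro b hb
    obtain ⟨h1, _, h3⟩ := hP b hb
    rw [← h3, List.getD_eq_getElem _ _ (by omega)]
    exact List.getElem_mem _
  rw [Tr_gcode _ _ _ hM1 hM2 x hx] at hxT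
  obtain ⟨e, e1, e2, e3⟩ := hxT
  obtain ⟨s1, hs1⟩ := exists_ap e M e2
  set a : ℕ → ℕ := fun x => sLim i (g x) with ha
  have hs1c : ∀ l < c.length, ap s1 (c.getD l 0) = x.getD l 0 := by
    intro l hl
    have h1 : c.getD l 0 < M := by
      rw [List.getD_eq_getElem _ _ hl]
      exact hM2 _ (List.getElem_mem _)
    rw [hs1 _ h1, e3 l hl]
  have f1 : ∀ b ∈ Pl (gS (stt T) i) (rq (stt T) q), a (ap s1 b) = sLim i b := by
    intro b hb
    obtain ⟨h1, h2, h3⟩ := hP b hb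
    have h4 := hs1c (finv b) (by omega)
    rw [h3, hx0 _ h1] at h4
    rw [h4, ha]
    simp only
    rw [h2]
  have f2 : ∀ m < (gC (stt t0) i).length, (Tr L S m (fun y => a (ap s1 y)) ↔
      Tr L S m (sLim i)) := by
    intro m hm
    have h1 : Tr L S m (fun y => a (ap s1 y)) ↔ Tr L S m (ap s1) := (Tr_iso hiso m (ap s1)).symm
    rw [h1, ← tv_iff (m := m) (v := sLim i), ← com_lim hG hm, ← e1 m hm]
    apply Tr_congr
    intro k hk
    exact hs1 k (by omega)
  have f3 : Function.Injective (fun y => a (ap s1 y)) := hiso.1.1.comp (ap_inj s1)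
  intro m ρ hρ
  obtain ⟨m'', hm''⟩ := exists_rename m (fun k => c.getD (ρ k) 0)
  obtain ⟨θ, hθ⟩ := exists_rename m ρ
  obtain ⟨e', _, g2, _, g4⟩ := extend_all hG hq1 hqi hT hfl ht0 hσ1 hσ2 hc hPc hlen
    (fun y => a (ap s1 y)) f1 f2 f3 (max (gC (stt t0) i).length (m'' + 1)) (le_max_left _ _)
  have h1 := g2 m'' (by omega)
  rw [hm'', hm''] at h1
  have h2 : e' ∘ (fun k => c.getD (ρ k) 0) = a ∘ (fun k => x.getD (ρ k) 0) := by
    funext k
    simp only [Function.comp]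
    have h3 : c.getD (ρ k) 0 ∈ c := by
      rw [List.getD_eq_getElem _ _ (hρ k)]
      exact List.getElem_mem _
    rw [g4 _ h3, hs1c _ (hρ k)]
  rw [h2] at h1
  have h3 : Tr L S m (a ∘ fun k => x.getD (ρ k) 0) ↔ Tr L S m (fun k => x.getD (ρ k) 0) :=
    (Tr_iso hiso m _).symm
  rw [h3] at h1
  rw [h1]
  have h4 := no_diag hG q hq1 hqi hT hfl σ c wc hσ1' hσ2 hc θ 0
  rw [hθ, hθ] at h4
  have h5 : asg 0 (c.map (sLim i)) ∘ ρ = (sLim i) ∘ (fun k => c.getD (ρ k) 0) := by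
    funext k
    simp only [Function.comp, asg, Nat.sub_zero]
    rw [List.getD_eq_getElem _ _ (by simpa using hρ k), List.getD_eq_getElem _ _ (hρ k)]
    simp
  have h6 : asg 0 (List.range c.length) ∘ ρ = ρ := by
    funext k
    simp only [Function.comp, asg, Nat.sub_zero]
    rw [List.getD_eq_getElem _ _ (by simpa using hρ k)]
    simp
  rw [h5, h6] at h4
  exact h4.symm

end Pool.Agent.Lib.MP95a9c1
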