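import Mathlib
import Pool.Agent.Lib.MP_95a9c1_lc.Isol2

/-!
A structure for which `A \ B` computes an isomorphism onto the copy is decidably
`B`-categorical.
-/

namespace Pool.Agent.Lib.MP95a9c1

open Encodable Denumerable
open Nat.Partrec (Code)

variable {L : CLang} {S : Str} {i : ℕ}

/-- the test for isolating data; `z.1 = (τ, K, g, M)` and `z.2 = (t, σ, c, wc)` -/
def Etest (i q j k0 T : ℕ) (PF : List (ℕ × ℕ)) (Dr : List ℕ)
    (z : (List Bool × ℕ × ℕ × ℕ) × (ℕ × List Bool × List ℕ × ℕ)) : Bool :=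
  decide (T ≤ z.2.1) && (decide (z.2.2.1.length ≤ z.1.1.length) &&
  ((List.range z.2.2.1.length).all (fun x => !(z.2.2.1.getD x false) ||
    (decide (x ∈ stA (stt z.2.1)) && !(z.1.1.getD x false))) &&
  (Dr.all (fun x => decide (z.2.2.1.length ≤ x) || z.2.2.1.getD x false) &&
  (cert j z.2.2.2.2 z.2.2.1 z.2.2.2.1 &&
  (decide (z.2.2.2.1.length = z.1.2.1) && (decide (k0 ≤ z.1.2.1) &&
  (PF.all (fun p => decide (z.2.2.2.1.getD p.1 0 = p.2)) &&
  (decide (encode ((q, z.2.2.1, z.2.2.2.1, z.2.2.2.2) : ℕ × List Bool × List ℕ × ℕ) ≤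
    (gC (stt z.2.1) i).length) &&
  (decide (z.1.2.2.2 = (gC (stt z.2.1) i).length + z.2.2.2.1.sum + 1) &&
    decide (z.1.2.2.1 = gcode (gC (stt z.2.1) i) z.2.2.2.1 z.1.2.2.2))))))))))

theorem P_Etest (i q j k0 T : ℕ) (PF : List (ℕ × ℕ)) (Dr : List ℕ) :
    Primrec (Etest i q j k0 T PF Dr) := by
  unfold Etest
  fun_prop

theorem Etest_iff {i q j k0 T : ℕ} {PF : List (ℕ × ℕ)} {Dr : List ℕ} {τ : List Bool}
    {K g M t : ℕ} {σ : List Bool} {c : List ℕ} {wc : ℕ} :
    Etest i q j k0 T PF Dr ((τ, K, g, M), (t, σ, c, wc)) = true ↔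
    T ≤ t ∧ σ.length ≤ τ.length ∧
    (∀ x < σ.length, σ.getD x false = true → x ∈ stA (stt t) ∧ τ.getD x false = false) ∧
    (∀ x ∈ Dr, x < σ.length → σ.getD x false = true) ∧
    cert j wc σ c = true ∧ c.length = K ∧ k0 ≤ K ∧
    (∀ p ∈ PF, c.getD p.1 0 = p.2) ∧
    encode ((q, σ, c, wc) : ℕ × List Bool × List ℕ × ℕ) ≤ (gC (stt t) i).length ∧
    M = (gC (stt t) i).length + c.sum + 1 ∧ g = gcode (gC (stt t) i) c M := by
  unfold Etest
  simp only [Bool.and_eq_true, decide_eq_true_eq, List.all_eq_true, List.mem_range,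
    Bool.or_eq_true, Bool.not_eq_true']
  have e1 : (∀ x < σ.length, σ.getD x false = false ∨ x ∈ stA (stt t) ∧ τ.getD x false = false) ↔
      (∀ x < σ.length, σ.getD x false = true → x ∈ stA (stt t) ∧ τ.getD x false = false) := by
    apply forall_congr'
    intro x
    apply forall_congr'
    intro _
    rcases σ.getD x false with _ | _ <;> simp
  have e2 : (∀ x ∈ Dr, σ.length ≤ x ∨ σ.getD x false = true) ↔
      (∀ x ∈ Dr, x < σ.length → σ.getD x false = true) := by
    apply forall_congr'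
    intro x
    apply forall_congr'
    intro _
    rw [← not_lt]
    tauto
  rw [e1, e2]

theorem reqR (hG : GoodT L S i) (g : ℕ → ℕ) (hiso : IsIso L S S (fun x => sLim i (g x)))
    (hg : FunLe g setD) : DecCatIn L S setB := by
  classical
  obtain ⟨W, hW, hWg⟩ := use_principle setD g hg
  obtain ⟨j, hj⟩ := exists_Wn W hW
  have hj' : ∀ x y, g x = y ↔ ∃ n, ∃ w, Wn j w (strOf setD n) x y = true := by
    intro x y
    rw [hWg]
    apply exists_congr
    intro n
    exact hj _ _ _
  set q := 2 * Nat.pair i j + 1 with hq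
  have hq1 : q % 2 = 1 := by omega
  have hq2 : q / 2 = Nat.pair i j := by omega
  have hqi : qi q = i := by unfold qi; rw [hq2, Nat.unpair_pair]
  have hqj : qj q = j := by unfold qj; rw [hq2, Nat.unpair_pair]
  obtain ⟨T, hT⟩ := exists_stab q
  have hfl := flag_false hG g hiso j hj' q hq1 hqi hqj hT
  have hsurj : ∀ b, ∃ x, g x = b := by
    intro b
    obtain ⟨x, hx⟩ := hiso.1.2 (sLim i b)
    exact ⟨x, (sLim i).injective hx⟩
  choose finv hfinv using hsurj
  set P := Pl (gS (stt T) i) (rq (stt T) q) with hPdef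
  set r := rq (stt T) q with hr
  set k0 := (P.map finv).sum + 1 with hk0
  have hfk : ∀ b ∈ P, finv b < k0 := by
    intro b hb
    have := mem_le_sum (List.mem_map_of_mem (f := finv) hb)
    omega
  set PF : List (ℕ × ℕ) := P.map (fun b => (finv b, b)) with hPF
  set Dr : List ℕ := (List.range r).filter (fun x => decide (x ∈ setD)) with hDr
  set E : List Bool × ℕ × ℕ × ℕ → Prop := fun z => ∃ y : ℕ × List Bool × List ℕ × ℕ,
    Etest i q j k0 T PF Dr (z, y) = true with hE
  have hERE : REPred E := by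
    apply RE.ex (p := fun (z : List Bool × ℕ × ℕ × ℕ) (y : ℕ × List Bool × List ℕ × ℕ) =>
      Etest i q j k0 T PF Dr (z, y) = true)
    exact RE.of_bool (p := fun z : (List Bool × ℕ × ℕ × ℕ) × (ℕ × List Bool × List ℕ × ℕ) =>
      Etest i q j k0 T PF Dr (z.1, z.2)) (P_Etest i q j k0 T PF Dr).to_comp
  -- unpacking
  have unpack : ∀ n K g' M, E (strOf setB n, K, g', M) → ∃ t σ c wc, T ≤ t ∧
      (∀ x < List.length σ, σ.getD x false = true → x ∈ stA (stt t) ∧ x ∉ setB) ∧
      (∀ x < List.length σ, x < r → x ∈ setD → σ.getD x false = true) ∧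
      cert (qj q) wc σ c = true ∧ c.length = K ∧ k0 ≤ K ∧
      (∀ b ∈ P, finv b < k0 ∧ g (finv b) = b ∧ c.getD (finv b) 0 = b) ∧
      encode ((q, σ, c, wc) : ℕ × List Bool × List ℕ × ℕ) ≤ (gC (stt t) i).length ∧
      M = (gC (stt t) i).length + c.sum + 1 ∧ g' = gcode (gC (stt t) i) c M := by
    rintro n K g' M ⟨⟨t, σ, c, wc⟩, h⟩
    rw [Etest_iff] at h
    obtain ⟨h1, h2, h3, h4, h5, h6, h7, h8, h9, h10, h11⟩ := h
    refine ⟨t, σ, c, wc, h1, ?_, ?_, ?_, h6, h7, ?_, h9, h10, h11⟩
    · intro x hx hσ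
      rw [length_strOf] at h2
      refine ⟨(h3 x hx hσ).1, ?_⟩
      rw [← getD_strOf setB n x (by omega), (h3 x hx hσ).2]
      simp
    · intro x hx hxr hxD
      apply h4 x _ hx
      rw [hDr, List.mem_filter, List.mem_range]
      exact ⟨hxr, by simpa using hxD⟩
    · rw [hqj]; exact h5
    · intro b hb
      refine ⟨hfk b hb, hfinv b, ?_⟩
      have := h8 (finv b, b) (by rw [hPF]; exact List.mem_map_of_mem (f := fun b => (finv b, b)) hb)
      exact this
  intro A hA hAiso
  refine back_forth L S A setB k0 (by omega) E hERE ?_ ?_ ?_ hA hAiso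
  · -- the initial segment satisfies the formula
    intro n K g' M h
    obtain ⟨t, σ, c, wc, h1, h2, h3, h4, h5, h6, h7, h8, h9, h10⟩ := unpack n K g' M h
    refine ⟨h6, ?_⟩
    have hσ1' : ∀ x < σ.length, σ.getD x false = true → x ∈ setD :=
      fun x hx h => ⟨⟨t, (h2 x hx h).1⟩, (h2 x hx h).2⟩
    have h11 := no_diag hG q hq1 hqi hT hfl σ c wc hσ1' h3 h4 g' M
    rw [← h5, ← h11, h10]
    rw [Tr_gcode _ _ _ (by omega) (fun b hb => by have := mem_le_sum hb; omega) _ (by simp)]
    refine ⟨sLim i, ?_, ?_, ?_⟩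
    · intro m hm
      rw [com_lim hG hm, tv_iff]
    · intro b _ b' hb' h
      have := (sLim i).injective h
      omega
    · intro l hl
      rw [List.getD_eq_getElem _ _ hl, List.getD_eq_getElem _ _ (by simpa using hl)]
      simp
  · -- the formula isolates the type
    intro n K g' M h x hx hx0 hxT
    obtain ⟨t, σ, c, wc, h1, h2, h3, h4, h5, h6, h7, h8, h9, h10⟩ := unpack n K g' M h
    rw [← h5]
    rw [h10] at hxT
    refine isolate hG g hiso hq1 hqi hT hfl h1 h2 h3 h4 h8 k0 finv h7 (by omega) M (by omega)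
      (fun b hb => by have := mem_le_sum hb; omega) x (by omega) hx0 hxT
  · -- data exist
    intro K hK
    have h1 : ∀ l, ∃ n, ∃ w, Wn j w (strOf setD n) l (g l) = true := fun l => (hj' l (g l)).1 rfl
    choose nl wl hnw using h1
    set N := ((List.range K).map nl).sum with hN
    set w := ((List.range K).map wl).sum with hw
    have hnN : ∀ l < K, nl l ≤ N := fun l hl =>
      mem_le_sum (List.mem_map_of_mem (f := nl) (List.mem_range.2 hl))
    have hwN : ∀ l < K, wl l ≤ w := fun l hl =>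
      mem_le_sum (List.mem_map_of_mem (f := wl) (List.mem_range.2 hl))
    set c : List ℕ := (List.range K).map g with hc
    have hclen : c.length = K := by rw [hc]; simp
    have hcget : ∀ l < K, c.getD l 0 = g l := by
      intro l hl
      rw [List.getD_eq_getElem _ _ (by omega), List.getElem_map, List.getElem_range]
    set σ := strOf setD N with hσ
    have hcert : cert j w σ c = true := by
      rw [cert_iff]
      refine ⟨by omega, ?_⟩
      intro l hl
      rw [Wp_iff]
      refine ⟨nl l, ?_, ?_⟩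
      · rw [hσ, length_strOf]; exact hnN l (by omega)
      · rw [hσ, take_strOf _ _ _ (hnN l (by omega)), hcget l (by omega)]
        exact Wn_mono (hwN l (by omega)) (hnw l)
    obtain ⟨T1, hT1⟩ := exists_bound_Tst N
    obtain ⟨t2, ht2⟩ := com_grow hG (encode ((q, σ, c, w) : ℕ × List Bool × List ℕ × ℕ))
    set t := max T (max T1 t2) with ht
    have htT : T ≤ t := le_max_left _ _
    have htT1 : T1 ≤ t := (le_max_left _ _).trans (le_max_right _ _)
    have htt2 : t2 ≤ t := (le_max_right _ _).trans (le_max_right _ _)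
    refine ⟨N, gcode (gC (stt t) i) c ((gC (stt t) i).length + c.sum + 1),
      (gC (stt t) i).length + c.sum + 1, (t, σ, c, w), ?_⟩
    rw [Etest_iff]
    refine ⟨htT, ?_, ?_, ?_, hcert, hclen, hK, ?_, ?_, rfl, rfl⟩
    · rw [hσ, length_strOf, length_strOf]
    · intro x hx hσx
      have hxN : x < N := by rw [hσ, length_strOf] at hx; exact hx
      rw [hσ, getD_strOf _ _ _ hxN] at hσx
      refine ⟨(setA_iff ((hT1 x hxN).trans htT1)).1 hσx.1, ?_⟩
      rw [Bool.eq_false_iff]
      intro h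
      rw [getD_strOf _ _ _ hxN] at h
      exact hσx.2 h
    · intro x hx hxN
      rw [hDr, List.mem_filter] at hx
      rw [hσ, length_strOf] at hxN
      rw [hσ, getD_strOf _ _ _ hxN]
      simpa using hx.2
    · intro p hp
      rw [hPF, List.mem_map] at hp
      obtain ⟨b, hb, rfl⟩ := hp
      simp only
      have := hfk b hb
      rw [hcget _ (by omega)]
      exact hfinv b
    · exact ht2.trans (com_len_mono i htt2)

end Pool.Agent.Lib.MP95a9c1
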