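import Mathlib
import Pool.Agent.Lib.MP_95a9c1_lc.ReqRFinal
import Pool.Agent.Lib.MP_95a9c1_lc.ReqN
import Pool.Agent.Lib.MP_95a9c1_lc.FKM

/-!
The constructed set `A \ B`: its degree is a degree of categoricity but not a degree of
decidable categoricity.
-/

namespace Pool.Agent.Lib.MP95a9c1

open Encodable Denumerable
open Nat.Partrec (Code)

/-- substitution of variables for variables, as a computable function of codes -/
def renC (m N : ℕ) (r : List ℕ) : ℕ :=
  exL ((List.range (m + 1)).map (fun i => N + i))
    (andL ((List.range (m + 1)).map (fun i => cEq (N + i) (r.getD i 0)) ++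
      [exL (List.range (m + 1))
        (andL ((List.range (m + 1)).map (fun i => cEq i (N + i)) ++ [m]))]))

theorem Tr_renC {L : CLang} {S : Str} (m N : ℕ) (r : List ℕ) (hN1 : m < N)
    (hN2 : ∀ i ≤ m, r.getD i 0 < N) (v : ℕ → ℕ) :
    Tr L S (renC m N r) v ↔ Tr L S m (fun i => v (r.getD i 0)) := by
  unfold renC
  rw [Tr_exL]
  simp only [Tr_andL, List.mem_append, or_imp, forall_and, List.mem_singleton, forall_eq,
    Tr_exL, List.mem_map, List.mem_range, forall_exists_index, and_imp,
    forall_apply_eq_imp_iff₂, Tr_eq, not_exists, not_and]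
  constructor
  · rintro ⟨v', h1, h2, v'', h3, h4, h5⟩
    rw [← Tr_congr m v'' (fun i => v (r.getD i 0))]
    · exact h5
    · intro i hi
      have h6 := hN2 i hi
      rw [h4 i (by omega), h3 (N + i) (by omega), h2 i (by omega)]
      exact h1 (r.getD i 0) (fun x _ hx => by omega)
  · intro h
    refine ⟨fun i => if N ≤ i ∧ i ≤ N + m then v (r.getD (i - N) 0) else v i, ?_, ?_,
      fun i => if i ≤ m then v (r.getD i 0) else
        if N ≤ i ∧ i ≤ N + m then v (r.getD (i - N) 0) else v i, ?_, ?_, ?_⟩
    · intro i hi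
      simp only
      rw [if_neg]
      rintro ⟨h1, h2⟩
      exact hi (i - N) (by omega) (by omega)
    · intro i hi
      have h6 := hN2 i (by omega)
      simp only
      rw [if_pos ⟨by omega, by omega⟩, if_neg (by omega), Nat.add_sub_cancel_left]
    · intro i hi
      simp only
      rw [if_neg (by omega)]
    · intro i hi
      simp only
      rw [if_pos (by omega), if_neg (by omega), if_pos ⟨by omega, by omega⟩,
        Nat.add_sub_cancel_left]
    · rw [Tr_congr m _ (fun i => v (r.getD i 0))]
      · exact h
      · intro i hi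
        simp only [if_pos hi]

theorem P_renC : Primrec (fun q : ℕ × List ℕ => renC q.1 (q.1 + 1 + q.2.sum) q.2) := by
  unfold renC
  fun_prop

variable {L : CLang} {S : Str} {i : ℕ}

theorem tv_comp (hG : GoodT L S i) : Computable (fun m => tv L S m (sLim i)) := by
  apply RE.computable_of_graph
  have h1 : REPred (fun q : ℕ × Bool => ∃ t : ℕ, (decide (q.1 < (gC (stt t) i).length) &&
      decide ((gC (stt t) i).getD q.1 false = q.2)) = true) := by
    apply RE.ex (p := fun (q : ℕ × Bool) (t : ℕ) => (decide (q.1 < (gC (stt t) i).length) &&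
      decide ((gC (stt t) i).getD q.1 false = q.2)) = true)
    apply RE.of_bool
    apply Primrec.to_comp
    fun_prop
  refine REPred.of_eq h1 ?_
  rintro ⟨m, b⟩
  simp only [Bool.and_eq_true, decide_eq_true_eq]
  constructor
  · rintro ⟨t, h2, h3⟩
    rw [← com_lim hG h2, h3]
  · intro h2
    obtain ⟨t, ht⟩ := com_grow hG (m + 1)
    exact ⟨t, ht, by rw [com_lim hG ht, h2]⟩

theorem dec_pull (hG : GoodT L S i) : DecStr L (pull (sLim i) S) := by
  refine ⟨fun q => tv L S (renC q.1 (q.1 + 1 + q.2.sum) q.2) (sLim i), ?_, ?_⟩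
  · exact (tv_comp hG).comp P_renC.to_comp
  · intro φ l
    rw [tv_iff, Tr_renC]
    · rw [← Tr_code, Tr_iso (pull_iso (sLim i) S)]
      rfl
    · omega
    · intro k _
      show l.getD k 0 < φ.code + 1 + l.sum
      rcases Nat.lt_or_ge k l.length with h | h
      · rw [List.getD_eq_getElem _ _ h]
        have := mem_le_sum (List.getElem_mem h)
        omega
      · rw [List.getD_eq_default _ _ h]
        omega

/-- inverse of a bijection computable in `X` -/
theorem FunLe.inv {f g : ℕ → ℕ} {X : Set ℕ} (hf : FunLe f X) (h1 : ∀ x, g (f x) = x)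
    (h2 : ∀ x, f (g x) = x) : FunLe g X := by
  obtain ⟨W, hW, h⟩ := use_principle X f hf
  apply funLe_of_re X g (fun q => W (q.1, q.2.2, q.2.1))
  · exact RE.comp hW (f := fun q : List Bool × ℕ × ℕ => (q.1, q.2.2, q.2.1))
      (Computable.fst.pair ((Computable.snd.comp Computable.snd).pair
        (Computable.fst.comp Computable.snd)))
  · intro x y
    simp only
    rw [← h y x]
    constructor
    · rintro rfl; exact h2 x
    · rintro rfl; exact h1 y

/-- the degree of the set is not a degree of decidable categoricity -/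
theorem not_degDecCat : ¬ DegDecCat setD := by
  classical
  rintro ⟨L, S, hS, hcat, hleast⟩
  obtain ⟨i, hG⟩ := good_of_dec hS
  obtain ⟨f, hf, hfD⟩ := hcat (pull (sLim i) S) (dec_pull hG) ⟨_, pull_iso (sLim i) S⟩
  let e := Equiv.ofBijective f hf.1
  have h1 : ∀ x, e.symm (f x) = x := fun x => e.symm_apply_apply x
  have h2 : ∀ x, f (e.symm x) = x := fun x => e.apply_symm_apply x
  have hg : FunLe e.symm setD := FunLe.inv hfD h1 h2
  have hiso : IsIso L S S (fun x => sLim i (e.symm x)) :=
    IsIso.trans (IsIso.symm hf h1) (pull_iso (sLim i) S)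
  have hB : DecCatIn L S setB := reqR hG _ hiso hg
  have hle := hleast setB hB
  let χ : ℕ → ℕ := fun n => if n ∈ setD then 1 else 0
  have hχ : FunLe χ setB := by
    have : (fun n => Part.some (χ n)) = chi setD := by
      funext n
      simp only [chi, χ]
    unfold FunLe
    rw [this]
    exact hle
  obtain ⟨W, hW, h⟩ := use_principle setB χ hχ
  refine reqN χ ?_ ?_ W hW h
  · intro x hx hx'
    simp only [χ]
    rw [if_pos]
    exact ⟨hx, hx'⟩
  · intro x hx
    simp only [χ]
    rw [if_neg]
    rintro ⟨h3, _⟩
    exact hx h3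

theorem re_A : REPred (fun x => x ∈ setA) := by
  have h1 : REPred (fun x : ℕ => ∃ t : ℕ, decide (x ∈ stA (stt t)) = true) := by
    apply RE.ex (p := fun (x : ℕ) (t : ℕ) => decide (x ∈ stA (stt t)) = true)
    apply RE.of_bool
    apply Primrec.to_comp
    fun_prop
  refine REPred.of_eq h1 ?_
  intro x
  simp [setA]

theorem re_B : REPred (fun x => x ∈ setB) := by
  have h1 : REPred (fun x : ℕ => ∃ t : ℕ, decide (x ∈ stB (stt t)) = true) := by
    apply RE.ex (p := fun (x : ℕ) (t : ℕ) => decide (x ∈ stB (stt t)) = true)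
    apply RE.of_bool
    apply Primrec.to_comp
    fun_prop
  refine REPred.of_eq h1 ?_
  intro x
  simp [setB]

theorem degCat : DegCat (setA \ setB) := by
  have h := fkm (fun s n => decide (n ∈ stA (stt s))) (fun s n => decide (n ∈ stB (stt s)))
    (by
      apply Primrec.to_comp
      fun_prop)
    (by
      apply Primrec.to_comp
      fun_prop)
    (by
      intro n
      have : stA (stt 0) = [] := rfl
      simp [this])
    (by
      intro n
      have : stB (stt 0) = [] := rfl
      simp [this])
    (by
      intro s n h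
      simp only [decide_eq_true_eq] at h ⊢
      exact A_mono h)
    (by
      intro s n h
      simp only [decide_eq_true_eq] at h ⊢
      exact B_mono h)
    (by
      intro s n h
      simp only [decide_eq_true_eq] at h ⊢
      exact (inv s).i4 n h)
  have h2 : {n | (∃ s, decide (n ∈ stA (stt s)) = true) ∧ ¬ ∃ s, decide (n ∈ stB (stt s)) = true}
      = setA \ setB := by
    ext n
    simp [setA, setB]
  rw [← h2]
  exact h

theorem final : ∃ A B : Set ℕ, REPred (fun x => x ∈ A) ∧ REPred (fun x => x ∈ B) ∧
    DegCat (A \ B) ∧ ¬ DegDecCat (A \ B) := by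
  refine ⟨setA, setB, re_A, re_B, degCat, ?_⟩
  have : setA \ setB = setD := rfl
  rw [this]
  exact not_degDecCat

end Pool.Agent.Lib.MP95a9c1
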